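import Pool.Agent.MP_7e7dde_gt.Stmt
import Pool.Agent.MP_63050e_lc.E2
import Pool.Agent.MP_63050e_lc.D5

/-! Uniform definability of the vocabulary of the statement. -/

set_option linter.unusedVariables false
set_option linter.unusedSectionVars false
set_option linter.unreachableTactic false
set_option linter.unusedTactic false

namespace Pool.Agent.MP7e7dde

open BVM BName SetModel MP63050e

universe v

variable {B : Type} [CompleteBooleanAlgebra B] {J : Type*} {H : J → Ult B} {Γ : Type v}
  [BSet B Γ]

variable {f1 f2 f3 f4 f5 f6 f7 f8 : Γ → BName B}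

theorem bp_eq_pr (h1 : BTerm f1) (h2 : BTerm f2) (h3 : BTerm f3) :
    BPred H (fun j γ => Mdl.mk (H j) (f1 γ) = pr (H j) (Mdl.mk _ (f2 γ)) (Mdl.mk _ (f3 γ))) :=
  BPred.eq h1 (bterm_opair h2 h3)

theorem bp_isTuple3 (h1 : BTerm f1) (h2 : BTerm f2) (h3 : BTerm f3) (h4 : BTerm f4) :
    BPred H (fun j γ => IsTuple (E (H j)) (Mdl.mk _ (f1 γ))
      [Mdl.mk _ (f2 γ), Mdl.mk _ (f3 γ), Mdl.mk _ (f4 γ)]) := by
  refine (BPred.eq h1 (bterm_opair h2 (bterm_opair h3 h4))).congr fun j γ => ?_
  rw [isTuple_iff (by simp)]
  exact Iff.rfl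

theorem bp_sub (h1 : BTerm f1) (h2 : BTerm f2) :
    BPred H (fun j γ => Sub (E (H j)) (Mdl.mk _ (f1 γ)) (Mdl.mk _ (f2 γ))) := by
  unfold Sub
  repeat' first
    | exact BMap.id
    | apply BMap.fst
    | apply BMap.snd
    | apply BTerm.cmp h1
    | apply BTerm.cmp h2
    | exact BTerm.const _
    | apply bterm_opair
    | apply BTerm.of
    | apply BPred.mem
    | apply BPred.eq
    | apply bp_has2
    | apply bp_has3
    | apply bp_isTuple3
    | apply bp_eq_pr
    | apply bp_isPair
    | apply bp_isUPair
    | apply bp_isFun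
    | apply bp_injects
    | apply BPred.not
    | apply BPred.and
    | apply BPred.or
    | apply BPred.iff
    | apply BPred.imp
    | refine BPred.ex ?_
    | refine BPred.all ?_
    | exact BPred.const _

theorem bp_isFin (h1 : BTerm f1) (h2 : BTerm f2) :
    BPred H (fun j γ => IsFin (E (H j)) (Mdl.mk _ (f1 γ)) (Mdl.mk _ (f2 γ))) := by
  unfold IsFin
  repeat' first
    | exact BMap.id
    | apply BMap.fst
    | apply BMap.snd
    | apply BTerm.cmp h1
    | apply BTerm.cmp h2
    | exact BTerm.const _
    | apply bterm_opair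
    | apply BTerm.of
    | apply BPred.mem
    | apply BPred.eq
    | apply bp_has2
    | apply bp_has3
    | apply bp_isTuple3
    | apply bp_eq_pr
    | apply bp_isPair
    | apply bp_isUPair
    | apply bp_isFun
    | apply bp_injects
    | apply BPred.not
    | apply BPred.and
    | apply BPred.or
    | apply BPred.iff
    | apply BPred.imp
    | refine BPred.ex ?_
    | refine BPred.all ?_
    | exact BPred.const _

theorem bp_isCtbl (h1 : BTerm f1) (h2 : BTerm f2) :
    BPred H (fun j γ => IsCtbl (E (H j)) (Mdl.mk _ (f1 γ)) (Mdl.mk _ (f2 γ))) := by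
  unfold IsCtbl
  repeat' first
    | exact BMap.id
    | apply BMap.fst
    | apply BMap.snd
    | apply BTerm.cmp h1
    | apply BTerm.cmp h2
    | exact BTerm.const _
    | apply bterm_opair
    | apply BTerm.of
    | apply BPred.mem
    | apply BPred.eq
    | apply bp_has2
    | apply bp_has3
    | apply bp_isTuple3
    | apply bp_eq_pr
    | apply bp_isPair
    | apply bp_isUPair
    | apply bp_isFun
    | apply bp_injects
    | apply BPred.not
    | apply BPred.and
    | apply BPred.or
    | apply BPred.iff
    | apply BPred.imp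
    | refine BPred.ex ?_
    | refine BPred.all ?_
    | exact BPred.const _

theorem bp_isTop (h1 : BTerm f1) (h2 : BTerm f2) :
    BPred H (fun j γ => IsTop (E (H j)) (Mdl.mk _ (f1 γ)) (Mdl.mk _ (f2 γ))) := by
  unfold IsTop
  repeat' first
    | exact BMap.id
    | apply BMap.fst
    | apply BMap.snd
    | apply BTerm.cmp h1
    | apply BTerm.cmp h2
    | exact BTerm.const _
    | apply bterm_opair
    | apply BTerm.of
    | apply BPred.mem
    | apply BPred.eq
    | apply bp_has2
    | apply bp_has3
    | apply bp_isTuple3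
    | apply bp_eq_pr
    | apply bp_isPair
    | apply bp_isUPair
    | apply bp_isFun
    | apply bp_injects
    | apply bp_sub
    | apply BPred.not
    | apply BPred.and
    | apply BPred.or
    | apply BPred.iff
    | apply BPred.imp
    | refine BPred.ex ?_
    | refine BPred.all ?_
    | exact BPred.const _

theorem bp_isCR (h1 : BTerm f1) (h2 : BTerm f2) (h3 : BTerm f3) (h4 : BTerm f4) (h5 : BTerm f5) :
    BPred H (fun j γ => IsCR (E (H j)) (Mdl.mk _ (f1 γ)) (Mdl.mk _ (f2 γ)) (Mdl.mk _ (f3 γ)) (Mdl.mk _ (f4 γ)) (Mdl.mk _ (f5 γ))) := by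
  unfold IsCR
  repeat' first
    | exact BMap.id
    | apply BMap.fst
    | apply BMap.snd
    | apply BTerm.cmp h1
    | apply BTerm.cmp h2
    | apply BTerm.cmp h3
    | apply BTerm.cmp h4
    | apply BTerm.cmp h5
    | exact BTerm.const _
    | apply bterm_opair
    | apply BTerm.of
    | apply BPred.mem
    | apply BPred.eq
    | apply bp_has2
    | apply bp_has3
    | apply bp_isTuple3
    | apply bp_eq_pr
    | apply bp_isPair
    | apply bp_isUPair
    | apply bp_isFun
    | apply bp_injects
    | apply bp_sub
    | apply BPred.not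
    | apply BPred.and
    | apply BPred.or
    | apply BPred.iff
    | apply BPred.imp
    | refine BPred.ex ?_
    | refine BPred.all ?_
    | exact BPred.const _

theorem bp_isTych (h1 : BTerm f1) (h2 : BTerm f2) (h3 : BTerm f3) (h4 : BTerm f4) :
    BPred H (fun j γ => IsTych (E (H j)) (Mdl.mk _ (f1 γ)) (Mdl.mk _ (f2 γ)) (Mdl.mk _ (f3 γ)) (Mdl.mk _ (f4 γ))) := by
  unfold IsTych
  repeat' first
    | exact BMap.id
    | apply BMap.fst
    | apply BMap.snd
    | apply BTerm.cmp h1
    | apply BTerm.cmp h2
    | apply BTerm.cmp h3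
    | apply BTerm.cmp h4
    | exact BTerm.const _
    | apply bterm_opair
    | apply BTerm.of
    | apply BPred.mem
    | apply BPred.eq
    | apply bp_has2
    | apply bp_has3
    | apply bp_isTuple3
    | apply bp_eq_pr
    | apply bp_isPair
    | apply bp_isUPair
    | apply bp_isFun
    | apply bp_injects
    | apply bp_isTop
    | apply bp_isCR
    | apply BPred.not
    | apply BPred.and
    | apply BPred.or
    | apply BPred.iff
    | apply BPred.imp
    | refine BPred.ex ?_
    | refine BPred.all ?_
    | exact BPred.const _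

theorem bp_isCont (h1 : BTerm f1) (h2 : BTerm f2) (h3 : BTerm f3) (h4 : BTerm f4) (h5 : BTerm f5) :
    BPred H (fun j γ => IsCont (E (H j)) (Mdl.mk _ (f1 γ)) (Mdl.mk _ (f2 γ)) (Mdl.mk _ (f3 γ)) (Mdl.mk _ (f4 γ)) (Mdl.mk _ (f5 γ))) := by
  unfold IsCont
  repeat' first
    | exact BMap.id
    | apply BMap.fst
    | apply BMap.snd
    | apply BTerm.cmp h1
    | apply BTerm.cmp h2
    | apply BTerm.cmp h3
    | apply BTerm.cmp h4
    | apply BTerm.cmp h5
    | exact BTerm.const _
    | apply bterm_opair
    | apply BTerm.of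
    | apply BPred.mem
    | apply BPred.eq
    | apply bp_has2
    | apply bp_has3
    | apply bp_isTuple3
    | apply bp_eq_pr
    | apply bp_isPair
    | apply bp_isUPair
    | apply bp_isFun
    | apply bp_injects
    | apply BPred.not
    | apply BPred.and
    | apply BPred.or
    | apply BPred.iff
    | apply BPred.imp
    | refine BPred.ex ?_
    | refine BPred.all ?_
    | exact BPred.const _

theorem bp_isOnto (h1 : BTerm f1) (h2 : BTerm f2) :
    BPred H (fun j γ => IsOnto (E (H j)) (Mdl.mk _ (f1 γ)) (Mdl.mk _ (f2 γ))) := by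
  unfold IsOnto
  repeat' first
    | exact BMap.id
    | apply BMap.fst
    | apply BMap.snd
    | apply BTerm.cmp h1
    | apply BTerm.cmp h2
    | exact BTerm.const _
    | apply bterm_opair
    | apply BTerm.of
    | apply BPred.mem
    | apply BPred.eq
    | apply bp_has2
    | apply bp_has3
    | apply bp_isTuple3
    | apply bp_eq_pr
    | apply bp_isPair
    | apply bp_isUPair
    | apply bp_isFun
    | apply bp_injects
    | apply BPred.not
    | apply BPred.and
    | apply BPred.or
    | apply BPred.iff
    | apply BPred.imp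
    | refine BPred.ex ?_
    | refine BPred.all ?_
    | exact BPred.const _

theorem bp_isInj (h1 : BTerm f1) :
    BPred H (fun j γ => IsInj (E (H j)) (Mdl.mk _ (f1 γ))) := by
  unfold IsInj
  repeat' first
    | exact BMap.id
    | apply BMap.fst
    | apply BMap.snd
    | apply BTerm.cmp h1
    | exact BTerm.const _
    | apply bterm_opair
    | apply BTerm.of
    | apply BPred.mem
    | apply BPred.eq
    | apply bp_has2
    | apply bp_has3
    | apply bp_isTuple3
    | apply bp_eq_pr
    | apply bp_isPair
    | apply bp_isUPair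
    | apply bp_isFun
    | apply bp_injects
    | apply BPred.not
    | apply BPred.and
    | apply BPred.or
    | apply BPred.iff
    | apply BPred.imp
    | refine BPred.ex ?_
    | refine BPred.all ?_
    | exact BPred.const _

theorem bp_isSecCtbl (h1 : BTerm f1) (h2 : BTerm f2) :
    BPred H (fun j γ => IsSecCtbl (E (H j)) (Mdl.mk _ (f1 γ)) (Mdl.mk _ (f2 γ))) := by
  unfold IsSecCtbl
  repeat' first
    | exact BMap.id
    | apply BMap.fst
    | apply BMap.snd
    | apply BTerm.cmp h1
    | apply BTerm.cmp h2
    | exact BTerm.const _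
    | apply bterm_opair
    | apply BTerm.of
    | apply BPred.mem
    | apply BPred.eq
    | apply bp_has2
    | apply bp_has3
    | apply bp_isTuple3
    | apply bp_eq_pr
    | apply bp_isPair
    | apply bp_isUPair
    | apply bp_isFun
    | apply bp_injects
    | apply bp_sub
    | apply bp_isCtbl
    | apply BPred.not
    | apply BPred.and
    | apply BPred.or
    | apply BPred.iff
    | apply BPred.imp
    | refine BPred.ex ?_
    | refine BPred.all ?_
    | exact BPred.const _

theorem bp_hasCtblNet (h1 : BTerm f1) (h2 : BTerm f2) (h3 : BTerm f3) :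
    BPred H (fun j γ => HasCtblNet (E (H j)) (Mdl.mk _ (f1 γ)) (Mdl.mk _ (f2 γ)) (Mdl.mk _ (f3 γ))) := by
  unfold HasCtblNet
  repeat' first
    | exact BMap.id
    | apply BMap.fst
    | apply BMap.snd
    | apply BTerm.cmp h1
    | apply BTerm.cmp h2
    | apply BTerm.cmp h3
    | exact BTerm.const _
    | apply bterm_opair
    | apply BTerm.of
    | apply BPred.mem
    | apply BPred.eq
    | apply bp_has2
    | apply bp_has3
    | apply bp_isTuple3
    | apply bp_eq_pr
    | apply bp_isPair
    | apply bp_isUPair
    | apply bp_isFun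
    | apply bp_injects
    | apply bp_sub
    | apply bp_isCtbl
    | apply BPred.not
    | apply BPred.and
    | apply BPred.or
    | apply BPred.iff
    | apply BPred.imp
    | refine BPred.ex ?_
    | refine BPred.all ?_
    | exact BPred.const _

theorem bp_inCl (h1 : BTerm f1) (h2 : BTerm f2) (h3 : BTerm f3) :
    BPred H (fun j γ => InCl (E (H j)) (Mdl.mk _ (f1 γ)) (Mdl.mk _ (f2 γ)) (Mdl.mk _ (f3 γ))) := by
  unfold InCl
  repeat' first
    | exact BMap.id
    | apply BMap.fst
    | apply BMap.snd
    | apply BTerm.cmp h1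
    | apply BTerm.cmp h2
    | apply BTerm.cmp h3
    | exact BTerm.const _
    | apply bterm_opair
    | apply BTerm.of
    | apply BPred.mem
    | apply BPred.eq
    | apply bp_has2
    | apply bp_has3
    | apply bp_isTuple3
    | apply bp_eq_pr
    | apply bp_isPair
    | apply bp_isUPair
    | apply bp_isFun
    | apply bp_injects
    | apply BPred.not
    | apply BPred.and
    | apply BPred.or
    | apply BPred.iff
    | apply BPred.imp
    | refine BPred.ex ?_
    | refine BPred.all ?_
    | exact BPred.const _

theorem bp_satC (h1 : BTerm f1) (h2 : BTerm f2) (h3 : BTerm f3) (h4 : BTerm f4) :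
    BPred H (fun j γ => SatC (E (H j)) (Mdl.mk _ (f1 γ)) (Mdl.mk _ (f2 γ)) (Mdl.mk _ (f3 γ)) (Mdl.mk _ (f4 γ))) := by
  unfold SatC
  repeat' first
    | exact BMap.id
    | apply BMap.fst
    | apply BMap.snd
    | apply BTerm.cmp h1
    | apply BTerm.cmp h2
    | apply BTerm.cmp h3
    | apply BTerm.cmp h4
    | exact BTerm.const _
    | apply bterm_opair
    | apply BTerm.of
    | apply BPred.mem
    | apply BPred.eq
    | apply bp_has2
    | apply bp_has3
    | apply bp_isTuple3
    | apply bp_eq_pr
    | apply bp_isPair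
    | apply bp_isUPair
    | apply bp_isFun
    | apply bp_injects
    | apply BPred.not
    | apply BPred.and
    | apply BPred.or
    | apply BPred.iff
    | apply BPred.imp
    | refine BPred.ex ?_
    | refine BPred.all ?_
    | exact BPred.const _

theorem bp_isPtOpen (h1 : BTerm f1) (h2 : BTerm f2) (h3 : BTerm f3) (h4 : BTerm f4) (h5 : BTerm f5) :
    BPred H (fun j γ => IsPtOpen (E (H j)) (Mdl.mk _ (f1 γ)) (Mdl.mk _ (f2 γ)) (Mdl.mk _ (f3 γ)) (Mdl.mk _ (f4 γ)) (Mdl.mk _ (f5 γ))) := by
  unfold IsPtOpen
  repeat' first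
    | exact BMap.id
    | apply BMap.fst
    | apply BMap.snd
    | apply BTerm.cmp h1
    | apply BTerm.cmp h2
    | apply BTerm.cmp h3
    | apply BTerm.cmp h4
    | apply BTerm.cmp h5
    | exact BTerm.const _
    | apply bterm_opair
    | apply BTerm.of
    | apply BPred.mem
    | apply BPred.eq
    | apply bp_has2
    | apply bp_has3
    | apply bp_isTuple3
    | apply bp_eq_pr
    | apply bp_isPair
    | apply bp_isUPair
    | apply bp_isFun
    | apply bp_injects
    | apply bp_sub
    | apply bp_isFin
    | apply bp_satC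
    | apply BPred.not
    | apply BPred.and
    | apply BPred.or
    | apply BPred.iff
    | apply BPred.imp
    | refine BPred.ex ?_
    | refine BPred.all ?_
    | exact BPred.const _

theorem bp_isCp (h1 : BTerm f1) (h2 : BTerm f2) (h3 : BTerm f3) (h4 : BTerm f4) (h5 : BTerm f5) (h6 : BTerm f6) (h7 : BTerm f7) :
    BPred H (fun j γ => IsCp (E (H j)) (Mdl.mk _ (f1 γ)) (Mdl.mk _ (f2 γ)) (Mdl.mk _ (f3 γ)) (Mdl.mk _ (f4 γ)) (Mdl.mk _ (f5 γ)) (Mdl.mk _ (f6 γ)) (Mdl.mk _ (f7 γ))) := by
  unfold IsCp
  repeat' first
    | exact BMap.id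
    | apply BMap.fst
    | apply BMap.snd
    | apply BTerm.cmp h1
    | apply BTerm.cmp h2
    | apply BTerm.cmp h3
    | apply BTerm.cmp h4
    | apply BTerm.cmp h5
    | apply BTerm.cmp h6
    | apply BTerm.cmp h7
    | exact BTerm.const _
    | apply bterm_opair
    | apply BTerm.of
    | apply BPred.mem
    | apply BPred.eq
    | apply bp_has2
    | apply bp_has3
    | apply bp_isTuple3
    | apply bp_eq_pr
    | apply bp_isPair
    | apply bp_isUPair
    | apply bp_isFun
    | apply bp_injects
    | apply bp_isCR
    | apply bp_isPtOpen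
    | apply BPred.not
    | apply BPred.and
    | apply BPred.or
    | apply BPred.iff
    | apply BPred.imp
    | refine BPred.ex ?_
    | refine BPred.all ?_
    | exact BPred.const _

theorem bp_isSubTop (h1 : BTerm f1) (h2 : BTerm f2) (h3 : BTerm f3) :
    BPred H (fun j γ => IsSubTop (E (H j)) (Mdl.mk _ (f1 γ)) (Mdl.mk _ (f2 γ)) (Mdl.mk _ (f3 γ))) := by
  unfold IsSubTop
  repeat' first
    | exact BMap.id
    | apply BMap.fst
    | apply BMap.snd
    | apply BTerm.cmp h1
    | apply BTerm.cmp h2
    | apply BTerm.cmp h3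
    | exact BTerm.const _
    | apply bterm_opair
    | apply BTerm.of
    | apply BPred.mem
    | apply BPred.eq
    | apply bp_has2
    | apply bp_has3
    | apply bp_isTuple3
    | apply bp_eq_pr
    | apply bp_isPair
    | apply bp_isUPair
    | apply bp_isFun
    | apply bp_injects
    | apply BPred.not
    | apply BPred.and
    | apply BPred.or
    | apply BPred.iff
    | apply BPred.imp
    | refine BPred.ex ?_
    | refine BPred.all ?_
    | exact BPred.const _

theorem bp_isCCIn (h1 : BTerm f1) (h2 : BTerm f2) (h3 : BTerm f3) (h4 : BTerm f4) :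
    BPred H (fun j γ => IsCCIn (E (H j)) (Mdl.mk _ (f1 γ)) (Mdl.mk _ (f2 γ)) (Mdl.mk _ (f3 γ)) (Mdl.mk _ (f4 γ))) := by
  unfold IsCCIn
  repeat' first
    | exact BMap.id
    | apply BMap.fst
    | apply BMap.snd
    | apply BTerm.cmp h1
    | apply BTerm.cmp h2
    | apply BTerm.cmp h3
    | apply BTerm.cmp h4
    | exact BTerm.const _
    | apply bterm_opair
    | apply BTerm.of
    | apply BPred.mem
    | apply BPred.eq
    | apply bp_has2
    | apply bp_has3
    | apply bp_isTuple3
    | apply bp_eq_pr
    | apply bp_isPair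
    | apply bp_isUPair
    | apply bp_isFun
    | apply bp_injects
    | apply bp_sub
    | apply bp_isFin
    | apply BPred.not
    | apply BPred.and
    | apply BPred.or
    | apply BPred.iff
    | apply BPred.imp
    | refine BPred.ex ?_
    | refine BPred.all ?_
    | exact BPred.const _

theorem bp_isCpt (h1 : BTerm f1) (h2 : BTerm f2) (h3 : BTerm f3) :
    BPred H (fun j γ => IsCpt (E (H j)) (Mdl.mk _ (f1 γ)) (Mdl.mk _ (f2 γ)) (Mdl.mk _ (f3 γ))) := by
  unfold IsCpt
  repeat' first
    | exact BMap.id
    | apply BMap.fst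
    | apply BMap.snd
    | apply BTerm.cmp h1
    | apply BTerm.cmp h2
    | apply BTerm.cmp h3
    | exact BTerm.const _
    | apply bterm_opair
    | apply BTerm.of
    | apply BPred.mem
    | apply BPred.eq
    | apply bp_has2
    | apply bp_has3
    | apply bp_isTuple3
    | apply bp_eq_pr
    | apply bp_isPair
    | apply bp_isUPair
    | apply bp_isFun
    | apply bp_injects
    | apply bp_sub
    | apply bp_isFin
    | apply BPred.not
    | apply BPred.and
    | apply BPred.or
    | apply BPred.iff
    | apply BPred.imp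
    | refine BPred.ex ?_
    | refine BPred.all ?_
    | exact BPred.const _
end Pool.Agent.MP7e7dde
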