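import Mathlib

/-!
The forcing conditions: countable approximations of a space on a set `I` of points together with
a family of its subsets.
-/

namespace Pool.Agent.MP7e7dde

open Set

variable {I : Type}

/-- A condition: a countable set `F` of points and a countable family `Y` of subsets of `F`, with
the empty set, which covers `F`, and such that every infinite subset of `F` has an accumulation
point in `F` for the topology generated by `Y`. -/
structure Cond (I : Type) where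
  /-- the points -/
  F : Set I
  /-- the sets -/
  Y : Set (Set I)
  F_ctbl : F.Countable
  Y_ctbl : Y.Countable
  emp : ∅ ∈ Y
  sub : ∀ y ∈ Y, y ⊆ F
  cov : ∀ z ∈ F, ∃ y ∈ Y, z ∈ y
  acc : ∀ A ⊆ F, A.Infinite → ∃ z ∈ F, ∀ B : Set (Set I), B.Finite → B ⊆ Y →
    {a ∈ A | ∀ y ∈ B, a ∈ y ↔ z ∈ y}.Infinite

/-- A finite partial colouring with colours `< m` of the set `W`. -/
def IsPC (W : Set I) (m : ℕ) (Φ : Set (I × ℕ)) : Prop :=
  Φ.Finite ∧ (∀ u ∈ Φ, u.1 ∈ W ∧ u.2 < m) ∧ ∀ u ∈ Φ, ∀ v ∈ Φ, u.1 = v.1 → u.2 = v.2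

/-- A finite list of pairs `(y, s)`, with `y ∈ Y` and `s` not containing all colours `< m`. -/
def IsTL (Y : Set (Set I)) (m : ℕ) (L : Set (Set I × Set ℕ)) : Prop :=
  L.Finite ∧ ∀ u ∈ L, u.1 ∈ Y ∧ ∃ j < m, j ∉ u.2

/-- The order on conditions. -/
structure Cond.Le (q p : Cond I) : Prop where
  F_sub : p.F ⊆ q.F
  Y_sub : p.Y ⊆ q.Y
  tr : ∀ y ∈ q.Y, y ∩ p.F ∈ p.Y
  ext : ∀ (m : ℕ) (L : Set (Set I × Set ℕ)) (Φ : Set (I × ℕ)), 0 < m → IsTL p.Y m L →
    IsPC (q.F \ p.F) m Φ → ∃ col : I → ℕ, (∀ z ∈ q.F \ p.F, col z < m) ∧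
      (∀ u ∈ Φ, col u.1 = u.2) ∧ ∀ u ∈ L, u.1 ∪ {z ∈ q.F \ p.F | col z ∈ u.2} ∈ q.Y

theorem Cond.Le.refl (p : Cond I) : Cond.Le p p where
  F_sub := Subset.rfl
  Y_sub := Subset.rfl
  tr := fun y hy => by rwa [inter_eq_left.2 (p.sub y hy)]
  ext := by
    intro m L Φ hm hL hΦ
    refine ⟨fun _ => 0, fun z hz => hm, ?_, ?_⟩
    · intro u hu
      have := (hΦ.2.1 u hu).1
      simp at this
    · intro u hu
      simpa using (hL.2 u hu).1

theorem Cond.Le.trans {p q r : Cond I} (h1 : Cond.Le r q) (h2 : Cond.Le q p) :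
    Cond.Le r p where
  F_sub := h2.F_sub.trans h1.F_sub
  Y_sub := h2.Y_sub.trans h1.Y_sub
  tr := fun y hy => by
    have := h2.tr _ (h1.tr y hy)
    rwa [inter_assoc, inter_eq_right.2 h2.F_sub] at this
  ext := by
    classical
    intro m L Φ hm hL hΦ
    obtain ⟨c1, h11, h12, h13⟩ := h2.ext m L {u ∈ Φ | u.1 ∈ q.F} hm hL
      ⟨hΦ.1.subset (sep_subset _ _), fun u hu => ⟨⟨hu.2, (hΦ.2.1 u hu.1).1.2⟩,
        (hΦ.2.1 u hu.1).2⟩, fun u hu v hv => hΦ.2.2 u hu.1 v hv.1⟩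
    obtain ⟨c2, h21, h22, h23⟩ := h1.ext m
      ((fun u : Set I × Set ℕ => (u.1 ∪ {z ∈ q.F \ p.F | c1 z ∈ u.2}, u.2)) '' L)
      {u ∈ Φ | u.1 ∉ q.F} hm
      ⟨hL.1.image _, by
        rintro _ ⟨u, hu, rfl⟩
        exact ⟨h13 u hu, (hL.2 u hu).2⟩⟩
      ⟨hΦ.1.subset (sep_subset _ _), fun u hu => ⟨⟨(hΦ.2.1 u hu.1).1.1, hu.2⟩,
        (hΦ.2.1 u hu.1).2⟩, fun u hu v hv => hΦ.2.2 u hu.1 v hv.1⟩
    refine ⟨fun z => if z ∈ q.F then c1 z else c2 z, ?_, ?_, ?_⟩
    · rintro z ⟨hz1, hz2⟩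
      by_cases hz : z ∈ q.F
      · simp only [hz, if_true]
        exact h11 z ⟨hz, hz2⟩
      · simp only [hz, if_false]
        exact h21 z ⟨hz1, hz⟩
    · intro u hu
      by_cases hz : u.1 ∈ q.F
      · simp only [hz, if_true]
        exact h12 u ⟨hu, hz⟩
      · simp only [hz, if_false]
        exact h22 u ⟨hu, hz⟩
    · intro u hu
      have := h23 _ (mem_image_of_mem _ hu)
      convert this using 1
      ext z
      simp only [mem_union, mem_ofPred_eq, mem_sdiff]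
      by_cases hz : z ∈ q.F
      · simp only [hz, if_true, true_and, not_true_eq_false, and_false, false_and, or_false,
          h1.F_sub hz]
      · have : z ∉ p.F := fun h => hz (h2.F_sub h)
        simp only [hz, if_false, this, not_false_eq_true, and_true, false_and, or_false]

instance : Preorder (Cond I) where
  le q p := Cond.Le q p
  le_refl := Cond.Le.refl
  le_trans _ _ _ := fun h1 h2 => Cond.Le.trans h1 h2

theorem Cond.le_def {p q : Cond I} : q ≤ p ↔ Cond.Le q p := Iff.rfl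

/-- The trivial condition. -/
def Cond.bot (I : Type) : Cond I where
  F := ∅
  Y := {∅}
  F_ctbl := countable_empty
  Y_ctbl := countable_singleton _
  emp := rfl
  sub := by rintro y rfl; exact Subset.rfl
  cov := by rintro z ⟨⟩
  acc := by
    intro A hA hA'
    rw [subset_empty_iff.1 hA] at hA'
    exact absurd finite_empty hA'

/-- Adding a point. -/
theorem Cond.exists_add (p : Cond I) {ξ : I} (hξ : ξ ∉ p.F) :
    ∃ q ≤ p, q.F = insert ξ p.F := by
  classical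
  refine ⟨⟨insert ξ p.F, p.Y ∪ (fun y => insert ξ y) '' p.Y, p.F_ctbl.insert _,
    p.Y_ctbl.union (p.Y_ctbl.image _), Or.inl p.emp, ?_, ?_, ?_⟩, ⟨subset_insert _ _,
      subset_union_left, ?_, ?_⟩, rfl⟩
  · rintro y (hy | ⟨y, hy, rfl⟩)
    · exact (p.sub y hy).trans (subset_insert _ _)
    · exact insert_subset_insert (p.sub y hy)
  · rintro z (rfl | hz)
    · exact ⟨insert z ∅, Or.inr ⟨∅, p.emp, rfl⟩, mem_insert _ _⟩
    · obtain ⟨y, hy, hzy⟩ := p.cov z hz
      exact ⟨y, Or.inl hy, hzy⟩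
  · intro A hA hinf
    obtain ⟨z, hz, h⟩ := p.acc (A \ {ξ}) (by
      rintro a ⟨ha, hne⟩
      exact (hA ha).resolve_left hne) (hinf.sdiff (finite_singleton _))
    refine ⟨z, mem_insert_of_mem _ hz, fun B hB hBY => ?_⟩
    refine (h ((fun y => y \ {ξ}) '' B) (hB.image _) ?_).mono ?_
    · rintro _ ⟨y, hy, rfl⟩
      rcases hBY hy with h' | ⟨y', hy', rfl⟩
      · have : y \ {ξ} = y := by
          rw [sdiff_eq_left, disjoint_singleton_right]
          exact fun h => hξ (p.sub y h' h)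
        change y \ {ξ} ∈ p.Y
        rwa [this]
      · have : insert ξ y' \ {ξ} = y' := by
          have h3 : ξ ∉ y' := fun h => hξ (p.sub y' hy' h)
          simp [h3]
        change insert ξ y' \ {ξ} ∈ p.Y
        rwa [this]
    · rintro a ⟨⟨ha, hne⟩, h'⟩
      refine ⟨ha, fun y hy => ?_⟩
      have h2 := h' _ (mem_image_of_mem _ hy)
      have hzξ : z ≠ ξ := fun h => hξ (h ▸ hz)
      simpa [show a ≠ ξ from hne, hzξ] using h2
  · rintro y (hy | ⟨y, hy, rfl⟩)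
    · rwa [inter_eq_left.2 (p.sub y hy)]
    · rw [insert_inter_of_notMem hξ, inter_eq_left.2 (p.sub y hy)]
      exact hy
  · intro m L Φ hm hL hΦ
    have hd : insert ξ p.F \ p.F = {ξ} := by
      ext z
      simp only [mem_sdiff, mem_insert_iff, mem_singleton_iff]
      constructor
      · rintro ⟨h | h, h'⟩
        · exact h
        · exact absurd h h'
      · rintro rfl
        exact ⟨Or.inl rfl, hξ⟩
    change IsPC (insert ξ p.F \ p.F) m Φ at hΦ
    change ∃ col : I → ℕ, (∀ z ∈ insert ξ p.F \ p.F, col z < m) ∧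
      (∀ u ∈ Φ, col u.1 = u.2) ∧ ∀ u ∈ L, u.1 ∪ {z ∈ insert ξ p.F \ p.F | col z ∈ u.2} ∈
        p.Y ∪ (fun y => insert ξ y) '' p.Y
    rw [hd] at hΦ ⊢
    obtain ⟨c, hc, hc'⟩ : ∃ c < m, ∀ u ∈ Φ, c = u.2 := by
      rcases Φ.eq_empty_or_nonempty with rfl | ⟨u, hu⟩
      · exact ⟨0, hm, by simp⟩
      · refine ⟨u.2, (hΦ.2.1 u hu).2, fun v hv => hΦ.2.2 u hu v hv ?_⟩
        rw [(hΦ.2.1 u hu).1, (hΦ.2.1 v hv).1]
    refine ⟨fun _ => c, fun _ _ => hc, hc', fun u hu => ?_⟩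
    by_cases h : c ∈ u.2
    · right
      refine ⟨u.1, (hL.2 u hu).1, ?_⟩
      ext z
      simp [h, or_comm]
    · left
      have : u.1 ∪ {z ∈ ({ξ} : Set I) | c ∈ u.2} = u.1 := by
        ext z
        simp [h]
      rw [this]
      exact (hL.2 u hu).1

end Pool.Agent.MP7e7dde
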