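import Pool.Agent.MP_7e7dde_gt.Tool

/-! Countable and finite sets in the Boolean valued models. -/

set_option linter.unusedVariables false
set_option linter.unusedSectionVars false
set_option linter.unreachableTactic false
set_option linter.unusedTactic false

namespace Pool.Agent.MP7e7dde

open BVM BName SetModel MP63050e

variable {B : Type} [CompleteBooleanAlgebra B]

theorem V_iInf_fin {h : Ult B} {ι : Type} [Finite ι] (f : ι → B) :
    h.V (⨅ i, f i) ↔ ∀ i, h.V (f i) := by
  classical
  have key : ∀ s : Finset ι, h.V (⨅ i ∈ s, f i) ↔ ∀ i ∈ s, h.V (f i) := by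
    intro s
    induction s using Finset.induction_on with
    | empty => simp [h.top']
    | insert a s _ ih => rw [Finset.iInf_insert, h.inf', ih, Finset.forall_mem_insert]
  have := Fintype.ofFinite ι
  simpa using key Finset.univ

theorem E_of_coe {ι : Type} {e : ι → BName B} {c : ι → B} {h : Ult B} {i : ι} (hi : h.V (c i)) :
    E h (Mdl.mk h (e i)) (Mdl.mk h (BName.mk ι e c)) :=
  h.mono (coe_le_bmem (BName.mk ι e c) i) hi

section inj

variable (S : ℕ → Prop) (u : ℕ → BName B)

/-- The name of the injection. -/
noncomputable def injN : BName B :=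
  BName.mk {n // S n} (fun n => opair (u n.1) (vN n.1))
    (fun n => ⨅ m : {m : Fin n.1 // S m.1}, (beq (u m.1.1) (u n.1))ᶜ)

theorem injN_coe {h : Ult B} {n : ℕ} : h.V (⨅ m : {m : Fin n // S m.1}, (beq (u m.1.1) (u n))ᶜ) ↔
    ∀ m < n, S m → Mdl.mk h (u m) ≠ Mdl.mk h (u n) := by
  rw [V_iInf_fin]
  constructor
  · intro H m hm hS he
    have := H ⟨⟨m, hm⟩, hS⟩
    rw [h.compl'] at this
    exact this (Mdl.mk_eq.1 he)
  · intro H m
    rw [h.compl', ← Mdl.mk_eq]
    exact H m.1.1 m.1.2 m.2

theorem injN_uniq {h : Ult B} {a a' b b' : Mdl h} (h1 : Has (E h) (Mdl.mk h (injN S u)) [a, b])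
    (h2 : Has (E h) (Mdl.mk h (injN S u)) [a', b']) : a = a' ↔ b = b' := by
  rw [has_iff (by simp)] at h1 h2
  refine forall_mem' (P := fun h p => ∀ p' a b a' b', E h p' (Mdl.mk h (injN S u)) →
    p = pr h a b → p' = pr h a' b' → (a = a' ↔ b = b')) _ _ ?_ ?_ h _ h1 _ a b a' b' h2 rfl rfl
  · repeat' first
      | exact BMap.id
      | apply BMap.fst
      | apply BMap.snd
      | exact BTerm.const _
      | apply bterm_opair
      | apply BTerm.of
      | apply BPred.mem
      | apply BPred.eq
      | apply bp_has2
      | apply bp_has3
      | apply bp_isTuple3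
      | apply bp_eq_pr
      | apply bp_isPair
      | apply bp_isUPair
      | apply bp_isFun
      | apply bp_injects
      | apply BPred.not
      | apply BPred.and
      | apply BPred.or
      | apply BPred.iff
      | apply BPred.imp
      | refine BPred.ex ?_
      | refine BPred.all ?_
      | exact BPred.const _
  · intro h n hn p' a b a' b' hp' hp hp'2
    obtain ⟨rfl, rfl⟩ := pr_inj.1 (show pr h (Mdl.mk h (u n.1)) (Mdl.mk h (vN n.1)) =
        pr h a b from hp)
    refine forall_mem (P := fun h p' => ∀ a' b', p' = pr h a' b' →
        (Mdl.mk h (u n.1) = a' ↔ Mdl.mk h (vN n.1) = b')) _ _ ?_ (clop_V _) ?_ h hn p' hp' a' b'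
        hp'2
    · repeat' first
        | exact BMap.id
        | apply BMap.fst
        | apply BMap.snd
        | exact BTerm.const _
        | apply bterm_opair
        | apply BTerm.of
        | apply BPred.mem
        | apply BPred.eq
        | apply bp_has2
        | apply bp_has3
        | apply bp_isTuple3
        | apply bp_eq_pr
        | apply bp_isPair
        | apply bp_isUPair
        | apply bp_isFun
        | apply bp_injects
        | apply BPred.not
        | apply BPred.and
        | apply BPred.or
        | apply BPred.iff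
        | apply BPred.imp
        | refine BPred.ex ?_
        | refine BPred.all ?_
        | exact BPred.const _
    · intro h hn n' hn' a' b' hp
      obtain ⟨rfl, rfl⟩ := pr_inj.1 (show pr h (Mdl.mk h (u n'.1)) (Mdl.mk h (vN n'.1)) =
        pr h a' b' from hp)
      rw [vN_inj]
      have h1 := (injN_coe S u).1 hn
      have h2 := (injN_coe S u).1 hn'
      constructor
      · intro he
        rcases lt_trichotomy n.1 n'.1 with h3 | h3 | h3
        · exact absurd he (h2 _ h3 n.2)
        · exact h3
        · exact absurd he.symm (h1 _ h3 n'.2)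
      · intro he
        rw [he]

theorem injects_gen (h : Ult B) :
    Injects (E h) (Mdl.mk h (BName.mk {n // S n} (fun n => u n.1) (fun _ => ⊤)))
      (Mdl.mk h (BName.mk {n // S n} (fun n => vN n.1) (fun _ => ⊤))) := by
  refine ⟨Mdl.mk h (injN S u), ⟨?_, ?_⟩, fun a a' b _ _ h1 h2 => (injN_uniq S u h1 h2).2 rfl⟩
  · refine forall_mem' (P := fun h p => ∃ a b,
      E h a (Mdl.mk h (BName.mk {n // S n} (fun n => u n.1) (fun _ => ⊤))) ∧
      E h b (Mdl.mk h (BName.mk {n // S n} (fun n => vN n.1) (fun _ => ⊤))) ∧
      IsPair (E h) p a b) _ _ ?_ ?_ h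
    · repeat' first
        | exact BMap.id
        | apply BMap.fst
        | apply BMap.snd
        | exact BTerm.const _
        | apply bterm_opair
        | apply BTerm.of
        | apply BPred.mem
        | apply BPred.eq
        | apply bp_has2
        | apply bp_has3
        | apply bp_isTuple3
        | apply bp_eq_pr
        | apply bp_isPair
        | apply bp_isUPair
        | apply bp_isFun
        | apply bp_injects
        | apply BPred.not
        | apply BPred.and
        | apply BPred.or
        | apply BPred.iff
        | apply BPred.imp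
        | refine BPred.ex ?_
        | refine BPred.all ?_
        | exact BPred.const _
    · intro h n _
      exact ⟨_, _, E_of_coe (e := fun n : {n // S n} => u n.1) (c := fun _ => ⊤) (i := n) h.top',
        E_of_coe (e := fun n : {n // S n} => vN n.1) (c := fun _ => ⊤) (i := n) h.top',
        isPair_iff.2 rfl⟩
  · refine forall_mem' (P := fun h a => ∃! b, Has (E h) (Mdl.mk h (injN S u)) [a, b]) _ _ ?_ ?_ h
    · unfold ExistsUnique
      repeat' first
        | exact BMap.id
        | apply BMap.fst
        | apply BMap.snd
        | exact BTerm.const _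
        | apply bterm_opair
        | apply BTerm.of
        | apply BPred.mem
        | apply BPred.eq
        | apply bp_has2
        | apply bp_has3
        | apply bp_isTuple3
        | apply bp_eq_pr
        | apply bp_isPair
        | apply bp_isUPair
        | apply bp_isFun
        | apply bp_injects
        | apply BPred.not
        | apply BPred.and
        | apply BPred.or
        | apply BPred.iff
        | apply BPred.imp
        | refine BPred.ex ?_
        | refine BPred.all ?_
        | exact BPred.const _
    · classical
      intro h n _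
      have hex : ∃ m, S m ∧ Mdl.mk h (u m) = Mdl.mk h (u n.1) := ⟨n.1, n.2, rfl⟩
      obtain ⟨hm1, hm2⟩ := Nat.find_spec hex
      have hmin := fun k hk => Nat.find_min hex (m := k) hk
      set m := Nat.find hex
      have hin : Has (E h) (Mdl.mk h (injN S u)) [Mdl.mk h (u n.1), Mdl.mk h (vN m)] := by
        rw [has_iff (by simp), ← hm2]
        refine E_of_coe (e := fun n : {n // S n} => opair (u n.1) (vN n.1)) (i := ⟨m, hm1⟩) ?_
        rw [injN_coe]
        intro k hk hS he
        exact hmin k hk ⟨hS, he.trans hm2⟩
      exact ⟨Mdl.mk h (vN m), hin, fun b hb => (injN_uniq S u hb hin).1 rfl⟩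

end inj

theorem injects_mono {M : Type*} {E : M → M → Prop} {x x' y y' : M} (hx : Sub E x' x)
    (hy : Sub E y y') (h : Injects E x y)
    (hsep : ∀ f, ∃ g, ∀ p, E p g ↔ E p f ∧ ∃ a b, E a x' ∧ IsPair E p a b)
    (hpr : ∀ a b p p', IsPair E p a b → IsPair E p' a b → p = p')
    (hinj : ∀ a b a' b' p, IsPair E p a b → IsPair E p a' b' → a = a') : Injects E x' y' := by
  obtain ⟨f, hf, hf'⟩ := h
  obtain ⟨g, hg⟩ := hsep f
  have hgf : ∀ a b, E a x' → (Has E g [a, b] ↔ Has E f [a, b]) := by
    intro a b ha
    constructor
    · rintro ⟨t, ht, htg⟩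
      exact ⟨t, ht, ((hg t).1 htg).1⟩
    · rintro ⟨t, ht, htf⟩
      obtain ⟨s, hs, hp⟩ := id ht
      have hs : s = b := hs
      subst hs
      exact ⟨t, ht, (hg t).2 ⟨htf, a, s, ha, hp⟩⟩
  refine ⟨g, ⟨fun p hp => ?_, fun a ha => ?_⟩, fun a a' b ha ha' h1 h2 => ?_⟩
  · obtain ⟨hpf, a, b, ha, hab⟩ := (hg p).1 hp
    obtain ⟨a', b', ha', hb', hab'⟩ := hf.1 p hpf
    have haa := hinj _ _ _ _ _ hab hab'
    exact ⟨a', b', haa ▸ ha, hy _ hb', hab'⟩
  · obtain ⟨b, hb, hb'⟩ := hf.2 a (hx a ha)
    exact ⟨b, (hgf a b ha).2 hb, fun b'' hb'' => hb' _ ((hgf a b'' ha).1 hb'')⟩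
  · exact hf' a a' b (hx _ ha) (hx _ ha') ((hgf _ _ ha).1 h1) ((hgf _ _ ha').1 h2)

theorem Injects.mono {h : Ult B} {x x' y y' : Mdl h} (H : Injects (E h) x y)
    (hx : Sub (E h) x' x) (hy : Sub (E h) y y') : Injects (E h) x' y' := by
  refine injects_mono hx hy H ?_ ?_ ?_
  · intro f
    obtain ⟨f, rfl⟩ := f.exists_rep
    obtain ⟨x', rfl⟩ := x'.exists_rep
    obtain ⟨g, hg⟩ := separation_name (H := fun _ : Unit => h)
      (D := fun _ p => ∃ a b, E h a (Mdl.mk h x') ∧ IsPair (E h) p a b) (by
        repeat' first
          | exact BMap.id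
          | apply BMap.fst
          | apply BMap.snd
          | exact BTerm.const _
          | apply bterm_opair
          | apply BTerm.of
          | apply BPred.mem
          | apply BPred.eq
          | apply bp_has2
          | apply bp_has3
          | apply bp_isTuple3
          | apply bp_eq_pr
          | apply bp_isPair
          | apply bp_isUPair
          | apply bp_isFun
          | apply bp_injects
          | apply BPred.not
          | apply BPred.and
          | apply BPred.or
          | apply BPred.iff
          | apply BPred.imp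
          | refine BPred.ex ?_
          | refine BPred.all ?_
          | exact BPred.const _
        ) f
    exact ⟨Mdl.mk h g, fun p => hg () p⟩
  · intro a b p p' hp hp'
    rw [isPair_iff] at hp hp'
    rw [hp, hp']
  · intro a b a' b' p hp hp'
    rw [isPair_iff] at hp hp'
    exact (pr_inj.1 (hp.symm.trans hp')).1

/-- A set enumerated by a sequence of names is countable. -/
theorem isCtbl_seq (u : ℕ → BName B) {h : Ult B} {A : Mdl h}
    (hA : Sub (E h) A (Mdl.mk h (BName.mk ℕ u (fun _ => ⊤)))) :
    IsCtbl (E h) (Mdl.mk h (omN B)) A := by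
  refine Injects.mono (injects_gen (fun _ => True) u h) (fun z hz => ?_) (fun z hz => ?_)
  · refine forall_mem' (P := fun h z => E h z (Mdl.mk h (BName.mk {n : ℕ // True}
      (fun n => u n.1) (fun _ => ⊤)))) _ _ ?_ ?_ h z (hA z hz)
    · repeat' first
        | exact BMap.id
        | apply BMap.fst
        | apply BMap.snd
        | exact BTerm.const _
        | apply bterm_opair
        | apply BTerm.of
        | apply BPred.mem
        | apply BPred.eq
        | apply bp_has2
        | apply bp_has3
        | apply bp_isTuple3
        | apply bp_eq_pr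
        | apply bp_isPair
        | apply bp_isUPair
        | apply bp_isFun
        | apply bp_injects
        | apply BPred.not
        | apply BPred.and
        | apply BPred.or
        | apply BPred.iff
        | apply BPred.imp
        | refine BPred.ex ?_
        | refine BPred.all ?_
        | exact BPred.const _
    · intro h n _
      exact E_of_coe (e := fun n : {n : ℕ // True} => u n.1) (i := ⟨n, trivial⟩) h.top'
  · refine forall_mem' (P := fun h z => E h z (Mdl.mk h (omN B))) _ _ ?_ ?_ h z hz
    · repeat' first
        | exact BMap.id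
        | apply BMap.fst
        | apply BMap.snd
        | exact BTerm.const _
        | apply bterm_opair
        | apply BTerm.of
        | apply BPred.mem
        | apply BPred.eq
        | apply bp_has2
        | apply bp_has3
        | apply bp_isTuple3
        | apply bp_eq_pr
        | apply bp_isPair
        | apply bp_isUPair
        | apply bp_isFun
        | apply bp_injects
        | apply BPred.not
        | apply BPred.and
        | apply BPred.or
        | apply BPred.iff
        | apply BPred.imp
        | refine BPred.ex ?_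
        | refine BPred.all ?_
        | exact BPred.const _
    · intro h n _
      exact E_vN_vNset _

/-- A set enumerated by a finite sequence of names is finite. -/
theorem isFin_seq (u : ℕ → BName B) (n : ℕ) {h : Ult B} {A : Mdl h}
    (hA : Sub (E h) A (Mdl.mk h (BName.mk {m // m < n} (fun m => u m.1) (fun _ => ⊤)))) :
    IsFin (E h) (Mdl.mk h (omN B)) A := by
  refine ⟨Mdl.mk h (vN n), E_vN_vNset n, ?_⟩
  rw [vN_eq]
  exact Injects.mono (injects_gen (fun m => m < n) u h) hA (fun z hz => hz)

/-- A finite set is countable. -/
theorem IsFin.isCtbl {h : Ult B} {A : Mdl h} (hA : IsFin (E h) (Mdl.mk h (omN B)) A) :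
    IsCtbl (E h) (Mdl.mk h (omN B)) A := by
  obtain ⟨n, hn, hinj⟩ := hA
  exact Injects.mono hinj (fun z hz => hz) (fun z hz => (isOmega h).1.1 n z hn hz)

end Pool.Agent.MP7e7dde
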