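import Pool.Agent.MP_7e7dde_gt.Ctbl

/-! Deciding countable and finite sets with a countably closed forcing. -/

set_option linter.unusedVariables false
set_option linter.unusedSectionVars false
set_option linter.unreachableTactic false
set_option linter.unusedTactic false

namespace Pool.Agent.MP7e7dde

open BVM BName SetModel MP63050e

variable {B : Type} [CompleteBooleanAlgebra B] {P : Type} [Preorder P]

/-- Countably closed preorders. -/
def SC (P : Type) [Preorder P] : Prop :=
  ∀ p : ℕ → P, (∀ n, p (n + 1) ≤ p n) → ∃ q, ∀ n, q ≤ p n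

theorem SC.all (hP : SC P) {D : ℕ → P → Prop} (hD : ∀ n p q, q ≤ p → D n p → D n q) (p : P)
    (H : ∀ n, ∀ q, q ≤ p → ∃ r, r ≤ q ∧ D n r) : ∃ q, q ≤ p ∧ ∀ n, D n q := by
  choose! r hr1 hr2 using H
  let s : ℕ → P := fun n => Nat.rec p (fun n q => r n q) n
  have hs : ∀ n, s n ≤ p := by
    intro n
    induction n with
    | zero => exact le_rfl
    | succ n ih => exact (hr1 n _ ih).trans ih
  obtain ⟨q, hq⟩ := hP s (fun n => hr1 n _ (hs n))
  exact ⟨q, hq 0, fun n => hD n _ _ (hq (n + 1)) (hr2 n _ (hs n))⟩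

theorem SC.all' (hP : SC P) {κ : Type*} [Countable κ] {D : κ → P → Prop}
    (hD : ∀ n p q, q ≤ p → D n p → D n q) (p : P)
    (H : ∀ n, ∀ q, q ≤ p → ∃ r, r ≤ q ∧ D n r) : ∃ q, q ≤ p ∧ ∀ n, D n q := by
  rcases isEmpty_or_nonempty κ with hκ | hκ
  · exact ⟨p, le_rfl, fun n => hκ.elim n⟩
  · obtain ⟨f, hf⟩ := exists_surjective_nat κ
    obtain ⟨q, hq, h⟩ := hP.all (D := fun n => D (f n)) (fun n => hD (f n)) p (fun n => H (f n))
    refine ⟨q, hq, fun n => ?_⟩
    obtain ⟨m, rfl⟩ := hf n
    exact h m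

variable {em : P → B}

theorem enum_dec (hem : DenseEmb em) (hP : SC P) {ι : Type} (e : ι → BName B) (c : ι → B)
    {R : ℕ → (h : Ult B) → Mdl h → Prop}
    (hR : ∀ n, BPred (fun h : Ult B => h) (fun h (x : BName B) => R n h (Mdl.mk h x))) (p : P) :
    ∃ q, q ≤ p ∧ ∃ s : ℕ → Option ι, ∀ n,
      (s n = none → Fo em q (fun h => ¬ ∃ z, E h z (Mdl.mk h (BName.mk ι e c)) ∧ R n h z)) ∧
      ∀ i, s n = some i → Fo em q (fun h => h.V (c i) ∧ R n h (Mdl.mk h (e i))) := by
  have hcl : ∀ n, Clop (fun h : Ult B => ∃ z, E h z (Mdl.mk h (BName.mk ι e c)) ∧ R n h z) := by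
    intro n
    refine BPred.clop (P := fun h (_ : PUnit.{1}) => ∃ z, E h z (Mdl.mk h (BName.mk ι e c)) ∧
      R n h z) (BPred.ex (BPred.and ?_ ?_)) PUnit.unit
    · exact BPred.mem BTerm.snd (BTerm.const _)
    · exact (hR n).comp (f := fun p : PUnit.{1} × BName B => p.2) (fun _ _ => inf_le_right)
  obtain ⟨q, hq, h⟩ := hP.all (D := fun n q =>
      Fo em q (fun h => ¬ ∃ z, E h z (Mdl.mk h (BName.mk ι e c)) ∧ R n h z) ∨
      ∃ i, Fo em q (fun h => h.V (c i) ∧ R n h (Mdl.mk h (e i)))) (by
    rintro n p q hqp (h | ⟨i, h⟩)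
    · exact Or.inl (h.mono hem hqp)
    · exact Or.inr ⟨i, h.mono hem hqp⟩) p (by
    intro n q hq
    obtain ⟨r, hrq, h | h⟩ := decide_fo hem (hcl n) q
    · obtain ⟨r', hr', i, hi⟩ := decide_mem hem e c (hR n) h
      exact ⟨r', hr'.trans hrq, Or.inr ⟨i, hi⟩⟩
    · exact ⟨r, hrq, Or.inl h⟩)
  have : ∀ n, ∃ s : Option ι,
      (s = none → Fo em q (fun h => ¬ ∃ z, E h z (Mdl.mk h (BName.mk ι e c)) ∧ R n h z)) ∧
      ∀ i, s = some i → Fo em q (fun h => h.V (c i) ∧ R n h (Mdl.mk h (e i))) := by
    intro n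
    rcases h n with h | ⟨i, h⟩
    · exact ⟨none, fun _ => h, fun i hi => by simp at hi⟩
    · refine ⟨some i, fun hi => by simp at hi, fun j hj => ?_⟩
      obtain rfl := Option.some.inj hj
      exact h
  choose s hs using this
  exact ⟨q, hq, s, hs⟩

/-- The elements of a function value. -/
theorem isFun_has {h : Ult B} {f x y a b : Mdl h} (hf : IsFun (E h) f x y)
    (hab : Has (E h) f [a, b]) : E h a x ∧ E h b y := by
  rw [has_iff (by simp)] at hab
  obtain ⟨a', b', ha, hb, hp⟩ := hf.1 _ hab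
  rw [isPair_iff] at hp
  obtain ⟨rfl, rfl⟩ := pr_inj.1 (show pr h a b = pr h a' b' from hp)
  exact ⟨ha, hb⟩

/-- Common part of `ctbl_dec` and `fin_dec`. -/
theorem inj_dec (hem : DenseEmb em) (hP : SC P) {ι : Type} (e : ι → BName B) (c : ι → B)
    (A : BName B) (N : ℕ → Prop) {p : P}
    (H : Fo em p (fun h => Injects (E h) (Mdl.mk h A)
      (Mdl.mk h (BName.mk {n // N n} (fun n => vN n.1) (fun _ => ⊤))) ∧
      Sub (E h) (Mdl.mk h A) (Mdl.mk h (BName.mk ι e c)))) :
    ∃ q, q ≤ p ∧ ∃ s : ℕ → Option ι, (∀ n i, s n = some i →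
      Fo em q (fun h => h.V (c i) ∧ E h (Mdl.mk h (e i)) (Mdl.mk h A))) ∧
      Fo em q (fun h => Sub (E h) (Mdl.mk h A) (Mdl.mk h
        (BName.mk {i // ∃ n, N n ∧ s n = some i} (fun i => e i.1) (fun _ => ⊤)))) := by
  set T : BName B := BName.mk {n // N n} (fun n => vN n.1) (fun _ => ⊤) with hT
  obtain ⟨f, hf⟩ := exists_wit (P := fun h f => IsFun (E h) f (Mdl.mk h A) (Mdl.mk h T) ∧
    ∀ a a' b, E h a (Mdl.mk h A) → E h a' (Mdl.mk h A) → Has (E h) f [a, b] →
      Has (E h) f [a', b] → a = a') (by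
    repeat' first
      | exact BMap.id
      | apply BMap.fst
      | apply BMap.snd
      | exact BTerm.const _
      | apply bterm_opair
      | apply BTerm.of
      | apply BPred.mem
      | apply BPred.eq
      | apply bp_has2
      | apply bp_has3
      | apply bp_isTuple3
      | apply bp_eq_pr
      | apply bp_isPair
      | apply bp_isUPair
      | apply bp_isFun
      | apply bp_injects
      | apply BPred.not
      | apply BPred.and
      | apply BPred.or
      | apply BPred.iff
      | apply BPred.imp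
      | refine BPred.ex ?_
      | refine BPred.all ?_
      | exact BPred.const _
    ) (Q := fun h => h.V (em p)) (fun h hh => (H h hh).1)
  obtain ⟨q, hqp, s, hs⟩ := enum_dec hem hP e c (R := fun n h z =>
    E h z (Mdl.mk h A) ∧ Has (E h) (Mdl.mk h f) [z, Mdl.mk h (vN n)]) (by
      intro n
      repeat' first
        | exact BMap.id
        | apply BMap.fst
        | apply BMap.snd
        | exact BTerm.const _
        | apply bterm_opair
        | apply BTerm.of
        | apply BPred.mem
        | apply BPred.eq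
        | apply bp_has2
        | apply bp_has3
        | apply bp_isTuple3
        | apply bp_eq_pr
        | apply bp_isPair
        | apply bp_isUPair
        | apply bp_isFun
        | apply bp_injects
        | apply BPred.not
        | apply BPred.and
        | apply BPred.or
        | apply BPred.iff
        | apply BPred.imp
        | refine BPred.ex ?_
        | refine BPred.all ?_
        | exact BPred.const _
      ) p
  refine ⟨q, hqp, s, fun n i hi => ((hs n).2 i hi).imp fun h hh => ⟨hh.1, hh.2.1⟩, ?_⟩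
  intro h hh z hz
  have hhp := h.mono (hem.mono _ _ hqp) hh
  obtain ⟨hfun, hinj⟩ := hf h hhp
  obtain ⟨k, hk, -⟩ := hfun.2 z hz
  have hkT := (isFun_has hfun hk).2
  refine forall_mem (P := fun h k => ∀ z, E h z (Mdl.mk h A) → Has (E h) (Mdl.mk h f) [z, k] →
    E h z (Mdl.mk h (BName.mk {i // ∃ n, N n ∧ s n = some i} (fun i => e i.1) (fun _ => ⊤))))
    _ _ ?_ (clop_V (em q)) ?_ h hh k hkT z hz hk
  · repeat' first
      | exact BMap.id
      | apply BMap.fst
      | apply BMap.snd
      | exact BTerm.const _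
      | apply bterm_opair
      | apply BTerm.of
      | apply BPred.mem
      | apply BPred.eq
      | apply bp_has2
      | apply bp_has3
      | apply bp_isTuple3
      | apply bp_eq_pr
      | apply bp_isPair
      | apply bp_isUPair
      | apply bp_isFun
      | apply bp_injects
      | apply BPred.not
      | apply BPred.and
      | apply BPred.or
      | apply BPred.iff
      | apply BPred.imp
      | refine BPred.ex ?_
      | refine BPred.all ?_
      | exact BPred.const _
  · intro h hh n _ z hz hk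
    have hhp := h.mono (hem.mono _ _ hqp) hh
    cases hsn : s n.1 with
    | none => exact absurd ⟨z, (H h hhp).2 z hz, hz, hk⟩ ((hs n.1).1 hsn h hh)
    | some i =>
      obtain ⟨h1, h2, h3⟩ := (hs n.1).2 i hsn h hh
      have := (hf h hhp).2 _ _ _ hz h2 hk h3
      rw [this]
      exact E_of_coe (e := fun i : {i // ∃ n, N n ∧ s n = some i} => e i.1)
        (i := ⟨i, n.1, n.2, hsn⟩) h.top'

/-- Countable sets are covered by ground model countable sets. -/
theorem ctbl_dec (hem : DenseEmb em) (hP : SC P) {ι : Type} (e : ι → BName B) (c : ι → B)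
    (A : BName B) {p : P}
    (H : Fo em p (fun h => IsCtbl (E h) (Mdl.mk h (omN B)) (Mdl.mk h A) ∧
      Sub (E h) (Mdl.mk h A) (Mdl.mk h (BName.mk ι e c)))) :
    ∃ q, q ≤ p ∧ ∃ S : Set ι, S.Countable ∧ (∀ i ∈ S,
      Fo em q (fun h => h.V (c i) ∧ E h (Mdl.mk h (e i)) (Mdl.mk h A))) ∧
      Fo em q (fun h => Sub (E h) (Mdl.mk h A) (Mdl.mk h
        (BName.mk S (fun i => e i.1) (fun _ => ⊤)))) := by
  have hsub : ∀ (h : Ult B) z, E h z (Mdl.mk h (omN B)) → E h z (Mdl.mk h
      (BName.mk {n : ℕ // True} (fun n => vN n.1) (fun _ => ⊤))) := by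
    intro h z hz
    refine forall_mem' (P := fun h z => E h z (Mdl.mk h (BName.mk {n : ℕ // True}
      (fun n => vN n.1) (fun _ => ⊤)))) _ _ ?_ ?_ h z hz
    · repeat' first
        | exact BMap.id
        | apply BMap.fst
        | apply BMap.snd
        | exact BTerm.const _
        | apply bterm_opair
        | apply BTerm.of
        | apply BPred.mem
        | apply BPred.eq
        | apply bp_has2
        | apply bp_has3
        | apply bp_isTuple3
        | apply bp_eq_pr
        | apply bp_isPair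
        | apply bp_isUPair
        | apply bp_isFun
        | apply bp_injects
        | apply BPred.not
        | apply BPred.and
        | apply BPred.or
        | apply BPred.iff
        | apply BPred.imp
        | refine BPred.ex ?_
        | refine BPred.all ?_
        | exact BPred.const _
    · intro h n _
      exact E_of_coe (e := fun n : {n : ℕ // True} => vN n.1) (i := ⟨n, trivial⟩) h.top'
  obtain ⟨q, hqp, s, hs, hs'⟩ := inj_dec hem hP e c A (fun _ => True) (H.imp fun h hh =>
    ⟨Injects.mono hh.1 (fun z hz => hz) (hsub h), hh.2⟩)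
  refine ⟨q, hqp, {i | ∃ n, True ∧ s n = some i}, ?_, ?_, hs'⟩
  · have : {i | ∃ n, True ∧ s n = some i} ⊆ ⋃ n, {i | s n = some i} := by
      rintro i ⟨n, -, hn⟩
      exact Set.mem_iUnion.2 ⟨n, hn⟩
    refine (Set.countable_iUnion fun n => ?_).mono this
    refine Set.Subsingleton.countable fun i hi j hj => ?_
    exact Option.some.inj ((show s n = some i from hi).symm.trans hj)
  · rintro i ⟨n, -, hn⟩
    exact hs n i hn

/-- Finite sets are covered by ground model finite sets. -/
theorem fin_dec (hem : DenseEmb em) (hP : SC P) {ι : Type} (e : ι → BName B) (c : ι → B)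
    (A : BName B) {p : P}
    (H : Fo em p (fun h => IsFin (E h) (Mdl.mk h (omN B)) (Mdl.mk h A) ∧
      Sub (E h) (Mdl.mk h A) (Mdl.mk h (BName.mk ι e c)))) :
    ∃ q, q ≤ p ∧ ∃ S : Set ι, S.Finite ∧ (∀ i ∈ S,
      Fo em q (fun h => h.V (c i) ∧ E h (Mdl.mk h (e i)) (Mdl.mk h A))) ∧
      Fo em q (fun h => Sub (E h) (Mdl.mk h A) (Mdl.mk h
        (BName.mk S (fun i => e i.1) (fun _ => ⊤)))) := by
  obtain ⟨p', hp', N, hN⟩ := decide_mem hem (ι := ℕ) vN (fun _ => ⊤)
    (Q := fun h n => Injects (E h) (Mdl.mk h A) n) (bp_injects (BTerm.const _) BTerm.id)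
    (H.imp fun h hh => hh.1)
  obtain ⟨q, hqp, s, hs, hs'⟩ := inj_dec hem hP e c A (fun n => n < N) (p := p') (fun h hh =>
    ⟨by
      have := (hN h hh).2
      rwa [vN_eq] at this, (H h (h.mono (hem.mono _ _ hp') hh)).2⟩)
  refine ⟨q, hqp.trans hp', {i | ∃ n, n < N ∧ s n = some i}, ?_, ?_, hs'⟩
  · have : {i | ∃ n, n < N ∧ s n = some i} ⊆ ⋃ n ∈ {n | n < N}, {i | s n = some i} := by
      rintro i ⟨n, hn, hn'⟩
      exact Set.mem_iUnion₂.2 ⟨n, hn, hn'⟩
    refine ((Set.finite_lt_nat N).biUnion fun n _ => ?_).subset this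
    refine Set.Subsingleton.finite fun i hi j hj => ?_
    exact Option.some.inj ((show s n = some i from hi).symm.trans hj)
  · rintro i ⟨n, -, hn⟩
    exact hs n i hn

end Pool.Agent.MP7e7dde
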