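import Pool.Agent.MP_7e7dde_gt.Names

/-! The Boolean valued subspaces of `2^I` are Tychonoff. -/

set_option linter.unusedVariables false
set_option linter.unusedSectionVars false
set_option linter.unreachableTactic false
set_option linter.unusedTactic false

namespace Pool.Agent.MP7e7dde

open BVM BName SetModel MP63050e

variable {B : Type} [CompleteBooleanAlgebra B]

open Classical in
/-- The name of the characteristic function of a basic clopen set. -/
noncomputable def chN {I : Type} (c : Set I → B) (k : KK I) : BName B :=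
  BName.mk (Set I) (fun y => opair (nm y) (nm (if inK k y then (1 : ℝ) else 0))) c

open Classical in
theorem has_chN {I : Type} (c : Set I → B) (k : KK I) (h : Ult B) (y : Set I) (r : Mdl h) :
    Has (E h) (Mdl.mk h (chN c k)) [Mdl.mk h (nm y), r] ↔
      h.V (c y) ∧ r = Mdl.mk h (nm (if inK k y then (1 : ℝ) else 0)) := by
  obtain ⟨r, rfl⟩ := r.exists_rep
  rw [has_iff (by simp)]
  change h.V (bmem (opair (nm y) r) (chN c k)) ↔ _
  have key : bmem (opair (nm y) r) (chN c k) =
      c y ⊓ beq r (nm (if inK k y then (1 : ℝ) else 0)) := by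
    rw [chN, bmem_mk]
    apply le_antisymm
    · refine iSup_le fun y' => ?_
      rw [beq_opair]
      by_cases hy : y = y'
      · subst hy
        exact inf_le_inf_left _ inf_le_right
      · rw [nm_ne hy, bot_inf_eq, inf_bot_eq]
        exact bot_le
    · refine le_iSup_of_le y ?_
      rw [beq_opair, beq_refl, top_inf_eq]
  rw [key, h.inf', Mdl.mk_eq]

theorem isFun_chN {I : Type} (c : Set I → B) (k : KK I) (h : Ult B) :
    IsFun (E h) (Mdl.mk h (chN c k)) (Mdl.mk h (chk c)) (Mdl.mk h (RN B)) := by
  refine ⟨?_, ?_⟩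
  · refine forall_mem' (P := fun h p => ∃ a b, E h a (Mdl.mk h (chk c)) ∧
      E h b (Mdl.mk h (RN B)) ∧ IsPair (E h) p a b) _ _ ?_ ?_ h
    · repeat' first
        | exact BMap.id
        | apply BMap.fst
        | apply BMap.snd
        | exact BTerm.const _
        | apply bterm_opair
        | apply BTerm.of
        | apply BPred.mem
        | apply BPred.eq
        | apply bp_has2
        | apply bp_has3
        | apply bp_isTuple3
        | apply bp_eq_pr
        | apply bp_isPair
        | apply bp_isUPair
        | apply bp_isFun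
        | apply bp_injects
        | apply BPred.not
        | apply BPred.and
        | apply BPred.or
        | apply BPred.iff
        | apply BPred.imp
        | refine BPred.ex ?_
        | refine BPred.all ?_
        | exact BPred.const _
    · intro h y hy
      exact ⟨_, _, E_chk.2 hy, E_RN _, isPair_iff.2 rfl⟩
  · refine forall_chk (P := fun h a => ∃! b, Has (E h) (Mdl.mk h (chN c k)) [a, b]) c ?_
      clop_true ?_ h trivial
    · unfold ExistsUnique
      repeat' first
        | exact BMap.id
        | apply BMap.fst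
        | apply BMap.snd
        | exact BTerm.const _
        | apply bterm_opair
        | apply BTerm.of
        | apply BPred.mem
        | apply BPred.eq
        | apply bp_has2
        | apply bp_has3
        | apply bp_isTuple3
        | apply bp_eq_pr
        | apply bp_isPair
        | apply bp_isUPair
        | apply bp_isFun
        | apply bp_injects
        | apply BPred.not
        | apply BPred.and
        | apply BPred.or
        | apply BPred.iff
        | apply BPred.imp
        | refine BPred.ex ?_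
        | refine BPred.all ?_
        | exact BPred.const _
    · intro h _ y hy
      exact ⟨_, (has_chN c k h y _).2 ⟨hy, rfl⟩, fun b hb => ((has_chN c k h y b).1 hb).2⟩

/-- The values of the characteristic function are locally constant. -/
theorem chN_loc {I : Type} (c : Set I → B) (k : KK I) (h : Ult B) :
    ∀ x, E h x (Mdl.mk h (chk c)) → ∀ r, Has (E h) (Mdl.mk h (chN c k)) [x, r] →
      ∃ k', E h k' (Mdl.mk h (KN B I)) ∧ Has (E h) (Mdl.mk h (IN B I)) [k', x] ∧
        ∀ x', E h x' (Mdl.mk h (chk c)) → Has (E h) (Mdl.mk h (IN B I)) [k', x'] →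
          Has (E h) (Mdl.mk h (chN c k)) [x', r] := by
  classical
  refine forall_chk (P := fun h x => ∀ r, Has (E h) (Mdl.mk h (chN c k)) [x, r] →
      ∃ k', E h k' (Mdl.mk h (KN B I)) ∧ Has (E h) (Mdl.mk h (IN B I)) [k', x] ∧
        ∀ x', E h x' (Mdl.mk h (chk c)) → Has (E h) (Mdl.mk h (IN B I)) [k', x'] →
          Has (E h) (Mdl.mk h (chN c k)) [x', r]) c ?_ clop_true ?_ h trivial
  · repeat' first
      | exact BMap.id
      | apply BMap.fst
      | apply BMap.snd
      | exact BTerm.const _
      | apply bterm_opair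
      | apply BTerm.of
      | apply BPred.mem
      | apply BPred.eq
      | apply bp_has2
      | apply bp_has3
      | apply bp_isTuple3
      | apply bp_eq_pr
      | apply bp_isPair
      | apply bp_isUPair
      | apply bp_isFun
      | apply bp_injects
      | apply BPred.not
      | apply BPred.and
      | apply BPred.or
      | apply BPred.iff
      | apply BPred.imp
      | refine BPred.ex ?_
      | refine BPred.all ?_
      | exact BPred.const _
  · intro h _ y hy r hr
    rw [has_chN] at hr
    obtain ⟨-, rfl⟩ := hr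
    have hk : ∃ k', inK k' y ∧ ∀ y', inK k' y' → (inK k y' ↔ inK k y) := by
      by_cases h0 : inK k y
      · exact ⟨k, h0, fun y' hy' => ⟨fun _ => h0, fun _ => hy'⟩⟩
      · obtain ⟨k', h1, h2⟩ := inK_compl h0
        exact ⟨k', h1, fun y' hy' => ⟨fun h3 => absurd h3 (h2 y' hy'), fun h3 => absurd h3 h0⟩⟩
    obtain ⟨k', hk1, hk2⟩ := hk
    refine ⟨Mdl.mk h (nm k'), E_KN k', (has_IN k' y).2 hk1, ?_⟩
    refine forall_chk (P := fun h x' => Has (E h) (Mdl.mk h (IN B I)) [Mdl.mk h (nm k'), x'] →
      Has (E h) (Mdl.mk h (chN c k)) [x', Mdl.mk h (nm (if inK k y then (1 : ℝ) else 0))]) c ?_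
      clop_true ?_ h trivial
    · repeat' first
        | exact BMap.id
        | apply BMap.fst
        | apply BMap.snd
        | exact BTerm.const _
        | apply bterm_opair
        | apply BTerm.of
        | apply BPred.mem
        | apply BPred.eq
        | apply bp_has2
        | apply bp_has3
        | apply bp_isTuple3
        | apply bp_eq_pr
        | apply bp_isPair
        | apply bp_isUPair
        | apply bp_isFun
        | apply bp_injects
        | apply BPred.not
        | apply BPred.and
        | apply BPred.or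
        | apply BPred.iff
        | apply BPred.imp
        | refine BPred.ex ?_
        | refine BPred.all ?_
        | exact BPred.const _
    · intro h _ y' hy' hin
      rw [has_IN] at hin
      rw [has_chN]
      refine ⟨hy', ?_⟩
      have := hk2 y' hin
      simp only [this]

/-- A subset of the space with a given definition. -/
theorem exists_U {h : Ult B} {I : Type} (c : Set I → B) {D : Mdl h → Prop}
    (hD : BPred (fun _ : Unit => h) (fun _ (x : BName B) => D (Mdl.mk h x)))
    (hop : ∀ x, E h x (Mdl.mk h (chk c)) → D x → ∃ k, E h k (Mdl.mk h (KN B I)) ∧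
      Has (E h) (Mdl.mk h (IN B I)) [k, x] ∧ ∀ x', E h x' (Mdl.mk h (chk c)) →
        Has (E h) (Mdl.mk h (IN B I)) [k, x'] → D x') :
    ∃ U, E h U (Mdl.mk h (TN c)) ∧ ∀ z, E h z U ↔ E h z (Mdl.mk h (chk c)) ∧ D z := by
  obtain ⟨U, hU⟩ := separation_name (H := fun _ : Unit => h) (D := fun _ z => D z) hD (chk c)
  have hU' : ∀ z, E h z (Mdl.mk h U) ↔ E h z (Mdl.mk h (chk c)) ∧ D z := hU ()
  refine ⟨Mdl.mk h U, ?_, hU'⟩
  rw [E_TN]
  refine ⟨fun z hz => ((hU' z).1 hz).1, fun x hx => ?_⟩
  obtain ⟨h1, h2⟩ := (hU' x).1 hx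
  obtain ⟨k, hk1, hk2, hk3⟩ := hop x h1 h2
  exact ⟨k, hk1, hk2, fun x' hx' hin => (hU' x').2 ⟨hx', hk3 x' hx' hin⟩⟩

theorem isCR_chN {I : Type} (c : Set I → B) (k : KK I) (h : Ult B) :
    IsCR (E h) (Mdl.mk h (RN B)) (Mdl.mk h (LN B)) (Mdl.mk h (chk c)) (Mdl.mk h (TN c))
      (Mdl.mk h (chN c k)) := by
  refine ⟨isFun_chN c k h, fun x r a b hxr _ _ har hrb => ?_⟩
  have hx := (isFun_has (isFun_chN c k h) hxr).1
  obtain ⟨r, rfl⟩ := r.exists_rep
  obtain ⟨U, hU1, hU2⟩ := exists_U c
    (D := fun z => Has (E h) (Mdl.mk h (chN c k)) [z, Mdl.mk h r]) (by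
      repeat' first
        | exact BMap.id
        | apply BMap.fst
        | apply BMap.snd
        | exact BTerm.const _
        | apply bterm_opair
        | apply BTerm.of
        | apply BPred.mem
        | apply BPred.eq
        | apply bp_has2
        | apply bp_has3
        | apply bp_isTuple3
        | apply bp_eq_pr
        | apply bp_isPair
        | apply bp_isUPair
        | apply bp_isFun
        | apply bp_injects
        | apply BPred.not
        | apply BPred.and
        | apply BPred.or
        | apply BPred.iff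
        | apply BPred.imp
        | refine BPred.ex ?_
        | refine BPred.all ?_
        | exact BPred.const _
      ) (fun x hx hD => chN_loc c k h x hx _ hD)
  refine ⟨U, hU1, (hU2 x).2 ⟨hx, hxr⟩, fun x' r' hx' hr' => ?_⟩
  obtain ⟨h1, h2⟩ := (hU2 x').1 hx'
  obtain ⟨v, -, hv⟩ := (isFun_chN c k h).2 x' h1
  have he : r' = Mdl.mk h r := (hv _ hr').trans (hv _ h2).symm
  rw [he]
  exact ⟨har, hrb⟩

theorem inter_K {I : Type} (c : Set I → B) (h : Ult B) : ∀ k, E h k (Mdl.mk h (KN B I)) →
    ∀ k', E h k' (Mdl.mk h (KN B I)) → ∀ x, E h x (Mdl.mk h (chk c)) →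
    Has (E h) (Mdl.mk h (IN B I)) [k, x] → Has (E h) (Mdl.mk h (IN B I)) [k', x] →
    ∃ k'', E h k'' (Mdl.mk h (KN B I)) ∧ Has (E h) (Mdl.mk h (IN B I)) [k'', x] ∧
      ∀ x', E h x' (Mdl.mk h (chk c)) → Has (E h) (Mdl.mk h (IN B I)) [k'', x'] →
        Has (E h) (Mdl.mk h (IN B I)) [k, x'] ∧ Has (E h) (Mdl.mk h (IN B I)) [k', x'] := by
  refine forall_chk (P := fun h k =>
    ∀ k', E h k' (Mdl.mk h (KN B I)) → ∀ x, E h x (Mdl.mk h (chk c)) →
    Has (E h) (Mdl.mk h (IN B I)) [k, x] → Has (E h) (Mdl.mk h (IN B I)) [k', x] →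
    ∃ k'', E h k'' (Mdl.mk h (KN B I)) ∧ Has (E h) (Mdl.mk h (IN B I)) [k'', x] ∧
      ∀ x', E h x' (Mdl.mk h (chk c)) → Has (E h) (Mdl.mk h (IN B I)) [k'', x'] →
        Has (E h) (Mdl.mk h (IN B I)) [k, x'] ∧ Has (E h) (Mdl.mk h (IN B I)) [k', x'])
    (fun _ : KK I => (⊤ : B)) ?_ clop_true ?_ h trivial
  · repeat' first
      | exact BMap.id
      | apply BMap.fst
      | apply BMap.snd
      | exact BTerm.const _
      | apply bterm_opair
      | apply BTerm.of
      | apply BPred.mem
      | apply BPred.eq
      | apply bp_has2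
      | apply bp_has3
      | apply bp_isTuple3
      | apply bp_eq_pr
      | apply bp_isPair
      | apply bp_isUPair
      | apply bp_isFun
      | apply bp_injects
      | apply BPred.not
      | apply BPred.and
      | apply BPred.or
      | apply BPred.iff
      | apply BPred.imp
      | refine BPred.ex ?_
      | refine BPred.all ?_
      | exact BPred.const _
  intro h _ k _
  refine forall_chk (P := fun h k' => ∀ x, E h x (Mdl.mk h (chk c)) →
    Has (E h) (Mdl.mk h (IN B I)) [Mdl.mk h (nm k), x] →
    Has (E h) (Mdl.mk h (IN B I)) [k', x] →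
    ∃ k'', E h k'' (Mdl.mk h (KN B I)) ∧ Has (E h) (Mdl.mk h (IN B I)) [k'', x] ∧
      ∀ x', E h x' (Mdl.mk h (chk c)) → Has (E h) (Mdl.mk h (IN B I)) [k'', x'] →
        Has (E h) (Mdl.mk h (IN B I)) [Mdl.mk h (nm k), x'] ∧
        Has (E h) (Mdl.mk h (IN B I)) [k', x'])
    (fun _ : KK I => (⊤ : B)) ?_ clop_true ?_ h trivial
  · repeat' first
      | exact BMap.id
      | apply BMap.fst
      | apply BMap.snd
      | exact BTerm.const _
      | apply bterm_opair
      | apply BTerm.of
      | apply BPred.mem
      | apply BPred.eq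
      | apply bp_has2
      | apply bp_has3
      | apply bp_isTuple3
      | apply bp_eq_pr
      | apply bp_isPair
      | apply bp_isUPair
      | apply bp_isFun
      | apply bp_injects
      | apply BPred.not
      | apply BPred.and
      | apply BPred.or
      | apply BPred.iff
      | apply BPred.imp
      | refine BPred.ex ?_
      | refine BPred.all ?_
      | exact BPred.const _
  intro h _ k' _
  refine forall_chk (P := fun h x =>
    Has (E h) (Mdl.mk h (IN B I)) [Mdl.mk h (nm k), x] →
    Has (E h) (Mdl.mk h (IN B I)) [Mdl.mk h (nm k'), x] →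
    ∃ k'', E h k'' (Mdl.mk h (KN B I)) ∧ Has (E h) (Mdl.mk h (IN B I)) [k'', x] ∧
      ∀ x', E h x' (Mdl.mk h (chk c)) → Has (E h) (Mdl.mk h (IN B I)) [k'', x'] →
        Has (E h) (Mdl.mk h (IN B I)) [Mdl.mk h (nm k), x'] ∧
        Has (E h) (Mdl.mk h (IN B I)) [Mdl.mk h (nm k'), x']) c ?_ clop_true ?_ h trivial
  · repeat' first
      | exact BMap.id
      | apply BMap.fst
      | apply BMap.snd
      | exact BTerm.const _
      | apply bterm_opair
      | apply BTerm.of
      | apply BPred.mem
      | apply BPred.eq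
      | apply bp_has2
      | apply bp_has3
      | apply bp_isTuple3
      | apply bp_eq_pr
      | apply bp_isPair
      | apply bp_isUPair
      | apply bp_isFun
      | apply bp_injects
      | apply BPred.not
      | apply BPred.and
      | apply BPred.or
      | apply BPred.iff
      | apply BPred.imp
      | refine BPred.ex ?_
      | refine BPred.all ?_
      | exact BPred.const _
  intro h _ y _ h1 h2
  rw [has_IN] at h1 h2
  obtain ⟨k'', hk1, hk2⟩ := inK_inter h1 h2
  refine ⟨Mdl.mk h (nm k''), E_KN k'', (has_IN k'' y).2 hk1, ?_⟩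
  refine forall_chk (P := fun h x' => Has (E h) (Mdl.mk h (IN B I)) [Mdl.mk h (nm k''), x'] →
        Has (E h) (Mdl.mk h (IN B I)) [Mdl.mk h (nm k), x'] ∧
        Has (E h) (Mdl.mk h (IN B I)) [Mdl.mk h (nm k'), x']) c ?_ clop_true ?_ h trivial
  · repeat' first
      | exact BMap.id
      | apply BMap.fst
      | apply BMap.snd
      | exact BTerm.const _
      | apply bterm_opair
      | apply BTerm.of
      | apply BPred.mem
      | apply BPred.eq
      | apply bp_has2
      | apply bp_has3
      | apply bp_isTuple3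
      | apply bp_eq_pr
      | apply bp_isPair
      | apply bp_isUPair
      | apply bp_isFun
      | apply bp_injects
      | apply BPred.not
      | apply BPred.and
      | apply BPred.or
      | apply BPred.iff
      | apply BPred.imp
      | refine BPred.ex ?_
      | refine BPred.all ?_
      | exact BPred.const _
  intro h _ y' _ h3
  rw [has_IN] at h3
  exact ⟨(has_IN k y').2 (hk2 y' h3).1, (has_IN k' y').2 (hk2 y' h3).2⟩

theorem isTop_TN {I : Type} (c : Set I → B) (h : Ult B) :
    IsTop (E h) (Mdl.mk h (chk c)) (Mdl.mk h (TN c)) := by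
  refine ⟨fun U hU => ((E_TN c h U).1 hU).1, ?_, ?_, ?_⟩
  · rw [E_TN]
    refine ⟨fun z hz => hz, ?_⟩
    refine forall_chk (P := fun h x => ∃ k, E h k (Mdl.mk h (KN B I)) ∧
      Has (E h) (Mdl.mk h (IN B I)) [k, x] ∧ ∀ x', E h x' (Mdl.mk h (chk c)) →
        Has (E h) (Mdl.mk h (IN B I)) [k, x'] → E h x' (Mdl.mk h (chk c))) c ?_ clop_true ?_ h
        trivial
    · repeat' first
        | exact BMap.id
        | apply BMap.fst
        | apply BMap.snd
        | exact BTerm.const _
        | apply bterm_opair
        | apply BTerm.of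
        | apply BPred.mem
        | apply BPred.eq
        | apply bp_has2
        | apply bp_has3
        | apply bp_isTuple3
        | apply bp_eq_pr
        | apply bp_isPair
        | apply bp_isUPair
        | apply bp_isFun
        | apply bp_injects
        | apply BPred.not
        | apply BPred.and
        | apply BPred.or
        | apply BPred.iff
        | apply BPred.imp
        | refine BPred.ex ?_
        | refine BPred.all ?_
        | exact BPred.const _
    · intro h _ y _
      obtain ⟨k, hk⟩ := inK_self y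
      exact ⟨Mdl.mk h (nm k), E_KN k, (has_IN k y).2 hk, fun x' hx' _ => hx'⟩
  · intro U V W hU hV hW
    rw [E_TN] at hU hV ⊢
    refine ⟨fun z hz => hU.1 z ((hW z).1 hz).1, fun x hx => ?_⟩
    obtain ⟨hxU, hxV⟩ := (hW x).1 hx
    obtain ⟨k, hk1, hk2, hk3⟩ := hU.2 x hxU
    obtain ⟨k', hk1', hk2', hk3'⟩ := hV.2 x hxV
    obtain ⟨k'', h1, h2, h3⟩ := inter_K c h k hk1 k' hk1' x (hU.1 x hxU) hk2 hk2'
    refine ⟨k'', h1, h2, fun x' hx' hin => (hW x').2 ?_⟩
    exact ⟨hk3 x' hx' (h3 x' hx' hin).1, hk3' x' hx' (h3 x' hx' hin).2⟩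
  · intro A U hA hU
    rw [E_TN]
    refine ⟨fun z hz => ?_, fun x hx => ?_⟩
    · obtain ⟨V, hV, hz⟩ := (hU z).1 hz
      exact ((E_TN c h V).1 (hA V hV)).1 z hz
    · obtain ⟨V, hV, hx⟩ := (hU x).1 hx
      obtain ⟨k, hk1, hk2, hk3⟩ := ((E_TN c h V).1 (hA V hV)).2 x hx
      exact ⟨k, hk1, hk2, fun x' hx' hin => (hU x').2 ⟨V, hV, hk3 x' hx' hin⟩⟩

/-- The basic open sets. -/
theorem exists_basic' {I : Type} (c : Set I → B) (h : Ult B) (k : Mdl h)
    (hk : E h k (Mdl.mk h (KN B I))) : ∃ U, E h U (Mdl.mk h (TN c)) ∧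
      ∀ z, E h z U ↔ E h z (Mdl.mk h (chk c)) ∧ Has (E h) (Mdl.mk h (IN B I)) [k, z] := by
  obtain ⟨k, rfl⟩ := k.exists_rep
  refine exists_U c (D := fun z => Has (E h) (Mdl.mk h (IN B I)) [Mdl.mk h k, z]) ?_
    (fun x _ hD => ⟨Mdl.mk h k, hk, hD, fun x' _ hin => hin⟩)
  repeat' first
    | exact BMap.id
    | apply BMap.fst
    | apply BMap.snd
    | exact BTerm.const _
    | apply bterm_opair
    | apply BTerm.of
    | apply BPred.mem
    | apply BPred.eq
    | apply bp_has2
    | apply bp_has3
    | apply bp_isTuple3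
    | apply bp_eq_pr
    | apply bp_isPair
    | apply bp_isUPair
    | apply bp_isFun
    | apply bp_injects
    | apply BPred.not
    | apply BPred.and
    | apply BPred.or
    | apply BPred.iff
    | apply BPred.imp
    | refine BPred.ex ?_
    | refine BPred.all ?_
    | exact BPred.const _

theorem sep_TN {I : Type} (c : Set I → B) (h : Ult B) : ∀ x, E h x (Mdl.mk h (chk c)) →
    ∀ y, E h y (Mdl.mk h (chk c)) → x ≠ y → ∃ k, E h k (Mdl.mk h (KN B I)) ∧
      Has (E h) (Mdl.mk h (IN B I)) [k, x] ∧ ¬ Has (E h) (Mdl.mk h (IN B I)) [k, y] := by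
  refine forall_chk (P := fun h x =>
    ∀ y, E h y (Mdl.mk h (chk c)) → x ≠ y → ∃ k, E h k (Mdl.mk h (KN B I)) ∧
      Has (E h) (Mdl.mk h (IN B I)) [k, x] ∧ ¬ Has (E h) (Mdl.mk h (IN B I)) [k, y]) c ?_
      clop_true ?_ h trivial
  · unfold Ne
    repeat' first
      | exact BMap.id
      | apply BMap.fst
      | apply BMap.snd
      | exact BTerm.const _
      | apply bterm_opair
      | apply BTerm.of
      | apply BPred.mem
      | apply BPred.eq
      | apply bp_has2
      | apply bp_has3
      | apply bp_isTuple3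
      | apply bp_eq_pr
      | apply bp_isPair
      | apply bp_isUPair
      | apply bp_isFun
      | apply bp_injects
      | apply BPred.not
      | apply BPred.and
      | apply BPred.or
      | apply BPred.iff
      | apply BPred.imp
      | refine BPred.ex ?_
      | refine BPred.all ?_
      | exact BPred.const _
  intro h _ x _
  refine forall_chk (P := fun h y => Mdl.mk h (nm x) ≠ y → ∃ k, E h k (Mdl.mk h (KN B I)) ∧
      Has (E h) (Mdl.mk h (IN B I)) [k, Mdl.mk h (nm x)] ∧
      ¬ Has (E h) (Mdl.mk h (IN B I)) [k, y]) c ?_ clop_true ?_ h trivial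
  · unfold Ne
    repeat' first
      | exact BMap.id
      | apply BMap.fst
      | apply BMap.snd
      | exact BTerm.const _
      | apply bterm_opair
      | apply BTerm.of
      | apply BPred.mem
      | apply BPred.eq
      | apply bp_has2
      | apply bp_has3
      | apply bp_isTuple3
      | apply bp_eq_pr
      | apply bp_isPair
      | apply bp_isUPair
      | apply bp_isFun
      | apply bp_injects
      | apply BPred.not
      | apply BPred.and
      | apply BPred.or
      | apply BPred.iff
      | apply BPred.imp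
      | refine BPred.ex ?_
      | refine BPred.all ?_
      | exact BPred.const _
  intro h _ y _ hne
  have hxy : x ≠ y := fun he => hne (by rw [he])
  obtain ⟨k, hk1, hk2⟩ := inK_sep hxy
  exact ⟨Mdl.mk h (nm k), E_KN k, (has_IN k x).2 hk1, fun hh => hk2 ((has_IN k y).1 hh)⟩

theorem exists_ch {I : Type} (c : Set I → B) (h : Ult B) : ∀ k, E h k (Mdl.mk h (KN B I)) →
    ∀ x, E h x (Mdl.mk h (chk c)) → Has (E h) (Mdl.mk h (IN B I)) [k, x] →
    ∃ f r, IsCR (E h) (Mdl.mk h (RN B)) (Mdl.mk h (LN B)) (Mdl.mk h (chk c))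
      (Mdl.mk h (TN c)) f ∧ E h r (Mdl.mk h (RN B)) ∧ ¬ Has (E h) f [x, r] ∧
      ∀ y, E h y (Mdl.mk h (chk c)) → ¬ Has (E h) (Mdl.mk h (IN B I)) [k, y] →
        Has (E h) f [y, r] := by
  classical
  refine forall_chk (P := fun h k =>
    ∀ x, E h x (Mdl.mk h (chk c)) → Has (E h) (Mdl.mk h (IN B I)) [k, x] →
    ∃ f r, IsCR (E h) (Mdl.mk h (RN B)) (Mdl.mk h (LN B)) (Mdl.mk h (chk c))
      (Mdl.mk h (TN c)) f ∧ E h r (Mdl.mk h (RN B)) ∧ ¬ Has (E h) f [x, r] ∧
      ∀ y, E h y (Mdl.mk h (chk c)) → ¬ Has (E h) (Mdl.mk h (IN B I)) [k, y] →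
        Has (E h) f [y, r]) (fun _ : KK I => (⊤ : B)) ?_ clop_true ?_ h trivial
  · repeat' first
      | exact BMap.id
      | apply BMap.fst
      | apply BMap.snd
      | exact BTerm.const _
      | apply bterm_opair
      | apply BTerm.of
      | apply BPred.mem
      | apply BPred.eq
      | apply bp_has2
      | apply bp_has3
      | apply bp_isTuple3
      | apply bp_eq_pr
      | apply bp_isPair
      | apply bp_isUPair
      | apply bp_isFun
      | apply bp_injects
      | apply bp_isCR
      | apply BPred.not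
      | apply BPred.and
      | apply BPred.or
      | apply BPred.iff
      | apply BPred.imp
      | refine BPred.ex ?_
      | refine BPred.all ?_
      | exact BPred.const _
  intro h _ k _ x hx hin
  refine ⟨Mdl.mk h (chN c k), Mdl.mk h (nm (0 : ℝ)), isCR_chN c k h, E_RN 0, ?_, ?_⟩
  · refine forall_chk (P := fun h x => Has (E h) (Mdl.mk h (IN B I)) [Mdl.mk h (nm k), x] →
      ¬ Has (E h) (Mdl.mk h (chN c k)) [x, Mdl.mk h (nm (0 : ℝ))]) c ?_ clop_true ?_ h trivial
      x hx hin
    · repeat' first
        | exact BMap.id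
        | apply BMap.fst
        | apply BMap.snd
        | exact BTerm.const _
        | apply bterm_opair
        | apply BTerm.of
        | apply BPred.mem
        | apply BPred.eq
        | apply bp_has2
        | apply bp_has3
        | apply bp_isTuple3
        | apply bp_eq_pr
        | apply bp_isPair
        | apply bp_isUPair
        | apply bp_isFun
        | apply bp_injects
        | apply BPred.not
        | apply BPred.and
        | apply BPred.or
        | apply BPred.iff
        | apply BPred.imp
        | refine BPred.ex ?_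
        | refine BPred.all ?_
        | exact BPred.const _
    · intro h _ y hy h1 h2
      rw [has_IN] at h1
      rw [has_chN, nm_inj, if_pos h1] at h2
      exact zero_ne_one h2.2
  · refine forall_chk (P := fun h y => ¬ Has (E h) (Mdl.mk h (IN B I)) [Mdl.mk h (nm k), y] →
      Has (E h) (Mdl.mk h (chN c k)) [y, Mdl.mk h (nm (0 : ℝ))]) c ?_ clop_true ?_ h trivial
    · repeat' first
        | exact BMap.id
        | apply BMap.fst
        | apply BMap.snd
        | exact BTerm.const _
        | apply bterm_opair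
        | apply BTerm.of
        | apply BPred.mem
        | apply BPred.eq
        | apply bp_has2
        | apply bp_has3
        | apply bp_isTuple3
        | apply bp_eq_pr
        | apply bp_isPair
        | apply bp_isUPair
        | apply bp_isFun
        | apply bp_injects
        | apply BPred.not
        | apply BPred.and
        | apply BPred.or
        | apply BPred.iff
        | apply BPred.imp
        | refine BPred.ex ?_
        | refine BPred.all ?_
        | exact BPred.const _
    · intro h _ y hy h1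
      rw [has_IN] at h1
      rw [has_chN, nm_inj, if_neg h1]
      exact ⟨hy, rfl⟩

theorem isTych {I : Type} (c : Set I → B) (h : Ult B) :
    IsTych (E h) (Mdl.mk h (RN B)) (Mdl.mk h (LN B)) (Mdl.mk h (chk c)) (Mdl.mk h (TN c)) := by
  refine ⟨isTop_TN c h, fun x y hx hy hxy => ?_, fun U x hU hx => ?_⟩
  · obtain ⟨k, hk1, hk2, hk3⟩ := sep_TN c h x hx y hy hxy
    obtain ⟨U, hU1, hU2⟩ := exists_basic' c h k hk1
    exact ⟨U, hU1, (hU2 x).2 ⟨hx, hk2⟩, fun hyU => hk3 ((hU2 y).1 hyU).2⟩
  · obtain ⟨hsub, hop⟩ := (E_TN c h U).1 hU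
    obtain ⟨k, hk1, hk2, hk3⟩ := hop x hx
    obtain ⟨f, r, h1, h2, h3, h4⟩ := exists_ch c h k hk1 x (hsub x hx) hk2
    exact ⟨f, r, h1, h2, h3, fun y hy hyU => h4 y hy fun hin => hyU (hk3 y hy hin)⟩

end Pool.Agent.MP7e7dde
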