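import Pool.Agent.MP_7e7dde_gt.Lind
import Pool.Agent.MP_7e7dde_gt.Tych

/-! The points of `I` form a countably compact subspace of the space of continuous real functions
on the generic space. -/

set_option linter.unusedVariables false
set_option linter.unusedSectionVars false
set_option linter.unreachableTactic false
set_option linter.unusedTactic false

namespace Pool.Agent.MP7e7dde

open BVM BName SetModel MP63050e

variable {B : Type} [CompleteBooleanAlgebra B] {I : Type} {em : Cond I → B}

/-- The name of the evaluation at `z`. -/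
noncomputable def fz (em : Cond I → B) (z : I) : BName B := chN (yv em) ({z}, {z})

theorem inK_single {z : I} {y : Set I} : inK (({z}, {z}) : KK I) y ↔ z ∈ y := by
  simp [inK]

open Classical in
theorem has_fz (z : I) (h : Ult B) (y : Set I) (r : Mdl h) :
    Has (E h) (Mdl.mk h (fz em z)) [Mdl.mk h (nm y), r] ↔
      h.V (yv em y) ∧ r = Mdl.mk h (nm (if z ∈ y then (1 : ℝ) else 0)) := by
  rw [fz, has_chN]
  simp only [inK_single]

/-- The name of the set of the evaluations. -/
noncomputable def SN (em : Cond I → B) : BName B := BName.mk I (fz em) (fun _ => ⊤)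

theorem E_SN (z : I) {h : Ult B} : E h (Mdl.mk h (fz em z)) (Mdl.mk h (SN em)) :=
  E_of_coe (e := fz em) (i := z) h.top'

open Classical in
theorem satC_fz {h : Ult B} {y : Set I} {a b : ℝ} {z : I} :
    SatC (E h) (Mdl.mk h (RN B)) (Mdl.mk h (LN B)) (Mdl.mk h (fz em z))
      (Mdl.mk h (opair (nm y) (opair (nm a) (nm b)))) ↔
      h.V (yv em y) ∧ a < (if z ∈ y then (1 : ℝ) else 0) ∧ (if z ∈ y then (1 : ℝ) else 0) < b := by
  constructor
  · rintro ⟨x, a', b', r, ht, ha, hb, hx, h1, h2⟩
    rw [isTuple_iff (by simp)] at ht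
    obtain ⟨rfl, ht2⟩ := pr_inj.1 (show pr h (Mdl.mk h (nm y)) (Mdl.mk h (opair (nm a) (nm b))) =
      pr h x (pr h a' b') from ht)
    obtain ⟨rfl, rfl⟩ := pr_inj.1 (show pr h (Mdl.mk h (nm a)) (Mdl.mk h (nm b)) =
      pr h a' b' from ht2)
    rw [has_fz] at hx
    obtain ⟨hy, rfl⟩ := hx
    rw [has_LN] at h1 h2
    exact ⟨hy, h1, h2⟩
  · rintro ⟨hy, h1, h2⟩
    refine ⟨Mdl.mk h (nm y), Mdl.mk h (nm a), Mdl.mk h (nm b), _, ?_, E_RN a, E_RN b,
      (has_fz z h y _).2 ⟨hy, rfl⟩, (has_LN _ _).2 h1, (has_LN _ _).2 h2⟩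
    rw [isTuple_iff (by simp)]
    rfl

theorem isFin_of_finite {α : Type} {F : Set α} (hF : F.Finite) (e : α → BName B) {h : Ult B}
    {A : Mdl h} (hA : Sub (E h) A (Mdl.mk h (BName.mk F (fun i => e i.1) (fun _ => ⊤)))) :
    IsFin (E h) (Mdl.mk h (omN B)) A := by
  classical
  have := hF.to_subtype
  obtain ⟨n, ⟨φ⟩⟩ := Finite.exists_equiv_fin F
  refine isFin_seq (fun m => if hm : m < n then e (φ.symm ⟨m, hm⟩).1 else vN 0) n
    (fun z hz => ?_)
  refine forall_mem' (P := fun h z => E h z (Mdl.mk h (BName.mk {m // m < n}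
    (fun m => (if hm : m.1 < n then e (φ.symm ⟨m.1, hm⟩).1 else vN 0)) (fun _ => ⊤)))) _ _ ?_ ?_
    h z (hA z hz)
  · repeat' first
      | exact BMap.id
      | apply BMap.fst
      | apply BMap.snd
      | exact BTerm.const _
      | apply bterm_opair
      | apply BTerm.of
      | apply BPred.mem
      | apply BPred.eq
      | apply bp_has2
      | apply bp_has3
      | apply bp_isTuple3
      | apply bp_eq_pr
      | apply bp_isPair
      | apply bp_isUPair
      | apply bp_isFun
      | apply bp_injects
      | apply BPred.not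
      | apply BPred.and
      | apply BPred.or
      | apply BPred.iff
      | apply BPred.imp
      | refine BPred.ex ?_
      | refine BPred.all ?_
      | exact BPred.const _
  · intro h i _
    have h1 := E_of_coe (e := fun m : {m // m < n} =>
      (if hm : m.1 < n then e (φ.symm ⟨m.1, hm⟩).1 else vN 0)) (c := fun _ => (⊤ : B)) (h := h)
      (i := ⟨(φ i).1, (φ i).2⟩) h.top'
    have h2 : (if hm : (φ i).1 < n then e (φ.symm ⟨(φ i).1, hm⟩).1 else (vN 0 : BName B)) =
        e i.1 := by
      rw [dif_pos (φ i).2]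
      simp
    simp only [h2] at h1
    exact h1

theorem exists_fo_of_V {P : Type} [Preorder P] {em : P → B} (hem : DenseEmb em)
    {Q : Ult B → Prop} (hQ : Clop Q) {r : P} {h : Ult B} (hr : h.V (em r)) (hh : Q h) :
    ∃ r', r' ≤ r ∧ Fo em r' Q := by
  obtain ⟨b, hb⟩ := hQ
  obtain ⟨q, hqr, hq⟩ := hem.exists_of_inf (h.ne_bot ((h.inf' _ _).2 ⟨hr, (hb h).1 hh⟩))
  exact ⟨q, hqr, fun k hk => (hb k).2 (k.mono hq hk)⟩

theorem cc_step (hem : DenseEmb em) {D : BName B} {p : Cond I}
    (H : Fo em p (fun h => Sub (E h) (Mdl.mk h D) (Mdl.mk h (SN em)) ∧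
      ¬ IsFin (E h) (Mdl.mk h (omN B)) (Mdl.mk h D))) {F0 : Set I} (hF0 : F0.Finite) :
    ∃ r : Cond I, ∃ z : I, r ≤ p ∧ z ∈ r.F ∧ Fo em r (fun h => E h (Mdl.mk h (fz em z))
      (Mdl.mk h D) ∧ ¬ E h (Mdl.mk h (fz em z)) (Mdl.mk h
        (BName.mk F0 (fun z => fz em z.1) (fun _ => ⊤)))) := by
  by_contra hcon
  push Not at hcon
  obtain ⟨h, hh⟩ := Ult.exists_of_ne_bot (hem.ne_bot p)
  refine (H h hh).2 (isFin_of_finite hF0 (fz em) fun d hd => ?_)
  have hdS := (H h hh).1 d hd
  refine forall_mem (P := fun h d => E h d (Mdl.mk h D) → E h d (Mdl.mk h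
    (BName.mk F0 (fun z => fz em z.1) (fun _ => ⊤)))) _ _ ?_ (clop_V (em p)) ?_ h hh d hdS hd
  · repeat' first
      | exact BMap.id
      | apply BMap.fst
      | apply BMap.snd
      | exact BTerm.const _
      | apply bterm_opair
      | apply BTerm.of
      | apply BPred.mem
      | apply BPred.eq
      | apply bp_has2
      | apply bp_has3
      | apply bp_isTuple3
      | apply bp_eq_pr
      | apply bp_isPair
      | apply bp_isUPair
      | apply bp_isFun
      | apply bp_injects
      | apply BPred.not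
      | apply BPred.and
      | apply BPred.or
      | apply BPred.iff
      | apply BPred.imp
      | refine BPred.ex ?_
      | refine BPred.all ?_
      | exact BPred.const _
  · intro h hh z _ hzD
    by_contra hzF
    obtain ⟨r', hr', h1⟩ := exists_fo_of_V hem (Q := fun h => E h (Mdl.mk h (fz em z))
      (Mdl.mk h D) ∧ ¬ E h (Mdl.mk h (fz em z)) (Mdl.mk h
        (BName.mk F0 (fun z => fz em z.1) (fun _ => ⊤)))) (by
      refine BPred.clop (P := fun h (_ : PUnit.{1}) => E h (Mdl.mk h (fz em z))
        (Mdl.mk h D) ∧ ¬ E h (Mdl.mk h (fz em z)) (Mdl.mk h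
        (BName.mk F0 (fun z => fz em z.1) (fun _ => ⊤)))) ?_ PUnit.unit
      repeat' first
        | exact BMap.id
        | apply BMap.fst
        | apply BMap.snd
        | exact BTerm.const _
        | apply bterm_opair
        | apply BTerm.of
        | apply BPred.mem
        | apply BPred.eq
        | apply bp_has2
        | apply bp_has3
        | apply bp_isTuple3
        | apply bp_eq_pr
        | apply bp_isPair
        | apply bp_isUPair
        | apply bp_isFun
        | apply bp_injects
        | apply BPred.not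
        | apply BPred.and
        | apply BPred.or
        | apply BPred.iff
        | apply BPred.imp
        | refine BPred.ex ?_
        | refine BPred.all ?_
        | exact BPred.const _
      ) hh ⟨hzD, hzF⟩
    obtain ⟨r'', hr'', hz⟩ := r'.exists_add_finite (Set.finite_singleton z)
    exact hcon r'' z (hr''.trans hr') (hz rfl) (h1.mono hem hr'')

theorem cc_seq [Uncountable I] (hem : DenseEmb em) {D : BName B} {p : Cond I}
    (H : Fo em p (fun h => Sub (E h) (Mdl.mk h D) (Mdl.mk h (SN em)) ∧
      ¬ IsFin (E h) (Mdl.mk h (omN B)) (Mdl.mk h D))) :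
    ∃ q, q ≤ p ∧ ∃ z : ℕ → I, (∀ n, z n ∈ q.F) ∧
      (∀ n, Fo em q (fun h => E h (Mdl.mk h (fz em (z n))) (Mdl.mk h D))) ∧
      ∀ m n, m < n → Fo em q (fun h => Mdl.mk h (fz em (z m)) ≠ Mdl.mk h (fz em (z n))) := by
  have hstep : ∀ s : {s : Cond I × Set I // s.1 ≤ p ∧ s.2.Finite}, ∃ r : Cond I, ∃ z : I,
      r ≤ s.1.1 ∧ z ∈ r.F ∧ Fo em r (fun h => E h (Mdl.mk h (fz em z))
      (Mdl.mk h D) ∧ ¬ E h (Mdl.mk h (fz em z)) (Mdl.mk h
        (BName.mk s.1.2 (fun z => fz em z.1) (fun _ => ⊤)))) :=
    fun s => cc_step hem (H.mono hem s.2.1) s.2.2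
  choose r z hr hz hfo using hstep
  let nx : {s : Cond I × Set I // s.1 ≤ p ∧ s.2.Finite} →
      {s : Cond I × Set I // s.1 ≤ p ∧ s.2.Finite} :=
    fun s => ⟨(r s, insert (z s) s.1.2), (hr s).trans s.2.1, s.2.2.insert _⟩
  let st : ℕ → {s : Cond I × Set I // s.1 ≤ p ∧ s.2.Finite} :=
    fun n => Nat.rec ⟨(p, ∅), le_rfl, Set.finite_empty⟩ (fun _ s => nx s) n
  obtain ⟨q, hq⟩ := sc_cond (fun n => (st n).1.1) (fun n => hr (st n))
  have hmem : ∀ n m, m < n → z (st m) ∈ (st n).1.2 := by
    intro n
    induction n with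
    | zero => intro m hm; exact absurd hm (Nat.not_lt_zero m)
    | succ n ih =>
      intro m hm
      change z (st m) ∈ insert (z (st n)) (st n).1.2
      rcases Nat.lt_succ_iff_lt_or_eq.1 hm with h | h
      · exact Set.mem_insert_of_mem _ (ih m h)
      · rw [h]; exact Set.mem_insert _ _
  have hq' : ∀ n, q ≤ r (st n) := fun n => hq (n + 1)
  refine ⟨q, hq 0, fun n => z (st n), fun n => Cond.F_mono (hq' n) (hz (st n)),
    fun n => ((hfo (st n)).mono hem (hq' n)).imp fun h hh => hh.1, fun m n hmn => ?_⟩
  intro h hh heq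
  refine ((hfo (st n)).mono hem (hq' n) h hh).2 ?_
  rw [← heq]
  exact E_of_coe (e := fun i : (st n).1.2 => fz em i.1) (i := ⟨z (st m), hmem n m hmn⟩) h.top'

/-- The name of the set of the constraints. -/
noncomputable def CN (em : Cond I → B) : BName B :=
  BName.mk (Set I × ℝ × ℝ) (fun t => opair (nm t.1) (opair (nm t.2.1) (nm t.2.2)))
    (fun t => yv em t.1)

theorem mem_CN {h : Ult B} : ∀ x, E h x (Mdl.mk h (chk (yv em))) → ∀ a, E h a (Mdl.mk h (RN B)) →
    ∀ b, E h b (Mdl.mk h (RN B)) → ∀ s t, s = pr h a b → t = pr h x s →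
      E h t (Mdl.mk h (CN em)) := by
  refine forall_chk (yv em) (P := fun h x => ∀ a, E h a (Mdl.mk h (RN B)) →
    ∀ b, E h b (Mdl.mk h (RN B)) → ∀ s t, s = pr h a b → t = pr h x s →
      E h t (Mdl.mk h (CN em))) ?_ clop_true ?_ h trivial
  · repeat' first
      | exact BMap.id
      | apply BMap.fst
      | apply BMap.snd
      | exact BTerm.const _
      | apply bterm_opair
      | apply BTerm.of
      | apply BPred.mem
      | apply BPred.eq
      | apply bp_has2
      | apply bp_has3
      | apply bp_isTuple3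
      | apply bp_eq_pr
      | apply bp_isPair
      | apply bp_isUPair
      | apply bp_isFun
      | apply bp_injects
      | apply BPred.not
      | apply BPred.and
      | apply BPred.or
      | apply BPred.iff
      | apply BPred.imp
      | refine BPred.ex ?_
      | refine BPred.all ?_
      | exact BPred.const _
  · intro h _ y hy
    refine forall_chk (fun _ : ℝ => (⊤ : B)) (P := fun h a =>
      ∀ b, E h b (Mdl.mk h (RN B)) → ∀ s t, s = pr h a b → t = pr h (Mdl.mk h (nm y)) s →
      E h t (Mdl.mk h (CN em))) ?_ (clop_V (yv em y)) ?_ h hy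
    · repeat' first
        | exact BMap.id
        | apply BMap.fst
        | apply BMap.snd
        | exact BTerm.const _
        | apply bterm_opair
        | apply BTerm.of
        | apply BPred.mem
        | apply BPred.eq
        | apply bp_has2
        | apply bp_has3
        | apply bp_isTuple3
        | apply bp_eq_pr
        | apply bp_isPair
        | apply bp_isUPair
        | apply bp_isFun
        | apply bp_injects
        | apply BPred.not
        | apply BPred.and
        | apply BPred.or
        | apply BPred.iff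
        | apply BPred.imp
        | refine BPred.ex ?_
        | refine BPred.all ?_
        | exact BPred.const _
    · intro h hy a _
      refine forall_chk (fun _ : ℝ => (⊤ : B)) (P := fun h b => ∀ s t,
        s = pr h (Mdl.mk h (nm a)) b → t = pr h (Mdl.mk h (nm y)) s →
        E h t (Mdl.mk h (CN em))) ?_ (clop_V (yv em y)) ?_ h hy
      · repeat' first
          | exact BMap.id
          | apply BMap.fst
          | apply BMap.snd
          | exact BTerm.const _
          | apply bterm_opair
          | apply BTerm.of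
          | apply BPred.mem
          | apply BPred.eq
          | apply bp_has2
          | apply bp_has3
          | apply bp_isTuple3
          | apply bp_eq_pr
          | apply bp_isPair
          | apply bp_isUPair
          | apply bp_isFun
          | apply bp_injects
          | apply BPred.not
          | apply BPred.and
          | apply BPred.or
          | apply BPred.iff
          | apply BPred.imp
          | refine BPred.ex ?_
          | refine BPred.all ?_
          | exact BPred.const _
      · intro h hy b _ s t hs ht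
        subst hs ht
        exact E_of_coe (e := fun t : Set I × ℝ × ℝ => opair (nm t.1)
          (opair (nm t.2.1) (nm t.2.2))) (c := fun t => yv em t.1) (i := (y, a, b)) hy

theorem cc_fo [Uncountable I] (hem : DenseEmb em) {D : BName B} {p : Cond I}
    (H : Fo em p (fun h => Sub (E h) (Mdl.mk h D) (Mdl.mk h (SN em)) ∧
      ¬ IsFin (E h) (Mdl.mk h (omN B)) (Mdl.mk h D))) :
    ∃ q, q ≤ p ∧ Fo em q (fun h => ∃ s, E h s (Mdl.mk h (SN em)) ∧ ∀ P,
      IsFin (E h) (Mdl.mk h (omN B)) P → (∀ t, E h t P → SatC (E h) (Mdl.mk h (RN B))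
        (Mdl.mk h (LN B)) s t) → ∃ d, E h d (Mdl.mk h D) ∧ d ≠ s ∧ ∀ t, E h t P →
          SatC (E h) (Mdl.mk h (RN B)) (Mdl.mk h (LN B)) d t) := by
  classical
  obtain ⟨q, hqp, z, hzF, hzD, hzne⟩ := cc_seq hem H
  have hinj : Function.Injective z := by
    intro m n hmn
    by_contra hne
    obtain ⟨h, hh⟩ := Ult.exists_of_ne_bot (hem.ne_bot q)
    rcases lt_or_gt_of_ne hne with h1 | h1
    · exact hzne m n h1 h hh (by rw [hmn])
    · exact hzne n m h1 h hh (by rw [hmn])
  have hne' : ∀ m n, m ≠ n → ∀ h : Ult B, h.V (em q) →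
      Mdl.mk h (fz em (z m)) ≠ Mdl.mk h (fz em (z n)) := by
    intro m n hmn h hh
    rcases lt_or_gt_of_ne hmn with h1 | h1
    · exact hzne m n h1 h hh
    · exact (hzne n m h1 h hh).symm
  obtain ⟨z0, hz0, hacc⟩ := q.acc (Set.range z) (by rintro _ ⟨n, rfl⟩; exact hzF n)
    (Set.infinite_range_of_injective hinj)
  refine ⟨q, hqp, fun h hh => ⟨Mdl.mk h (fz em z0), E_SN z0, fun P hP hsat => ?_⟩⟩
  obtain ⟨P, rfl⟩ := P.exists_rep
  refine imp_of_fo hem (Q := fun h => h.V (em q) ∧ IsFin (E h) (Mdl.mk h (omN B)) (Mdl.mk h P) ∧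
      ∀ t, E h t (Mdl.mk h P) → SatC (E h) (Mdl.mk h (RN B)) (Mdl.mk h (LN B))
        (Mdl.mk h (fz em z0)) t)
    (R := fun h => ∃ d, E h d (Mdl.mk h D) ∧ d ≠ Mdl.mk h (fz em z0) ∧ ∀ t, E h t (Mdl.mk h P) →
      SatC (E h) (Mdl.mk h (RN B)) (Mdl.mk h (LN B)) d t) ?_ ?_ ?_ h ⟨hh, hP, hsat⟩
  · refine BPred.clop (P := fun h (_ : PUnit.{1}) => h.V (em q) ∧
      IsFin (E h) (Mdl.mk h (omN B)) (Mdl.mk h P) ∧
      ∀ t, E h t (Mdl.mk h P) → SatC (E h) (Mdl.mk h (RN B)) (Mdl.mk h (LN B))
        (Mdl.mk h (fz em z0)) t) ?_ PUnit.unit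
    repeat' first
      | exact BMap.id
      | apply BMap.fst
      | apply BMap.snd
      | exact BTerm.const _
      | apply bterm_opair
      | apply BTerm.of
      | apply BPred.mem
      | apply BPred.eq
      | apply bp_has2
      | apply bp_has3
      | apply bp_isTuple3
      | apply bp_eq_pr
      | apply bp_isPair
      | apply bp_isUPair
      | apply bp_isFun
      | apply bp_injects
      | apply bp_V
      | apply bp_isFin
      | apply bp_satC
      | apply BPred.not
      | apply BPred.and
      | apply BPred.or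
      | apply BPred.iff
      | apply BPred.imp
      | refine BPred.ex ?_
      | refine BPred.all ?_
      | exact BPred.const _
  · refine BPred.clop (P := fun h (_ : PUnit.{1}) => ∃ d, E h d (Mdl.mk h D) ∧
      d ≠ Mdl.mk h (fz em z0) ∧ ∀ t, E h t (Mdl.mk h P) →
      SatC (E h) (Mdl.mk h (RN B)) (Mdl.mk h (LN B)) d t) ?_ PUnit.unit
    repeat' first
      | exact BMap.id
      | apply BMap.fst
      | apply BMap.snd
      | exact BTerm.const _
      | apply bterm_opair
      | apply BTerm.of
      | apply BPred.mem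
      | apply BPred.eq
      | apply bp_has2
      | apply bp_has3
      | apply bp_isTuple3
      | apply bp_eq_pr
      | apply bp_isPair
      | apply bp_isUPair
      | apply bp_isFun
      | apply bp_injects
      | apply bp_satC
      | apply BPred.not
      | apply BPred.and
      | apply BPred.or
      | apply BPred.iff
      | apply BPred.imp
      | refine BPred.ex ?_
      | refine BPred.all ?_
      | exact BPred.const _
  · clear hP hsat hh h
    intro p' hp'
    obtain ⟨r, hr1, hr2⟩ := hem.compat p' q (by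
      intro h0
      obtain ⟨k, hk⟩ := Ult.exists_of_ne_bot (hem.ne_bot p')
      have := (k.inf' _ _).2 ⟨hk, (hp' k hk).1⟩
      rw [h0] at this
      exact k.bot this)
    obtain ⟨q', hq'r, S, hS, hS1, hS2⟩ := fin_dec hem sc_cond (ι := Set I × ℝ × ℝ)
      (fun t => opair (nm t.1) (opair (nm t.2.1) (nm t.2.2))) (fun t => yv em t.1) P (p := r) (by
        intro h hh
        obtain ⟨-, h1, h2⟩ := hp' h (h.mono (hem.mono _ _ hr1) hh)
        refine ⟨h1, fun t ht => ?_⟩
        obtain ⟨x, a, b, v, hxab, ha, hb, hx, -, -⟩ := h2 t ht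
        rw [isTuple_iff (by simp)] at hxab
        exact mem_CN x (isFun_has (isFun_chN _ _ h) hx).1 a ha b hb _ t rfl hxab)
    have hq'q : q' ≤ q := hq'r.trans hr2
    have hT : (fun t : Set I × ℝ × ℝ => t.1 ∩ q.F) '' S ⊆ q.Y := by
      rintro _ ⟨t, ht, rfl⟩
      obtain ⟨r'', hr'', hy⟩ := exists_of_yv hem (p := q') (y := t.1)
        (fun h hh => (hS1 t ht h hh).1)
      exact Cond.le_tr (hr''.trans hq'q) hy
    have hinf := hacc _ (hS.image (fun t : Set I × ℝ × ℝ => t.1 ∩ q.F)) hT
    obtain ⟨w1, hw1, w2, hw2, hww⟩ := hinf.nontrivial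
    have hsat : ∀ a, a ∈ {a ∈ Set.range z | ∀ y ∈ (fun t : Set I × ℝ × ℝ => t.1 ∩ q.F) '' S,
        a ∈ y ↔ z0 ∈ y} → ∀ h : Ult B, h.V (em q') → ∀ t, E h t (Mdl.mk h P) →
          SatC (E h) (Mdl.mk h (RN B)) (Mdl.mk h (LN B)) (Mdl.mk h (fz em a)) t := by
      intro a ha h hh t ht
      refine forall_mem (P := fun h t => E h t (Mdl.mk h P) →
        SatC (E h) (Mdl.mk h (RN B)) (Mdl.mk h (LN B)) (Mdl.mk h (fz em a)) t) _ _ ?_
        (clop_V (em q')) ?_ h hh t (hS2 h hh t ht) ht
      · repeat' first
          | exact BMap.id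
          | apply BMap.fst
          | apply BMap.snd
          | exact BTerm.const _
          | apply bterm_opair
          | apply BTerm.of
          | apply BPred.mem
          | apply BPred.eq
          | apply bp_has2
          | apply bp_has3
          | apply bp_isTuple3
          | apply bp_eq_pr
          | apply bp_isPair
          | apply bp_isUPair
          | apply bp_isFun
          | apply bp_injects
          | apply bp_satC
          | apply BPred.not
          | apply BPred.and
          | apply BPred.or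
          | apply BPred.iff
          | apply BPred.imp
          | refine BPred.ex ?_
          | refine BPred.all ?_
          | exact BPred.const _
      · intro h hh i _ hiP
        obtain ⟨-, -, h2⟩ := hp' h (h.mono (hem.mono _ _ (hq'r.trans hr1)) hh)
        have h3 := h2 _ hiP
        rw [satC_fz] at h3
        rw [satC_fz]
        have haF : a ∈ q.F := by
          obtain ⟨n, rfl⟩ := ha.1
          exact hzF n
        have h4 : a ∈ i.1.1 ↔ z0 ∈ i.1.1 := by
          have h5 := ha.2 _ ⟨i.1, i.2, rfl⟩
          simp only [Set.mem_inter_iff, haF, hz0, and_true] at h5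
          exact h5
        simp only [h4]
        exact h3
    refine ⟨q', hq'r.trans hr1, fun h hh => ?_⟩
    have hhq := h.mono (hem.mono _ _ hq'q) hh
    obtain ⟨m, rfl⟩ := hw1.1
    obtain ⟨n, rfl⟩ := hw2.1
    have hmn : m ≠ n := fun h => hww (by rw [h])
    by_cases heq : Mdl.mk h (fz em (z m)) = Mdl.mk h (fz em z0)
    · refine ⟨Mdl.mk h (fz em (z n)), hzD n h hhq, fun h1 => hne' m n hmn h hhq ?_,
        hsat _ hw2 h hh⟩
      rw [heq, h1]
    · exact ⟨Mdl.mk h (fz em (z m)), hzD m h hhq, heq, hsat _ hw1 h hh⟩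

theorem isCC [Uncountable I] (hem : DenseEmb em) (h : Ult B) {C W V : Mdl h}
    (hC : IsCp (E h) (Mdl.mk h (omN B)) (Mdl.mk h (RN B)) (Mdl.mk h (LN B))
      (Mdl.mk h (chk (yv em))) (Mdl.mk h (TN (yv em))) C W)
    (hV : IsSubTop (E h) W (Mdl.mk h (SN em)) V) :
    IsCCIn (E h) (Mdl.mk h (omN B)) (Mdl.mk h (SN em)) V (Mdl.mk h (SN em)) := by
  intro D hD hfin
  obtain ⟨D, rfl⟩ := D.exists_rep
  obtain ⟨s, hs, hs'⟩ := imp_of_fo hem (Q := fun h => Sub (E h) (Mdl.mk h D) (Mdl.mk h (SN em)) ∧
      ¬ IsFin (E h) (Mdl.mk h (omN B)) (Mdl.mk h D))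
    (R := fun h => ∃ s, E h s (Mdl.mk h (SN em)) ∧ ∀ P,
      IsFin (E h) (Mdl.mk h (omN B)) P → (∀ t, E h t P → SatC (E h) (Mdl.mk h (RN B))
        (Mdl.mk h (LN B)) s t) → ∃ d, E h d (Mdl.mk h D) ∧ d ≠ s ∧ ∀ t, E h t P →
          SatC (E h) (Mdl.mk h (RN B)) (Mdl.mk h (LN B)) d t) (by
      refine BPred.clop (P := fun h (_ : PUnit.{1}) => Sub (E h) (Mdl.mk h D) (Mdl.mk h (SN em)) ∧
        ¬ IsFin (E h) (Mdl.mk h (omN B)) (Mdl.mk h D)) ?_ PUnit.unit
      repeat' first
        | exact BMap.id
        | apply BMap.fst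
        | apply BMap.snd
        | exact BTerm.const _
        | apply bterm_opair
        | apply BTerm.of
        | apply BPred.mem
        | apply BPred.eq
        | apply bp_has2
        | apply bp_has3
        | apply bp_isTuple3
        | apply bp_eq_pr
        | apply bp_isPair
        | apply bp_isUPair
        | apply bp_isFun
        | apply bp_injects
        | apply bp_sub
        | apply bp_isFin
        | apply BPred.not
        | apply BPred.and
        | apply BPred.or
        | apply BPred.iff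
        | apply BPred.imp
        | refine BPred.ex ?_
        | refine BPred.all ?_
        | exact BPred.const _
      ) (by
      refine BPred.clop (P := fun h (_ : PUnit.{1}) => ∃ s, E h s (Mdl.mk h (SN em)) ∧ ∀ P,
        IsFin (E h) (Mdl.mk h (omN B)) P → (∀ t, E h t P → SatC (E h) (Mdl.mk h (RN B))
        (Mdl.mk h (LN B)) s t) → ∃ d, E h d (Mdl.mk h D) ∧ d ≠ s ∧ ∀ t, E h t P →
          SatC (E h) (Mdl.mk h (RN B)) (Mdl.mk h (LN B)) d t) ?_ PUnit.unit
      repeat' first
        | exact BMap.id
        | apply BMap.fst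
        | apply BMap.snd
        | exact BTerm.const _
        | apply bterm_opair
        | apply BTerm.of
        | apply BPred.mem
        | apply BPred.eq
        | apply bp_has2
        | apply bp_has3
        | apply bp_isTuple3
        | apply bp_eq_pr
        | apply bp_isPair
        | apply bp_isUPair
        | apply bp_isFun
        | apply bp_injects
        | apply bp_sub
        | apply bp_isFin
        | apply bp_satC
        | apply BPred.not
        | apply BPred.and
        | apply BPred.or
        | apply BPred.iff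
        | apply BPred.imp
        | refine BPred.ex ?_
        | refine BPred.all ?_
        | exact BPred.const _
      ) (fun p hp => cc_fo hem hp) h ⟨hD, hfin⟩
  refine ⟨s, hs, fun U hU hsU => ?_⟩
  obtain ⟨U', hU', hUU'⟩ := (hV U).1 hU
  obtain ⟨-, h1⟩ := (hC.2 U').1 hU'
  obtain ⟨P, hP, hsP, hP'⟩ := h1 s ((hUU' s).1 hsU).1
  obtain ⟨d, hd, hds, hdP⟩ := hs' P hP hsP
  have hdS := hD d hd
  refine ⟨d, hd, (hUU' d).2 ⟨hP' d ((hC.1 d).2 ?_) hdP, hdS⟩, hds⟩
  refine forall_mem' (P := fun h d => IsCR (E h) (Mdl.mk h (RN B)) (Mdl.mk h (LN B))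
    (Mdl.mk h (chk (yv em))) (Mdl.mk h (TN (yv em))) d) _ _ ?_ ?_ h d hdS
  · repeat' first
      | exact BMap.id
      | apply BMap.fst
      | apply BMap.snd
      | exact BTerm.const _
      | apply bterm_opair
      | apply BTerm.of
      | apply BPred.mem
      | apply BPred.eq
      | apply bp_has2
      | apply bp_has3
      | apply bp_isTuple3
      | apply bp_eq_pr
      | apply bp_isPair
      | apply bp_isUPair
      | apply bp_isFun
      | apply bp_injects
      | apply bp_isCR
      | apply BPred.not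
      | apply BPred.and
      | apply BPred.or
      | apply BPred.iff
      | apply BPred.imp
      | refine BPred.ex ?_
      | refine BPred.all ?_
      | exact BPred.const _
  · intro h z _
    exact isCR_chN _ _ h

end Pool.Agent.MP7e7dde
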