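import Pool.Agent.MP_7e7dde_gt.GrothA

/-! The generic space is not Grothendieck. -/

set_option linter.unusedVariables false
set_option linter.unusedSectionVars false
set_option linter.unreachableTactic false
set_option linter.unusedTactic false

namespace Pool.Agent.MP7e7dde

open BVM BName SetModel MP63050e

variable {B : Type} [CompleteBooleanAlgebra B] {I : Type} {em : Cond I → B}

/-- The name of the product of the generic space and the real line. -/
noncomputable def PN (em : Cond I → B) : BName B :=
  BName.mk (Set I × ℝ) (fun t => opair (nm t.1) (nm t.2)) (fun t => yv em t.1)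

theorem mem_PN {h : Ult B} : ∀ x, E h x (Mdl.mk h (chk (yv em))) → ∀ a, E h a (Mdl.mk h (RN B)) →
    ∀ s, s = pr h x a → E h s (Mdl.mk h (PN em)) := by
  refine forall_chk (yv em) (P := fun h x => ∀ a, E h a (Mdl.mk h (RN B)) →
    ∀ s, s = pr h x a → E h s (Mdl.mk h (PN em))) ?_ clop_true ?_ h trivial
  · repeat' first
      | exact BMap.id
      | apply BMap.fst
      | apply BMap.snd
      | exact BTerm.const _
      | apply bterm_opair
      | apply BTerm.of
      | apply BPred.mem
      | apply BPred.eq
      | apply bp_has2
      | apply bp_has3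
      | apply bp_isTuple3
      | apply bp_eq_pr
      | apply bp_isPair
      | apply bp_isUPair
      | apply bp_isFun
      | apply bp_injects
      | apply BPred.not
      | apply BPred.and
      | apply BPred.or
      | apply BPred.iff
      | apply BPred.imp
      | refine BPred.ex ?_
      | refine BPred.all ?_
      | exact BPred.const _
  · intro h _ y hy
    refine forall_chk (fun _ : ℝ => (⊤ : B)) (P := fun h a =>
      ∀ s, s = pr h (Mdl.mk h (nm y)) a → E h s (Mdl.mk h (PN em))) ?_ (clop_V (yv em y)) ?_ h hy
    · repeat' first
        | exact BMap.id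
        | apply BMap.fst
        | apply BMap.snd
        | exact BTerm.const _
        | apply bterm_opair
        | apply BTerm.of
        | apply BPred.mem
        | apply BPred.eq
        | apply bp_has2
        | apply bp_has3
        | apply bp_isTuple3
        | apply bp_eq_pr
        | apply bp_isPair
        | apply bp_isUPair
        | apply bp_isFun
        | apply bp_injects
        | apply BPred.not
        | apply BPred.and
        | apply BPred.or
        | apply BPred.iff
        | apply BPred.imp
        | refine BPred.ex ?_
        | refine BPred.all ?_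
        | exact BPred.const _
    · intro h hy a _ s hs
      subst hs
      exact E_of_coe (e := fun t : Set I × ℝ => opair (nm t.1) (nm t.2))
        (c := fun t => yv em t.1) (i := (y, a)) hy

theorem exists_CWV (em : Cond I → B) (h : Ult B) : ∃ C W V : Mdl h,
    IsCp (E h) (Mdl.mk h (omN B)) (Mdl.mk h (RN B)) (Mdl.mk h (LN B))
      (Mdl.mk h (chk (yv em))) (Mdl.mk h (TN (yv em))) C W ∧
    IsSubTop (E h) W (Mdl.mk h (SN em)) V := by
  obtain ⟨C, hC⟩ := separation_name (H := fun h : Ult B => h) (D := fun h f =>
    IsCR (E h) (Mdl.mk h (RN B)) (Mdl.mk h (LN B)) (Mdl.mk h (chk (yv em)))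
      (Mdl.mk h (TN (yv em))) f) (by
      repeat' first
        | exact BMap.id
        | apply BMap.fst
        | apply BMap.snd
        | exact BTerm.const _
        | apply bterm_opair
        | apply BTerm.of
        | apply BPred.mem
        | apply BPred.eq
        | apply bp_has2
        | apply bp_has3
        | apply bp_isTuple3
        | apply bp_eq_pr
        | apply bp_isPair
        | apply bp_isUPair
        | apply bp_isFun
        | apply bp_injects
        | apply bp_isCR
        | apply BPred.not
        | apply BPred.and
        | apply BPred.or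
        | apply BPred.iff
        | apply BPred.imp
        | refine BPred.ex ?_
        | refine BPred.all ?_
        | exact BPred.const _
      ) (spow (PN em))
  obtain ⟨W, hW⟩ := separation_name (H := fun h : Ult B => h) (D := fun h O =>
    IsPtOpen (E h) (Mdl.mk h (omN B)) (Mdl.mk h (RN B)) (Mdl.mk h (LN B)) (Mdl.mk h C) O) (by
      repeat' first
        | exact BMap.id
        | apply BMap.fst
        | apply BMap.snd
        | exact BTerm.const _
        | apply bterm_opair
        | apply BTerm.of
        | apply BPred.mem
        | apply BPred.eq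
        | apply bp_has2
        | apply bp_has3
        | apply bp_isTuple3
        | apply bp_eq_pr
        | apply bp_isPair
        | apply bp_isUPair
        | apply bp_isFun
        | apply bp_injects
        | apply bp_isPtOpen
        | apply BPred.not
        | apply BPred.and
        | apply BPred.or
        | apply BPred.iff
        | apply BPred.imp
        | refine BPred.ex ?_
        | refine BPred.all ?_
        | exact BPred.const _
      ) (spow C)
  obtain ⟨V, hV⟩ := separation_name (H := fun h : Ult B => h) (D := fun h O =>
    ∃ U, E h U (Mdl.mk h W) ∧ ∀ z, E h z O ↔ E h z U ∧ E h z (Mdl.mk h (SN em))) (by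
      repeat' first
        | exact BMap.id
        | apply BMap.fst
        | apply BMap.snd
        | exact BTerm.const _
        | apply bterm_opair
        | apply BTerm.of
        | apply BPred.mem
        | apply BPred.eq
        | apply bp_has2
        | apply bp_has3
        | apply bp_isTuple3
        | apply bp_eq_pr
        | apply bp_isPair
        | apply bp_isUPair
        | apply bp_isFun
        | apply bp_injects
        | apply BPred.not
        | apply BPred.and
        | apply BPred.or
        | apply BPred.iff
        | apply BPred.imp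
        | refine BPred.ex ?_
        | refine BPred.all ?_
        | exact BPred.const _
      ) (spow (SN em))
  refine ⟨Mdl.mk h C, Mdl.mk h W, Mdl.mk h V, ⟨fun f => ?_, fun O => ?_⟩, fun O => ?_⟩
  · rw [hC]
    refine ⟨fun H => H.2, fun H => ⟨subset_mem_spow h _ _ fun p hp => ?_, H⟩⟩
    obtain ⟨a, b, ha, hb, hab⟩ := H.1.1 p hp
    rw [isPair_iff] at hab
    exact mem_PN a ha b hb p hab
  · rw [hW]
    exact ⟨fun H => H.2, fun H => ⟨subset_mem_spow h _ _ H.1, H⟩⟩
  · rw [hV]
    refine ⟨fun H => H.2, fun H => ⟨subset_mem_spow h _ _ fun z hz => ?_, H⟩⟩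
    obtain ⟨U, -, hU⟩ := H
    exact ((hU z).1 hz).2

/-- The name of the set of the evaluations at the elements of `y`. -/
noncomputable def OY (em : Cond I → B) (y : Set I) : BName B :=
  BName.mk I (fz em) (fun z => tv B (z ∈ y))

/-- The name of the constraint. -/
noncomputable def tY (y : Set I) : BName B := opair (nm y) (opair (nm (1 / 2 : ℝ)) (nm (2 : ℝ)))

theorem satC_tY {h : Ult B} {y : Set I} {z : I} :
    SatC (E h) (Mdl.mk h (RN B)) (Mdl.mk h (LN B)) (Mdl.mk h (fz em z)) (Mdl.mk h (tY y)) ↔
      h.V (yv em y) ∧ z ∈ y := by
  classical
  rw [tY, satC_fz]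
  refine and_congr_right fun _ => ?_
  by_cases hz : z ∈ y
  · simp only [hz, if_true, iff_true]
    norm_num
  · simp only [hz, if_false, iff_false]
    norm_num

theorem OY_open {h : Ult B} {C W V : Mdl h}
    (hC : IsCp (E h) (Mdl.mk h (omN B)) (Mdl.mk h (RN B)) (Mdl.mk h (LN B))
      (Mdl.mk h (chk (yv em))) (Mdl.mk h (TN (yv em))) C W)
    (hV : IsSubTop (E h) W (Mdl.mk h (SN em)) V) {y : Set I} (hy : h.V (yv em y)) :
    E h (Mdl.mk h (OY em y)) V := by
  obtain ⟨C, rfl⟩ := C.exists_rep
  obtain ⟨U, hU⟩ := separation_name (H := fun h : Ult B => h) (D := fun h f =>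
    SatC (E h) (Mdl.mk h (RN B)) (Mdl.mk h (LN B)) f (Mdl.mk h (tY y))) (by
      repeat' first
        | exact BMap.id
        | apply BMap.fst
        | apply BMap.snd
        | exact BTerm.const _
        | apply bterm_opair
        | apply BTerm.of
        | apply BPred.mem
        | apply BPred.eq
        | apply bp_has2
        | apply bp_has3
        | apply bp_isTuple3
        | apply bp_eq_pr
        | apply bp_isPair
        | apply bp_isUPair
        | apply bp_isFun
        | apply bp_injects
        | apply bp_satC
        | apply BPred.not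
        | apply BPred.and
        | apply BPred.or
        | apply BPred.iff
        | apply BPred.imp
        | refine BPred.ex ?_
        | refine BPred.all ?_
        | exact BPred.const _
      ) C
  have hU' : ∀ z, E h z (Mdl.mk h U) ↔ E h z (Mdl.mk h C) ∧ SatC (E h) (Mdl.mk h (RN B))
    (Mdl.mk h (LN B)) z (Mdl.mk h (tY y)) := hU h
  refine (hV _).2 ⟨Mdl.mk h U, (hC.2 _).2 ⟨fun z hz => ((hU' z).1 hz).1, fun g hg => ?_⟩,
    fun z => ⟨fun hz => ?_, fun hz => ?_⟩⟩
  · have hP : ∀ t, E h t (Mdl.mk h (BName.mk ({y} : Set (Set I)) (fun i => tY i.1)
        (fun _ => ⊤))) → t = Mdl.mk h (tY y) := by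
      refine forall_mem' (P := fun h t => t = Mdl.mk h (tY y)) _ _ ?_ ?_ h
      · repeat' first
          | exact BMap.id
          | apply BMap.fst
          | apply BMap.snd
          | exact BTerm.const _
          | apply bterm_opair
          | apply BTerm.of
          | apply BPred.mem
          | apply BPred.eq
          | apply bp_has2
          | apply bp_has3
          | apply bp_isTuple3
          | apply bp_eq_pr
          | apply bp_isPair
          | apply bp_isUPair
          | apply bp_isFun
          | apply bp_injects
          | apply BPred.not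
          | apply BPred.and
          | apply BPred.or
          | apply BPred.iff
          | apply BPred.imp
          | refine BPred.ex ?_
          | refine BPred.all ?_
          | exact BPred.const _
      · rintro h ⟨i, hi⟩ _
        obtain rfl : i = y := hi
        rfl
    refine ⟨Mdl.mk h (BName.mk ({y} : Set (Set I)) (fun i => tY i.1) (fun _ => ⊤)),
      isFin_of_finite (Set.finite_singleton y) tY (fun z hz => hz), fun t ht => ?_,
      fun f hf hsat => ?_⟩
    · rw [hP t ht]
      exact ((hU' g).1 hg).2
    · exact (hU' f).2 ⟨hf, hsat _ (E_of_coe (e := fun i : ({y} : Set (Set I)) => tY i.1)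
        (i := ⟨y, rfl⟩) h.top')⟩
  · have h1 := forall_mem (P := fun h z => (IsCR (E h) (Mdl.mk h (RN B)) (Mdl.mk h (LN B))
        (Mdl.mk h (chk (yv em))) (Mdl.mk h (TN (yv em))) z ∧ SatC (E h) (Mdl.mk h (RN B))
        (Mdl.mk h (LN B)) z (Mdl.mk h (tY y))) ∧ E h z (Mdl.mk h (SN em))) (fz em)
        (fun z => tv B (z ∈ y)) (by
        repeat' first
          | exact BMap.id
          | apply BMap.fst
          | apply BMap.snd
          | exact BTerm.const _
          | apply bterm_opair
          | apply BTerm.of
          | apply BPred.mem
          | apply BPred.eq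
          | apply bp_has2
          | apply bp_has3
          | apply bp_isTuple3
          | apply bp_eq_pr
          | apply bp_isPair
          | apply bp_isUPair
          | apply bp_isFun
          | apply bp_injects
          | apply bp_isCR
          | apply bp_satC
          | apply BPred.not
          | apply BPred.and
          | apply BPred.or
          | apply BPred.iff
          | apply BPred.imp
          | refine BPred.ex ?_
          | refine BPred.all ?_
          | exact BPred.const _
        ) (clop_V (yv em y)) (by
        intro h hy i hi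
        rw [V_tv] at hi
        exact ⟨⟨isCR_chN _ _ h, satC_tY.2 ⟨hy, hi⟩⟩, E_SN i⟩) h hy z hz
    exact ⟨(hU' z).2 ⟨(hC.1 z).2 h1.1.1, h1.1.2⟩, h1.2⟩
  · have h1 := ((hU' z).1 hz.1).2
    refine forall_mem' (P := fun h z => SatC (E h) (Mdl.mk h (RN B)) (Mdl.mk h (LN B)) z
      (Mdl.mk h (tY y)) → E h z (Mdl.mk h (OY em y))) _ _ ?_ ?_ h z hz.2 h1
    · repeat' first
        | exact BMap.id
        | apply BMap.fst
        | apply BMap.snd
        | exact BTerm.const _
        | apply bterm_opair
        | apply BTerm.of
        | apply BPred.mem
        | apply BPred.eq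
        | apply bp_has2
        | apply bp_has3
        | apply bp_isTuple3
        | apply bp_eq_pr
        | apply bp_isPair
        | apply bp_isUPair
        | apply bp_isFun
        | apply bp_injects
        | apply bp_satC
        | apply BPred.not
        | apply BPred.and
        | apply BPred.or
        | apply BPred.iff
        | apply BPred.imp
        | refine BPred.ex ?_
        | refine BPred.all ?_
        | exact BPred.const _
    · intro h i _ hi
      rw [satC_tY] at hi
      exact E_of_coe (e := fz em) (c := fun z => tv B (z ∈ y)) (i := i) ((V_tv h _).2 hi.2)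

theorem OY_cover [Uncountable I] (hem : DenseEmb em) {h : Ult B} :
    ∀ x, E h x (Mdl.mk h (SN em)) → ∃ U, E h U (Mdl.mk h (BName.mk (Set I) (OY em) (yv em))) ∧
      E h x U := by
  refine forall_mem' (P := fun h x => ∃ U, E h U (Mdl.mk h (BName.mk (Set I) (OY em) (yv em))) ∧
      E h x U) _ _ ?_ ?_ h
  · repeat' first
      | exact BMap.id
      | apply BMap.fst
      | apply BMap.snd
      | exact BTerm.const _
      | apply bterm_opair
      | apply BTerm.of
      | apply BPred.mem
      | apply BPred.eq
      | apply bp_has2
      | apply bp_has3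
      | apply bp_isTuple3
      | apply bp_eq_pr
      | apply bp_isPair
      | apply bp_isUPair
      | apply bp_isFun
      | apply bp_injects
      | apply BPred.not
      | apply BPred.and
      | apply BPred.or
      | apply BPred.iff
      | apply BPred.imp
      | refine BPred.ex ?_
      | refine BPred.all ?_
      | exact BPred.const _
  · intro h z _
    refine imp_of_fo hem (Q := fun _ => True) (R := fun h => ∃ U, E h U (Mdl.mk h
      (BName.mk (Set I) (OY em) (yv em))) ∧ E h (Mdl.mk h (fz em z)) U) clop_true ?_ ?_ h trivial
    · refine BPred.clop (P := fun h (_ : PUnit.{1}) => ∃ U, E h U (Mdl.mk h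
        (BName.mk (Set I) (OY em) (yv em))) ∧ E h (Mdl.mk h (fz em z)) U) ?_ PUnit.unit
      repeat' first
        | exact BMap.id
        | apply BMap.fst
        | apply BMap.snd
        | exact BTerm.const _
        | apply bterm_opair
        | apply BTerm.of
        | apply BPred.mem
        | apply BPred.eq
        | apply bp_has2
        | apply bp_has3
        | apply bp_isTuple3
        | apply bp_eq_pr
        | apply bp_isPair
        | apply bp_isUPair
        | apply bp_isFun
        | apply bp_injects
        | apply BPred.not
        | apply BPred.and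
        | apply BPred.or
        | apply BPred.iff
        | apply BPred.imp
        | refine BPred.ex ?_
        | refine BPred.all ?_
        | exact BPred.const _
    · intro p _
      obtain ⟨q, hqp, hz⟩ := p.exists_add_finite (Set.finite_singleton z)
      obtain ⟨y, hy, hzy⟩ := q.cov z (hz rfl)
      exact ⟨q, hqp, fun h hh => ⟨Mdl.mk h (OY em y), E_of_coe (e := OY em) (c := yv em) (i := y)
        (yv_of hy h hh), E_of_coe (e := fz em) (c := fun z => tv B (z ∈ y)) (i := z)
        ((V_tv h _).2 hzy)⟩⟩

theorem mem_of_OY {h : Ult B} {y : Set I} (hy : h.V (yv em y)) {z : I}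
    (hz : E h (Mdl.mk h (fz em z)) (Mdl.mk h (OY em y))) : z ∈ y := by
  have h1 := forall_mem (P := fun h z => SatC (E h) (Mdl.mk h (RN B))
        (Mdl.mk h (LN B)) z (Mdl.mk h (tY y))) (fz em) (fun z => tv B (z ∈ y)) (by
        repeat' first
          | exact BMap.id
          | apply BMap.fst
          | apply BMap.snd
          | exact BTerm.const _
          | apply bterm_opair
          | apply BTerm.of
          | apply BPred.mem
          | apply BPred.eq
          | apply bp_has2
          | apply bp_has3
          | apply bp_isTuple3
          | apply bp_eq_pr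
          | apply bp_isPair
          | apply bp_isUPair
          | apply bp_isFun
          | apply bp_injects
          | apply bp_satC
          | apply BPred.not
          | apply BPred.and
          | apply BPred.or
          | apply BPred.iff
          | apply BPred.imp
          | refine BPred.ex ?_
          | refine BPred.all ?_
          | exact BPred.const _
        ) (clop_V (yv em y)) (by
        intro h hy i hi
        rw [V_tv] at hi
        exact satC_tY.2 ⟨hy, hi⟩) h hy _ hz
  exact (satC_tY.1 h1).2

theorem not_cpt [Uncountable I] (hem : DenseEmb em) (h : Ult B) {C W V : Mdl h}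
    (hC : IsCp (E h) (Mdl.mk h (omN B)) (Mdl.mk h (RN B)) (Mdl.mk h (LN B))
      (Mdl.mk h (chk (yv em))) (Mdl.mk h (TN (yv em))) C W)
    (hV : IsSubTop (E h) W (Mdl.mk h (SN em)) V) :
    ¬ IsCpt (E h) (Mdl.mk h (omN B)) V (Mdl.mk h (SN em)) := by
  intro H
  obtain ⟨C, rfl⟩ := C.exists_rep
  obtain ⟨W, rfl⟩ := W.exists_rep
  obtain ⟨V, rfl⟩ := V.exists_rep
  have hsub : Sub (E h) (Mdl.mk h (BName.mk (Set I) (OY em) (yv em))) (Mdl.mk h V) := by
    refine forall_mem (P := fun h O => E h O (Mdl.mk h V)) _ _ ?_ (Q := fun h =>
      IsCp (E h) (Mdl.mk h (omN B)) (Mdl.mk h (RN B)) (Mdl.mk h (LN B))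
      (Mdl.mk h (chk (yv em))) (Mdl.mk h (TN (yv em))) (Mdl.mk h C) (Mdl.mk h W) ∧
      IsSubTop (E h) (Mdl.mk h W) (Mdl.mk h (SN em)) (Mdl.mk h V)) ?_ ?_ h ⟨hC, hV⟩
    · repeat' first
        | exact BMap.id
        | apply BMap.fst
        | apply BMap.snd
        | exact BTerm.const _
        | apply bterm_opair
        | apply BTerm.of
        | apply BPred.mem
        | apply BPred.eq
        | apply bp_has2
        | apply bp_has3
        | apply bp_isTuple3
        | apply bp_eq_pr
        | apply bp_isPair
        | apply bp_isUPair
        | apply bp_isFun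
        | apply bp_injects
        | apply BPred.not
        | apply BPred.and
        | apply BPred.or
        | apply BPred.iff
        | apply BPred.imp
        | refine BPred.ex ?_
        | refine BPred.all ?_
        | exact BPred.const _
    · refine BPred.clop (P := fun h (_ : PUnit.{1}) =>
        IsCp (E h) (Mdl.mk h (omN B)) (Mdl.mk h (RN B)) (Mdl.mk h (LN B))
        (Mdl.mk h (chk (yv em))) (Mdl.mk h (TN (yv em))) (Mdl.mk h C) (Mdl.mk h W) ∧
        IsSubTop (E h) (Mdl.mk h W) (Mdl.mk h (SN em)) (Mdl.mk h V)) ?_ PUnit.unit
      repeat' first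
        | exact BMap.id
        | apply BMap.fst
        | apply BMap.snd
        | exact BTerm.const _
        | apply bterm_opair
        | apply BTerm.of
        | apply BPred.mem
        | apply BPred.eq
        | apply bp_has2
        | apply bp_has3
        | apply bp_isTuple3
        | apply bp_eq_pr
        | apply bp_isPair
        | apply bp_isUPair
        | apply bp_isFun
        | apply bp_injects
        | apply bp_isCp
        | apply bp_isSubTop
        | apply BPred.not
        | apply BPred.and
        | apply BPred.or
        | apply BPred.iff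
        | apply BPred.imp
        | refine BPred.ex ?_
        | refine BPred.all ?_
        | exact BPred.const _
    · intro h hQ y hy
      exact OY_open hQ.1 hQ.2 hy
  obtain ⟨A, hA, hAf, hAc⟩ := H _ hsub (OY_cover hem)
  obtain ⟨A, rfl⟩ := A.exists_rep
  refine imp_of_fo hem (Q := fun h => Sub (E h) (Mdl.mk h A) (Mdl.mk h (BName.mk (Set I) (OY em)
      (yv em))) ∧ IsFin (E h) (Mdl.mk h (omN B)) (Mdl.mk h A) ∧ ∀ x, E h x (Mdl.mk h (SN em)) →
      ∃ U, E h U (Mdl.mk h A) ∧ E h x U) (R := fun h => False) ?_ ?_ ?_ h ⟨hA, hAf, hAc⟩
  · refine BPred.clop (P := fun h (_ : PUnit.{1}) => Sub (E h) (Mdl.mk h A) (Mdl.mk h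
      (BName.mk (Set I) (OY em)
      (yv em))) ∧ IsFin (E h) (Mdl.mk h (omN B)) (Mdl.mk h A) ∧ ∀ x, E h x (Mdl.mk h (SN em)) →
      ∃ U, E h U (Mdl.mk h A) ∧ E h x U) ?_ PUnit.unit
    repeat' first
      | exact BMap.id
      | apply BMap.fst
      | apply BMap.snd
      | exact BTerm.const _
      | apply bterm_opair
      | apply BTerm.of
      | apply BPred.mem
      | apply BPred.eq
      | apply bp_has2
      | apply bp_has3
      | apply bp_isTuple3
      | apply bp_eq_pr
      | apply bp_isPair
      | apply bp_isUPair
      | apply bp_isFun
      | apply bp_injects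
      | apply bp_sub
      | apply bp_isFin
      | apply BPred.not
      | apply BPred.and
      | apply BPred.or
      | apply BPred.iff
      | apply BPred.imp
      | refine BPred.ex ?_
      | refine BPred.all ?_
      | exact BPred.const _
  · exact ⟨⊥, fun h => ⟨fun H => H.elim, fun H => (h.bot H).elim⟩⟩
  · clear hA hAf hAc hsub H hC hV h
    intro p hp
    exfalso
    obtain ⟨q, hqp, S, hS, hS1, hS2⟩ := fin_dec hem sc_cond (ι := Set I) (OY em) (yv em) A
      (p := p) (hp.imp fun h hh => ⟨hh.2.1, hh.1⟩)
    have hctbl : (⋃ y ∈ S, y).Countable := by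
      refine hS.countable.biUnion fun y hy => ?_
      obtain ⟨r, hr, hyr⟩ := exists_of_yv hem (p := q) (y := y) (fun h hh => (hS1 y hy h hh).1)
      exact r.F_ctbl.mono (r.sub y hyr)
    obtain ⟨z, hz⟩ : ∃ z, z ∉ ⋃ y ∈ S, y := by
      by_contra hcon
      push Not at hcon
      exact Set.not_countable_univ_iff.2 ‹_› (hctbl.mono fun x _ => hcon x)
    obtain ⟨h, hh⟩ := Ult.exists_of_ne_bot (hem.ne_bot q)
    obtain ⟨U, hUA, hzU⟩ := (hp h (h.mono (hem.mono _ _ hqp) hh)).2.2 _ (E_SN z)
    refine forall_mem (P := fun h U => ¬ E h (Mdl.mk h (fz em z)) U) _ _ ?_ (clop_V (em q)) ?_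
      h hh U (hS2 h hh U hUA) hzU
    · repeat' first
        | exact BMap.id
        | apply BMap.fst
        | apply BMap.snd
        | exact BTerm.const _
        | apply bterm_opair
        | apply BTerm.of
        | apply BPred.mem
        | apply BPred.eq
        | apply bp_has2
        | apply bp_has3
        | apply bp_isTuple3
        | apply bp_eq_pr
        | apply bp_isPair
        | apply bp_isUPair
        | apply bp_isFun
        | apply bp_injects
        | apply BPred.not
        | apply BPred.and
        | apply BPred.or
        | apply BPred.iff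
        | apply BPred.imp
        | refine BPred.ex ?_
        | refine BPred.all ?_
        | exact BPred.const _
    · intro h hh i _ hi
      exact hz (Set.mem_iUnion₂.2 ⟨i.1, i.2, mem_of_OY (hS1 _ i.2 h hh).1 hi⟩)

theorem not_groth [Uncountable I] (hem : DenseEmb em) (h : Ult B) :
    ¬ IsGroth (E h) (Mdl.mk h (omN B)) (Mdl.mk h (RN B)) (Mdl.mk h (LN B))
      (Mdl.mk h (chk (yv em))) (Mdl.mk h (TN (yv em))) := by
  intro H
  obtain ⟨C, W, V, hC, hV⟩ := exists_CWV em h
  have hSC : Sub (E h) (Mdl.mk h (SN em)) C := by
    intro d hd
    refine (hC.1 d).2 ?_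
    refine forall_mem' (P := fun h d => IsCR (E h) (Mdl.mk h (RN B)) (Mdl.mk h (LN B))
      (Mdl.mk h (chk (yv em))) (Mdl.mk h (TN (yv em))) d) _ _ ?_ ?_ h d hd
    · repeat' first
        | exact BMap.id
        | apply BMap.fst
        | apply BMap.snd
        | exact BTerm.const _
        | apply bterm_opair
        | apply BTerm.of
        | apply BPred.mem
        | apply BPred.eq
        | apply bp_has2
        | apply bp_has3
        | apply bp_isTuple3
        | apply bp_eq_pr
        | apply bp_isPair
        | apply bp_isUPair
        | apply bp_isFun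
        | apply bp_injects
        | apply bp_isCR
        | apply BPred.not
        | apply BPred.and
        | apply BPred.or
        | apply BPred.iff
        | apply BPred.imp
        | refine BPred.ex ?_
        | refine BPred.all ?_
        | exact BPred.const _
    · intro h z _
      exact isCR_chN _ _ h
  exact not_cpt hem h hC hV (H C W hC _ V hSC hV _ (fun z hz => hz) (isCC hem h hC hV) _
    (fun x => ⟨fun hx => ⟨hx, fun U hU hxU => ⟨x, hx, hxU⟩⟩, fun hx => hx.1⟩))

end Pool.Agent.MP7e7dde
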