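import Pool.Agent.MP_7e7dde_gt.Names

/-! The check name of the real line is the real line of the Boolean valued model of a countably
closed forcing. -/

set_option linter.unusedVariables false
set_option linter.unusedSectionVars false
set_option linter.unreachableTactic false
set_option linter.unusedTactic false

namespace Pool.Agent.MP7e7dde

open BVM BName SetModel MP63050e

variable {B : Type} [CompleteBooleanAlgebra B]

/-! ### Linear order -/

theorem real_irrefl (h : Ult B) (a : Mdl h) : ¬ Has (E h) (Mdl.mk h (LN B)) [a, a] := by
  intro H
  refine forall_mem' (P := fun h a => ¬ Has (E h) (Mdl.mk h (LN B)) [a, a]) nm _ ?_ ?_ h a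
    (has_rel_mem H).1 H
  · repeat' first
      | exact BMap.id
      | apply BMap.fst
      | apply BMap.snd
      | exact BTerm.const _
      | apply bterm_opair
      | apply BTerm.of
      | apply BPred.mem
      | apply BPred.eq
      | apply bp_has2
      | apply bp_has3
      | apply bp_isTuple3
      | apply bp_eq_pr
      | apply bp_isPair
      | apply bp_isUPair
      | apply bp_isFun
      | apply bp_injects
      | apply BPred.not
      | apply BPred.and
      | apply BPred.or
      | apply BPred.iff
      | apply BPred.imp
      | refine BPred.ex ?_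
      | refine BPred.all ?_
      | exact BPred.const _
  · intro h x _ H
    rw [has_LN] at H
    exact lt_irrefl _ H

theorem real_trans (h : Ult B) (a b c : Mdl h) (hab : Has (E h) (Mdl.mk h (LN B)) [a, b])
    (hbc : Has (E h) (Mdl.mk h (LN B)) [b, c]) : Has (E h) (Mdl.mk h (LN B)) [a, c] := by
  refine forall_mem' (P := fun h a => ∀ b c, Has (E h) (Mdl.mk h (LN B)) [a, b] →
    Has (E h) (Mdl.mk h (LN B)) [b, c] → Has (E h) (Mdl.mk h (LN B)) [a, c]) nm _ ?_ ?_ h a
    (has_rel_mem hab).1 b c hab hbc
  · repeat' first
      | exact BMap.id
      | apply BMap.fst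
      | apply BMap.snd
      | exact BTerm.const _
      | apply bterm_opair
      | apply BTerm.of
      | apply BPred.mem
      | apply BPred.eq
      | apply bp_has2
      | apply bp_has3
      | apply bp_isTuple3
      | apply bp_eq_pr
      | apply bp_isPair
      | apply bp_isUPair
      | apply bp_isFun
      | apply bp_injects
      | apply BPred.not
      | apply BPred.and
      | apply BPred.or
      | apply BPred.iff
      | apply BPred.imp
      | refine BPred.ex ?_
      | refine BPred.all ?_
      | exact BPred.const _
  · intro h x _ b c hab hbc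
    refine forall_mem' (P := fun h b => ∀ c, Has (E h) (Mdl.mk h (LN B)) [Mdl.mk h (nm x), b] →
      Has (E h) (Mdl.mk h (LN B)) [b, c] → Has (E h) (Mdl.mk h (LN B)) [Mdl.mk h (nm x), c])
      nm _ ?_ ?_ h b (has_rel_mem hab).2 c hab hbc
    · repeat' first
        | exact BMap.id
        | apply BMap.fst
        | apply BMap.snd
        | exact BTerm.const _
        | apply bterm_opair
        | apply BTerm.of
        | apply BPred.mem
        | apply BPred.eq
        | apply bp_has2
        | apply bp_has3
        | apply bp_isTuple3
        | apply bp_eq_pr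
        | apply bp_isPair
        | apply bp_isUPair
        | apply bp_isFun
        | apply bp_injects
        | apply BPred.not
        | apply BPred.and
        | apply BPred.or
        | apply BPred.iff
        | apply BPred.imp
        | refine BPred.ex ?_
        | refine BPred.all ?_
        | exact BPred.const _
    · intro h y _ c hab hbc
      refine forall_mem' (P := fun h c => Has (E h) (Mdl.mk h (LN B)) [Mdl.mk h (nm x),
        Mdl.mk h (nm y)] → Has (E h) (Mdl.mk h (LN B)) [Mdl.mk h (nm y), c] →
        Has (E h) (Mdl.mk h (LN B)) [Mdl.mk h (nm x), c])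
        nm _ ?_ ?_ h c (has_rel_mem hbc).2 hab hbc
      · repeat' first
          | exact BMap.id
          | apply BMap.fst
          | apply BMap.snd
          | exact BTerm.const _
          | apply bterm_opair
          | apply BTerm.of
          | apply BPred.mem
          | apply BPred.eq
          | apply bp_has2
          | apply bp_has3
          | apply bp_isTuple3
          | apply bp_eq_pr
          | apply bp_isPair
          | apply bp_isUPair
          | apply bp_isFun
          | apply bp_injects
          | apply BPred.not
          | apply BPred.and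
          | apply BPred.or
          | apply BPred.iff
          | apply BPred.imp
          | refine BPred.ex ?_
          | refine BPred.all ?_
          | exact BPred.const _
      · intro h z _ hab hbc
        rw [has_LN] at hab hbc ⊢
        exact hab.trans hbc

theorem real_total (h : Ult B) (a b : Mdl h) (ha : E h a (Mdl.mk h (RN B)))
    (hb : E h b (Mdl.mk h (RN B))) (hne : a ≠ b) :
    Has (E h) (Mdl.mk h (LN B)) [a, b] ∨ Has (E h) (Mdl.mk h (LN B)) [b, a] := by
  refine forall_mem' (P := fun h a => ∀ b, E h b (Mdl.mk h (RN B)) → a ≠ b →
    Has (E h) (Mdl.mk h (LN B)) [a, b] ∨ Has (E h) (Mdl.mk h (LN B)) [b, a]) nm _ ?_ ?_ h a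
    ha b hb hne
  · repeat' first
      | exact BMap.id
      | apply BMap.fst
      | apply BMap.snd
      | exact BTerm.const _
      | apply bterm_opair
      | apply BTerm.of
      | apply BPred.mem
      | apply BPred.eq
      | apply bp_has2
      | apply bp_has3
      | apply bp_isTuple3
      | apply bp_eq_pr
      | apply bp_isPair
      | apply bp_isUPair
      | apply bp_isFun
      | apply bp_injects
      | apply BPred.not
      | apply BPred.and
      | apply BPred.or
      | apply BPred.iff
      | apply BPred.imp
      | refine BPred.ex ?_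
      | refine BPred.all ?_
      | exact BPred.const _
  · intro h x _ b hb hne
    refine forall_mem' (P := fun h b => Mdl.mk h (nm x) ≠ b →
      Has (E h) (Mdl.mk h (LN B)) [Mdl.mk h (nm x), b] ∨
      Has (E h) (Mdl.mk h (LN B)) [b, Mdl.mk h (nm x)]) nm _ ?_ ?_ h b hb hne
    · repeat' first
        | exact BMap.id
        | apply BMap.fst
        | apply BMap.snd
        | exact BTerm.const _
        | apply bterm_opair
        | apply BTerm.of
        | apply BPred.mem
        | apply BPred.eq
        | apply bp_has2
        | apply bp_has3
        | apply bp_isTuple3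
        | apply bp_eq_pr
        | apply bp_isPair
        | apply bp_isUPair
        | apply bp_isFun
        | apply bp_injects
        | apply BPred.not
        | apply BPred.and
        | apply BPred.or
        | apply BPred.iff
        | apply BPred.imp
        | refine BPred.ex ?_
        | refine BPred.all ?_
        | exact BPred.const _
    · intro h y _ hne
      rw [has_LN, has_LN]
      have : x ≠ y := fun he => hne (by rw [he])
      exact lt_or_gt_of_ne this

theorem real_ends (h : Ult B) (a : Mdl h) (ha : E h a (Mdl.mk h (RN B))) :
    (∃ b, E h b (Mdl.mk h (RN B)) ∧ Has (E h) (Mdl.mk h (LN B)) [a, b]) ∧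
      ∃ b, E h b (Mdl.mk h (RN B)) ∧ Has (E h) (Mdl.mk h (LN B)) [b, a] := by
  refine forall_mem' (P := fun h a => (∃ b, E h b (Mdl.mk h (RN B)) ∧
      Has (E h) (Mdl.mk h (LN B)) [a, b]) ∧
      ∃ b, E h b (Mdl.mk h (RN B)) ∧ Has (E h) (Mdl.mk h (LN B)) [b, a]) nm _ ?_ ?_ h a ha
  · repeat' first
      | exact BMap.id
      | apply BMap.fst
      | apply BMap.snd
      | exact BTerm.const _
      | apply bterm_opair
      | apply BTerm.of
      | apply BPred.mem
      | apply BPred.eq
      | apply bp_has2
      | apply bp_has3
      | apply bp_isTuple3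
      | apply bp_eq_pr
      | apply bp_isPair
      | apply bp_isUPair
      | apply bp_isFun
      | apply bp_injects
      | apply BPred.not
      | apply BPred.and
      | apply BPred.or
      | apply BPred.iff
      | apply BPred.imp
      | refine BPred.ex ?_
      | refine BPred.all ?_
      | exact BPred.const _
  · intro h x _
    refine ⟨⟨Mdl.mk h (nm (x + 1)), E_RN _, ?_⟩, ⟨Mdl.mk h (nm (x - 1)), E_RN _, ?_⟩⟩
    · rw [has_LN]; linarith
    · rw [has_LN]; linarith

/-! ### Separability -/

/-- The name of the set of the rationals. -/
noncomputable def QN (B : Type) [CompleteBooleanAlgebra B] : BName B :=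
  BName.mk ℚ (fun t => nm (t : ℝ)) (fun _ => ⊤)

theorem real_sep (h : Ult B) : ∃ D, Sub (E h) D (Mdl.mk h (RN B)) ∧
    IsCtbl (E h) (Mdl.mk h (omN B)) D ∧ ∀ a b, E h a (Mdl.mk h (RN B)) →
      E h b (Mdl.mk h (RN B)) → Has (E h) (Mdl.mk h (LN B)) [a, b] →
      ∃ d, E h d D ∧ Has (E h) (Mdl.mk h (LN B)) [a, d] ∧ Has (E h) (Mdl.mk h (LN B)) [d, b] := by
  refine ⟨Mdl.mk h (QN B), ?_, ?_, ?_⟩
  · intro z hz
    refine forall_mem' (P := fun h z => E h z (Mdl.mk h (RN B))) _ _ ?_ ?_ h z hz
    · repeat' first
        | exact BMap.id
        | apply BMap.fst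
        | apply BMap.snd
        | exact BTerm.const _
        | apply bterm_opair
        | apply BTerm.of
        | apply BPred.mem
        | apply BPred.eq
        | apply bp_has2
        | apply bp_has3
        | apply bp_isTuple3
        | apply bp_eq_pr
        | apply bp_isPair
        | apply bp_isUPair
        | apply bp_isFun
        | apply bp_injects
        | apply BPred.not
        | apply BPred.and
        | apply BPred.or
        | apply BPred.iff
        | apply BPred.imp
        | refine BPred.ex ?_
        | refine BPred.all ?_
        | exact BPred.const _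
    · intro h t _
      exact E_RN _
  · obtain ⟨f, hf⟩ := exists_surjective_nat ℚ
    refine isCtbl_seq (fun n => nm ((f n : ℚ) : ℝ)) (fun z hz => ?_)
    refine forall_mem' (P := fun h z => E h z (Mdl.mk h
      (BName.mk ℕ (fun n => nm ((f n : ℚ) : ℝ)) (fun _ => ⊤)))) _ _ ?_ ?_ h z hz
    · repeat' first
        | exact BMap.id
        | apply BMap.fst
        | apply BMap.snd
        | exact BTerm.const _
        | apply bterm_opair
        | apply BTerm.of
        | apply BPred.mem
        | apply BPred.eq
        | apply bp_has2
        | apply bp_has3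
        | apply bp_isTuple3
        | apply bp_eq_pr
        | apply bp_isPair
        | apply bp_isUPair
        | apply bp_isFun
        | apply bp_injects
        | apply BPred.not
        | apply BPred.and
        | apply BPred.or
        | apply BPred.iff
        | apply BPred.imp
        | refine BPred.ex ?_
        | refine BPred.all ?_
        | exact BPred.const _
    · intro h t _
      obtain ⟨n, rfl⟩ := hf t
      exact E_of_coe (e := fun n : ℕ => nm ((f n : ℚ) : ℝ)) (i := n) h.top'
  · intro a b ha hb hab
    refine forall_mem' (P := fun h a => ∀ b, E h b (Mdl.mk h (RN B)) →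
      Has (E h) (Mdl.mk h (LN B)) [a, b] → ∃ d, E h d (Mdl.mk h (QN B)) ∧
      Has (E h) (Mdl.mk h (LN B)) [a, d] ∧ Has (E h) (Mdl.mk h (LN B)) [d, b]) nm _ ?_ ?_ h a
      ha b hb hab
    · repeat' first
        | exact BMap.id
        | apply BMap.fst
        | apply BMap.snd
        | exact BTerm.const _
        | apply bterm_opair
        | apply BTerm.of
        | apply BPred.mem
        | apply BPred.eq
        | apply bp_has2
        | apply bp_has3
        | apply bp_isTuple3
        | apply bp_eq_pr
        | apply bp_isPair
        | apply bp_isUPair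
        | apply bp_isFun
        | apply bp_injects
        | apply BPred.not
        | apply BPred.and
        | apply BPred.or
        | apply BPred.iff
        | apply BPred.imp
        | refine BPred.ex ?_
        | refine BPred.all ?_
        | exact BPred.const _
    · intro h x _ b hb hab
      refine forall_mem' (P := fun h b => Has (E h) (Mdl.mk h (LN B)) [Mdl.mk h (nm x), b] →
        ∃ d, E h d (Mdl.mk h (QN B)) ∧
        Has (E h) (Mdl.mk h (LN B)) [Mdl.mk h (nm x), d] ∧ Has (E h) (Mdl.mk h (LN B)) [d, b])
        nm _ ?_ ?_ h b hb hab
      · repeat' first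
          | exact BMap.id
          | apply BMap.fst
          | apply BMap.snd
          | exact BTerm.const _
          | apply bterm_opair
          | apply BTerm.of
          | apply BPred.mem
          | apply BPred.eq
          | apply bp_has2
          | apply bp_has3
          | apply bp_isTuple3
          | apply bp_eq_pr
          | apply bp_isPair
          | apply bp_isUPair
          | apply bp_isFun
          | apply bp_injects
          | apply BPred.not
          | apply BPred.and
          | apply BPred.or
          | apply BPred.iff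
          | apply BPred.imp
          | refine BPred.ex ?_
          | refine BPred.all ?_
          | exact BPred.const _
      · intro h y _ hab
        rw [has_LN] at hab
        obtain ⟨t, h1, h2⟩ := exists_rat_btwn hab
        exact ⟨Mdl.mk h (nm (t : ℝ)), E_of_coe (e := fun t : ℚ => nm (t : ℝ)) (i := t) h.top',
          has_LN _ _ |>.2 h1, has_LN _ _ |>.2 h2⟩

/-! ### Completeness -/

/-- `b` is an upper bound of `A`. -/
def UB (h : Ult B) (A b : Mdl h) : Prop :=
  ∀ a, E h a A → a = b ∨ Has (E h) (Mdl.mk h (LN B)) [a, b]

theorem bp_UB {J : Type*} {H : J → Ult B} {Γ : Type*} [BSet B Γ] {f1 f2 : Γ → BName B}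
    (h1 : BTerm f1) (h2 : BTerm f2) :
    BPred H (fun j γ => UB (H j) (Mdl.mk _ (f1 γ)) (Mdl.mk _ (f2 γ))) := by
  unfold UB
  repeat' first
    | exact BMap.id
    | apply BMap.fst
    | apply BMap.snd
    | apply BTerm.cmp h1
    | apply BTerm.cmp h2
    | exact BTerm.const _
    | apply bterm_opair
    | apply BTerm.of
    | apply BPred.mem
    | apply BPred.eq
    | apply bp_has2
    | apply bp_has3
    | apply bp_isTuple3
    | apply bp_eq_pr
    | apply bp_isPair
    | apply bp_isUPair
    | apply bp_isFun
    | apply bp_injects
    | apply BPred.not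
    | apply BPred.and
    | apply BPred.or
    | apply BPred.iff
    | apply BPred.imp
    | refine BPred.ex ?_
    | refine BPred.all ?_
    | exact BPred.const _

/-- The assumptions of the completeness. -/
def CompH (h : Ult B) (A : Mdl h) : Prop :=
  Sub (E h) A (Mdl.mk h (RN B)) ∧ (∃ a, E h a A) ∧ ∃ b, E h b (Mdl.mk h (RN B)) ∧ UB h A b

/-- The conclusion of the completeness. -/
def CompC (h : Ult B) (A : Mdl h) : Prop :=
  ∃ s, E h s (Mdl.mk h (RN B)) ∧ UB h A s ∧ ∀ b, E h b (Mdl.mk h (RN B)) → UB h A b →
    s = b ∨ Has (E h) (Mdl.mk h (LN B)) [s, b]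

theorem clop_compH (A : BName B) : Clop (fun h : Ult B => CompH h (Mdl.mk h A)) := by
  refine BPred.clop (P := fun h (_ : PUnit.{1}) => CompH h (Mdl.mk h A)) ?_ PUnit.unit
  unfold CompH
  repeat' first
    | exact BMap.id
    | apply BMap.fst
    | apply BMap.snd
    | exact BTerm.const _
    | apply bterm_opair
    | apply BTerm.of
    | apply BPred.mem
    | apply BPred.eq
    | apply bp_has2
    | apply bp_has3
    | apply bp_isTuple3
    | apply bp_eq_pr
    | apply bp_isPair
    | apply bp_isUPair
    | apply bp_isFun
    | apply bp_injects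
    | apply bp_sub
    | apply bp_UB
    | apply BPred.not
    | apply BPred.and
    | apply BPred.or
    | apply BPred.iff
    | apply BPred.imp
    | refine BPred.ex ?_
    | refine BPred.all ?_
    | exact BPred.const _

theorem clop_compC (A : BName B) : Clop (fun h : Ult B => CompC h (Mdl.mk h A)) := by
  refine BPred.clop (P := fun h (_ : PUnit.{1}) => CompC h (Mdl.mk h A)) ?_ PUnit.unit
  unfold CompC
  repeat' first
    | exact BMap.id
    | apply BMap.fst
    | apply BMap.snd
    | exact BTerm.const _
    | apply bterm_opair
    | apply BTerm.of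
    | apply BPred.mem
    | apply BPred.eq
    | apply bp_has2
    | apply bp_has3
    | apply bp_isTuple3
    | apply bp_eq_pr
    | apply bp_isPair
    | apply bp_isUPair
    | apply bp_isFun
    | apply bp_injects
    | apply bp_sub
    | apply bp_UB
    | apply BPred.not
    | apply BPred.and
    | apply BPred.or
    | apply BPred.iff
    | apply BPred.imp
    | refine BPred.ex ?_
    | refine BPred.all ?_
    | exact BPred.const _

theorem clop_UB (A b : BName B) : Clop (fun h : Ult B => UB h (Mdl.mk h A) (Mdl.mk h b)) :=
  BPred.clop (P := fun h (_ : PUnit.{1}) => UB h (Mdl.mk h A) (Mdl.mk h b))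
    (bp_UB (BTerm.const _) (BTerm.const _)) PUnit.unit

theorem UB.up {h : Ult B} {A : Mdl h} {x y : ℝ} (H : UB h A (Mdl.mk h (nm x))) (hxy : x ≤ y) :
    UB h A (Mdl.mk h (nm y)) := by
  intro a ha
  rcases eq_or_lt_of_le hxy with h1 | h1
  · subst h1
    exact H a ha
  · rcases H a ha with h2 | h2
    · right
      rw [h2, has_LN]
      exact h1
    · exact Or.inr (real_trans h _ _ _ h2 ((has_LN _ _).2 h1))

theorem UB.le {h : Ult B} {A : Mdl h} {x y : ℝ} (H : UB h A (Mdl.mk h (nm y)))
    (hx : E h (Mdl.mk h (nm x)) A) : x ≤ y := by
  rcases H _ hx with h1 | h1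
  · rw [nm_inj] at h1
    exact h1.le
  · rw [has_LN] at h1
    exact h1.le

theorem real_complete {P : Type} [Preorder P] {em : P → B} (hem : DenseEmb em) (hP : SC P)
    (A : BName B) : ∀ h : Ult B, CompH h (Mdl.mk h A) → CompC h (Mdl.mk h A) := by
  refine imp_of_fo hem (clop_compH A) (clop_compC A) fun p hp => ?_
  obtain ⟨q, hqp, hq⟩ := hP.all' (κ := ℚ) (D := fun t q =>
      Fo em q (fun h => UB h (Mdl.mk h A) (Mdl.mk h (nm (t : ℝ)))) ∨
      Fo em q (fun h => ¬ UB h (Mdl.mk h A) (Mdl.mk h (nm (t : ℝ))))) (by
    rintro t p q hqp (h | h)
    · exact Or.inl (h.mono hem hqp)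
    · exact Or.inr (h.mono hem hqp)) p (fun t q _ => decide_fo hem (clop_UB A _) q)
  have hp' := hp.mono hem hqp
  -- the set of the rational upper bounds
  set S : Set ℝ := {x | ∃ t : ℚ, (t : ℝ) = x ∧
    Fo em q (fun h => UB h (Mdl.mk h A) (Mdl.mk h (nm (t : ℝ))))} with hS
  have hne : S.Nonempty := by
    obtain ⟨q', hq', x, hx⟩ := decide_mem hem (ι := ℝ) nm (fun _ => ⊤)
      (Q := fun h b => UB h (Mdl.mk h A) b) (bp_UB (BTerm.const _) BTerm.id)
      (hp'.imp fun h hh => hh.2.2)
    obtain ⟨t, ht⟩ := exists_rat_gt x
    refine ⟨t, t, rfl, ?_⟩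
    rcases hq t with h1 | h1
    · exact h1
    · exfalso
      refine Fo.false hem (p := q') fun h hh => ?_
      exact h1.mono hem hq' h hh ((hx h hh).2.up ht.le)
  have hbdd : BddBelow S := by
    obtain ⟨q', hq', x, hx⟩ := decide_mem hem (ι := ℝ) nm (fun _ => ⊤)
      (Q := fun h b => E h b (Mdl.mk h A)) (BPred.mem BTerm.id (BTerm.const _)) (p := q)
      (hp'.imp fun h hh => by
        obtain ⟨a, ha⟩ := hh.2.1
        exact ⟨a, hh.1 a ha, ha⟩)
    refine ⟨x, ?_⟩
    rintro _ ⟨t, rfl, ht⟩
    have := (ht.mono hem hq').and hx
    exact Fo.const hem (this.imp fun h hh => hh.1.le hh.2.2)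
  refine ⟨q, hqp, ?_⟩
  intro h hh
  have hA := (hp' h hh).1
  refine ⟨Mdl.mk h (nm (sInf S)), E_RN _, ?_, ?_⟩
  · intro a ha
    refine forall_mem (P := fun h a => E h a (Mdl.mk h A) → a = Mdl.mk h (nm (sInf S)) ∨
      Has (E h) (Mdl.mk h (LN B)) [a, Mdl.mk h (nm (sInf S))]) nm (fun _ => ⊤) ?_
      (clop_V (em q)) ?_ h hh a (hA a ha) ha
    · repeat' first
        | exact BMap.id
        | apply BMap.fst
        | apply BMap.snd
        | exact BTerm.const _
        | apply bterm_opair
        | apply BTerm.of
        | apply BPred.mem
        | apply BPred.eq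
        | apply bp_has2
        | apply bp_has3
        | apply bp_isTuple3
        | apply bp_eq_pr
        | apply bp_isPair
        | apply bp_isUPair
        | apply bp_isFun
        | apply bp_injects
        | apply BPred.not
        | apply BPred.and
        | apply BPred.or
        | apply BPred.iff
        | apply BPred.imp
        | refine BPred.ex ?_
        | refine BPred.all ?_
        | exact BPred.const _
    · intro h hh x _ hx
      have h1 : x ≤ sInf S := by
        refine le_csInf hne ?_
        rintro _ ⟨t, rfl, ht⟩
        exact (ht h hh).le hx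
      rcases eq_or_lt_of_le h1 with h2 | h2
      · left; rw [← h2]
      · right; rw [has_LN]; exact h2
  · intro b hb
    refine forall_mem (P := fun h b => UB h (Mdl.mk h A) b → Mdl.mk h (nm (sInf S)) = b ∨
      Has (E h) (Mdl.mk h (LN B)) [Mdl.mk h (nm (sInf S)), b]) nm (fun _ => ⊤) ?_
      (clop_V (em q)) ?_ h hh b hb
    · repeat' first
        | exact BMap.id
        | apply BMap.fst
        | apply BMap.snd
        | exact BTerm.const _
        | apply bterm_opair
        | apply BTerm.of
        | apply BPred.mem
        | apply BPred.eq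
        | apply bp_has2
        | apply bp_has3
        | apply bp_isTuple3
        | apply bp_eq_pr
        | apply bp_isPair
        | apply bp_isUPair
        | apply bp_isFun
        | apply bp_injects
        | apply bp_UB
        | apply BPred.not
        | apply BPred.and
        | apply BPred.or
        | apply BPred.iff
        | apply BPred.imp
        | refine BPred.ex ?_
        | refine BPred.all ?_
        | exact BPred.const _
    · intro h hh x _ hx
      have h1 : sInf S ≤ x := by
        by_contra hcon
        obtain ⟨t, ht1, ht2⟩ := exists_rat_btwn (not_le.1 hcon)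
        rcases hq t with h1 | h1
        · have : sInf S ≤ t := csInf_le hbdd ⟨t, rfl, h1⟩
          linarith
        · exact h1 h hh (hx.up ht1.le)
      rcases eq_or_lt_of_le h1 with h2 | h2
      · left; rw [← h2]
      · right; rw [has_LN]; exact h2

theorem isReal {P : Type} [Preorder P] {em : P → B} (hem : DenseEmb em) (hP : SC P) (h : Ult B) :
    IsReal (E h) (Mdl.mk h (omN B)) (Mdl.mk h (RN B)) (Mdl.mk h (LN B)) := by
  refine ⟨⟨_, E_RN 0⟩, real_irrefl h, fun a b c _ _ _ h1 h2 => real_trans h a b c h1 h2,
    real_total h, real_ends h, ?_, real_sep h⟩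
  intro A hA hne hub
  obtain ⟨A, rfl⟩ := A.exists_rep
  exact real_complete hem hP A h ⟨hA, hne, hub⟩

end Pool.Agent.MP7e7dde
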