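import Pool.Agent.MP_7e7dde_gt.Stable
import Pool.Agent.MP_7e7dde_gt.GrothB
import Pool.Agent.MP_7e7dde_gt.Real

/-! The identity of the generic space. -/

set_option linter.unusedVariables false
set_option linter.unusedSectionVars false
set_option linter.unreachableTactic false
set_option linter.unusedTactic false

namespace Pool.Agent.MP7e7dde

open BVM BName SetModel MP63050e

variable {B : Type} [CompleteBooleanAlgebra B] {I : Type}

/-- The name of the identity. -/
noncomputable def idN (c : Set I → B) : BName B :=
  BName.mk (Set I) (fun y => opair (nm y) (nm y)) c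

theorem has_idN (c : Set I → B) (h : Ult B) (y : Set I) (r : Mdl h) :
    Has (E h) (Mdl.mk h (idN c)) [Mdl.mk h (nm y), r] ↔ h.V (c y) ∧ r = Mdl.mk h (nm y) := by
  obtain ⟨r, rfl⟩ := r.exists_rep
  rw [has_iff (by simp)]
  change h.V (bmem (opair (nm y) r) (idN c)) ↔ _
  have key : bmem (opair (nm y) r) (idN c) = c y ⊓ beq r (nm y) := by
    rw [idN, bmem_mk]
    apply le_antisymm
    · refine iSup_le fun y' => ?_
      rw [beq_opair]
      by_cases hy : y = y'
      · subst hy
        exact inf_le_inf_left _ inf_le_right
      · rw [nm_ne hy, bot_inf_eq, inf_bot_eq]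
        exact bot_le
    · refine le_iSup_of_le y ?_
      rw [beq_opair, beq_refl, top_inf_eq]
  rw [key, h.inf', Mdl.mk_eq]

theorem isFun_idN (c : Set I → B) (h : Ult B) :
    IsFun (E h) (Mdl.mk h (idN c)) (Mdl.mk h (chk c)) (Mdl.mk h (chk c)) := by
  refine ⟨?_, ?_⟩
  · refine forall_mem' (P := fun h p => ∃ a b, E h a (Mdl.mk h (chk c)) ∧
      E h b (Mdl.mk h (chk c)) ∧ IsPair (E h) p a b) _ _ ?_ ?_ h
    · repeat' first
        | exact BMap.id
        | apply BMap.fst
        | apply BMap.snd
        | exact BTerm.const _
        | apply bterm_opair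
        | apply BTerm.of
        | apply BPred.mem
        | apply BPred.eq
        | apply bp_has2
        | apply bp_has3
        | apply bp_isTuple3
        | apply bp_eq_pr
        | apply bp_isPair
        | apply bp_isUPair
        | apply bp_isFun
        | apply bp_injects
        | apply BPred.not
        | apply BPred.and
        | apply BPred.or
        | apply BPred.iff
        | apply BPred.imp
        | refine BPred.ex ?_
        | refine BPred.all ?_
        | exact BPred.const _
    · intro h y hy
      exact ⟨_, _, E_chk.2 hy, E_chk.2 hy, isPair_iff.2 rfl⟩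
  · refine forall_chk (P := fun h a => ∃! b, Has (E h) (Mdl.mk h (idN c)) [a, b]) c ?_
      clop_true ?_ h trivial
    · unfold ExistsUnique
      repeat' first
        | exact BMap.id
        | apply BMap.fst
        | apply BMap.snd
        | exact BTerm.const _
        | apply bterm_opair
        | apply BTerm.of
        | apply BPred.mem
        | apply BPred.eq
        | apply bp_has2
        | apply bp_has3
        | apply bp_isTuple3
        | apply bp_eq_pr
        | apply bp_isPair
        | apply bp_isUPair
        | apply bp_isFun
        | apply bp_injects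
        | apply BPred.not
        | apply BPred.and
        | apply BPred.or
        | apply BPred.iff
        | apply BPred.imp
        | refine BPred.ex ?_
        | refine BPred.all ?_
        | exact BPred.const _
    · intro h _ y hy
      exact ⟨_, (has_idN c h y _).2 ⟨hy, rfl⟩, fun b hb => ((has_idN c h y b).1 hb).2⟩

theorem has_idN_self (c : Set I → B) (h : Ult B) : ∀ x, E h x (Mdl.mk h (chk c)) →
    Has (E h) (Mdl.mk h (idN c)) [x, x] := by
  refine forall_chk (P := fun h a => Has (E h) (Mdl.mk h (idN c)) [a, a]) c ?_
      clop_true ?_ h trivial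
  · repeat' first
      | exact BMap.id
      | apply BMap.fst
      | apply BMap.snd
      | exact BTerm.const _
      | apply bterm_opair
      | apply BTerm.of
      | apply BPred.mem
      | apply BPred.eq
      | apply bp_has2
      | apply bp_has3
      | apply bp_isTuple3
      | apply bp_eq_pr
      | apply bp_isPair
      | apply bp_isUPair
      | apply bp_isFun
      | apply bp_injects
      | apply BPred.not
      | apply BPred.and
      | apply BPred.or
      | apply BPred.iff
      | apply BPred.imp
      | refine BPred.ex ?_
      | refine BPred.all ?_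
      | exact BPred.const _
  · intro h _ y hy
    exact (has_idN c h y _).2 ⟨hy, rfl⟩

theorem isOnto_idN (c : Set I → B) (h : Ult B) :
    IsOnto (E h) (Mdl.mk h (chk c)) (Mdl.mk h (idN c)) :=
  fun y hy => ⟨y, has_idN_self c h y hy⟩

theorem isCont_idN (c : Set I → B) (h : Ult B) :
    IsCont (E h) (Mdl.mk h (chk c)) (Mdl.mk h (TN c)) (Mdl.mk h (chk c)) (Mdl.mk h (TN c))
      (Mdl.mk h (idN c)) := by
  refine ⟨isFun_idN c h, fun V hV => ⟨V, hV, fun x => ⟨fun hx => ?_, ?_⟩⟩⟩
  · exact ⟨x, hx, has_idN_self c h x (((E_TN c h V).1 hV).1 x hx)⟩
  · rintro ⟨y, hy, hxy⟩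
    have hx := (isFun_has (isFun_idN c h) hxy).1
    rw [isFun_uniq (isFun_idN c h) (has_idN_self c h x hx) hxy]
    exact hy

end Pool.Agent.MP7e7dde
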