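import Pool.Agent.MP_7e7dde_gt.Names

/-! Combinatorial forcing lemmas for the conditions. -/

namespace Pool.Agent.MP7e7dde

open Set

variable {I : Type}

theorem Cond.le_tr {p q : Cond I} (h : q ≤ p) {y : Set I} (hy : y ∈ q.Y) : y ∩ p.F ∈ p.Y :=
  Cond.Le.tr h y hy

theorem Cond.ext' {p q : Cond I} (h1 : p.F = q.F) (h2 : p.Y = q.Y) : p = q := by
  cases p; cases q; simp only at h1 h2; subst h1 h2; rfl

theorem Cond.exists_add_finite (p : Cond I) {D : Set I} (hD : D.Finite) :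
    ∃ q, q ≤ p ∧ D ⊆ q.F := by
  induction D, hD using Set.Finite.induction_on with
  | empty => exact ⟨p, le_rfl, empty_subset _⟩
  | insert _ _ ih =>
    rename_i a s _ _
    obtain ⟨q, hq, hs⟩ := ih
    by_cases ha : a ∈ q.F
    · exact ⟨q, hq, insert_subset ha hs⟩
    · obtain ⟨r, hr, hrF⟩ := q.exists_add ha
      refine ⟨r, hr.trans hq, insert_subset ?_ (hs.trans ?_)⟩
      · rw [hrF]; exact mem_insert _ _
      · rw [hrF]; exact subset_insert _ _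

theorem Cond.exists_strict [Uncountable I] (p : Cond I) :
    ∃ q, q ≤ p ∧ ∃ z, z ∈ q.F ∧ z ∉ p.F := by
  obtain ⟨ξ, hξ⟩ : ∃ ξ, ξ ∉ p.F := by
    by_contra hcon
    push Not at hcon
    have : (univ : Set I).Countable := p.F_ctbl.mono fun x _ => hcon x
    exact not_countable_univ_iff.2 ‹_› this
  obtain ⟨q, hq, hqF⟩ := p.exists_add hξ
  exact ⟨q, hq, ξ, by rw [hqF]; exact mem_insert _ _, hξ⟩

/-- The forcing is countably closed. -/
theorem sc_cond [Uncountable I] : SC (Cond I) := by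
  intro p hp
  by_cases h : ∃ N, ∀ n ≥ N, (p n).F = (p N).F
  · obtain ⟨N, hN⟩ := h
    have hN' : ∀ n ≥ N, p n = p N := by
      intro n hn
      refine Cond.ext' (hN n hn) (Subset.antisymm ?_ (Y_mono' hp hn))
      intro y hy
      have := Cond.le_tr (le_of_le hp hn) hy
      rwa [← hN n hn, inter_eq_left.2 ((p n).sub y hy)] at this
    refine ⟨p N, fun n => ?_⟩
    rcases le_total n N with h | h
    · exact le_of_le hp h
    · rw [hN' n h]
  · push Not at h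
    have hex : ∀ N, ∃ n, N < n ∧ ∃ z, z ∈ (p n).F ∧ z ∉ (p N).F := by
      intro N
      obtain ⟨n, hn, hne⟩ := h N
      refine ⟨n, lt_of_le_of_ne hn (fun h => hne (h ▸ rfl)), ?_⟩
      by_contra hcon
      push Not at hcon
      exact hne (Subset.antisymm hcon (F_mono' hp hn))
    choose g hg1 hg2 using hex
    let s : ℕ → ℕ := fun n => Nat.rec 0 (fun _ m => g m) n
    have hs : ∀ n, n ≤ s n := by
      intro n
      induction n with
      | zero => exact Nat.zero_le _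
      | succ n ih => exact Nat.succ_le_of_lt (lt_of_le_of_lt ih (hg1 _))
    obtain ⟨q, hq, -⟩ := exists_lower (p := fun n => p (s n))
      (fun n => le_of_le hp (hg1 _).le) (fun n => hg2 _) (fun _ _ => ∅)
      (fun n y _ => ⟨finite_empty, empty_subset _⟩)
    exact ⟨q, fun n => (hq n).trans (le_of_le hp (hs n))⟩

/-- The key lemma: a form of the Lindelöf property. -/
theorem key [Uncountable I] (p : Cond I) (D : ℕ → KK I → Cond I → Prop)
    (hD : ∀ j k q r, r ≤ q → D j k q → D j k r)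
    (H : ∀ j, ∀ r, r ≤ p → ∀ y ∈ r.Y, ∃ r', r' ≤ r ∧ ∃ k, inK k y ∧ D j k r') :
    ∃ q, q ≤ p ∧ ∃ S : Set (KK I), S.Countable ∧ ∀ j, ∀ r, r ≤ q → ∀ y ∈ r.Y,
      ∃ k ∈ S, inK k y ∧ inK k (y ∩ q.F) ∧ D j k q := by
  classical
  have step : ∀ r, r ≤ p → ∃ r', r' ≤ r ∧ (∃ z, z ∈ r'.F ∧ z ∉ r.F) ∧ ∀ j, ∀ y ∈ r.Y,
      ∃ k, inK k y ∧ D j k r' ∧ (k.1 : Set I) ⊆ r'.F := by
    intro r hr
    have : Countable r.Y := r.Y_ctbl.to_subtype
    obtain ⟨q, hqr, hq⟩ := sc_cond.all' (κ := ℕ × r.Y)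
      (D := fun u q => ∃ k, inK k u.2.1 ∧ D u.1 k q ∧ (k.1 : Set I) ⊆ q.F) (by
        rintro ⟨j, y⟩ q q' hqq ⟨k, h1, h2, h3⟩
        exact ⟨k, h1, hD j k _ _ hqq h2, h3.trans (Cond.F_mono hqq)⟩) r (by
        rintro ⟨j, y⟩ q hqr
        obtain ⟨r', hr', k, h1, h2⟩ := H j q (hqr.trans hr) y.1 (Cond.Y_mono hqr y.2)
        obtain ⟨r'', hr'', h3⟩ := r'.exists_add_finite (k.1.finite_toSet)
        exact ⟨r'', hr''.trans hr', k, h1, hD j k _ _ hr'' h2, h3⟩)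
    obtain ⟨q', hq', z, hz, hz'⟩ := q.exists_strict
    refine ⟨q', hq'.trans hqr, ⟨z, hz, fun h => hz' (Cond.F_mono hqr h)⟩, fun j y hy => ?_⟩
    obtain ⟨k, h1, h2, h3⟩ := hq (j, ⟨y, hy⟩)
    exact ⟨k, h1, hD j k _ _ hq' h2, h3.trans (Cond.F_mono hq')⟩
  choose! nx hn1 hn2 hn3 using step
  let s : ℕ → Cond I := fun n => Nat.rec p (fun _ q => nx q) n
  have hs0 : ∀ n, s n ≤ p := by
    intro n
    induction n with
    | zero => exact le_rfl
    | succ n ih => exact (hn1 _ ih).trans ih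
  have hs : ∀ n, s (n + 1) ≤ s n := fun n => hn1 _ (hs0 n)
  have h3 : ∀ n j y, y ∈ (s n).Y → ∃ k, inK k y ∧ D j k (s (n + 1)) ∧
      (k.1 : Set I) ⊆ (s (n + 1)).F := fun n j y hy => hn3 _ (hs0 n) j y hy
  choose! kk hk1 hk2 hk3 using h3
  obtain ⟨q, hq, hgood⟩ := exists_lower (p := s) hs (fun n => hn2 _ (hs0 n))
    (fun n y => ⋃ j ∈ {j | j ≤ n}, ((kk n j y).1 : Set I) \ (s n).F) (by
      intro n y hy
      refine ⟨(finite_le_nat n).biUnion fun j _ => (Finset.finite_toSet _).subset sdiff_subset, ?_⟩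
      exact iUnion₂_subset fun j _ => sdiff_subset_sdiff_left (hk3 n j y hy))
  refine ⟨q, hq 0, ⋃ n, ⋃ j, (fun y => kk n j y) '' (s n).Y,
    countable_iUnion fun n => countable_iUnion fun j => (s n).Y_ctbl.image _, ?_⟩
  intro j r hr y hy
  have hy0 := Cond.le_tr hr hy
  obtain ⟨n, hn, hgn⟩ := hgood _ hy0 j
  have hFn : (s n).F ⊆ q.F := Cond.F_mono (hq n)
  have hFn1 : (s (n + 1)).F ⊆ q.F := Cond.F_mono (hq (n + 1))
  have hyn := Cond.le_tr (hq n) hy0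
  set yn := (y ∩ q.F) ∩ (s n).F with hyn'
  have h1 := hk1 n j yn hyn
  have h3 := hk3 n j yn hyn
  have hnotin : ∀ i ∈ (kk n j yn).1, i ∉ (s n).F → i ∉ y := by
    intro i hi hin hiy
    have hi1 : i ∈ q.F := hFn1 (h3 hi)
    exact hgn i (mem_iUnion₂.2 ⟨j, hn, hi, hin⟩) ⟨hiy, hi1⟩
  have hkey : ∀ i ∈ (kk n j yn).1, (i ∈ y ↔ i ∈ (kk n j yn).2) := by
    intro i hi
    by_cases hin : i ∈ (s n).F
    · rw [← h1 i hi, hyn']
      exact ⟨fun h => ⟨⟨h, hFn hin⟩, hin⟩, fun h => h.1.1⟩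
    · have h4 : i ∉ (kk n j yn).2 := by
        rw [← h1 i hi]
        exact fun h => hin h.2
      exact ⟨fun h => absurd h (hnotin i hi hin), fun h => absurd h h4⟩
  refine ⟨kk n j yn, mem_iUnion₂.2 ⟨n, j, mem_image_of_mem _ hyn⟩, hkey, ?_,
    hD _ _ _ _ (hq (n + 1)) (hk2 n j yn hyn)⟩
  intro i hi
  rw [← hkey i hi]
  exact ⟨fun h => h.1, fun h => ⟨h, hFn1 (h3 hi)⟩⟩

/-- The lemma for countable tightness. -/
theorem tight_key [Uncountable I] (p : Cond I) {y₀ : Set I} (hy₀ : y₀ ∈ p.Y)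
    (D : Set I → Cond I → Prop) (hD : ∀ y q r, r ≤ q → D y q → D y r)
    (H : ∀ r, r ≤ p → ∀ d : Finset I, ∃ r', r' ≤ r ∧ ∃ y ∈ r'.Y, (∀ i ∈ d, (i ∈ y ↔ i ∈ y₀)) ∧
      D y r') :
    ∃ q, q ≤ p ∧ ∃ S : Set (Set I), S.Countable ∧ (∀ y ∈ S, y ∈ q.Y ∧ D y q) ∧
      ∀ d : Finset I, ∃ y ∈ S, ∀ i ∈ d, (i ∈ y ↔ i ∈ y₀) := by
  classical
  have step : ∀ r, r ≤ p → ∃ r', r' ≤ r ∧ ∀ d : Finset I, (d : Set I) ⊆ r.F →
      ∃ y ∈ r'.Y, (∀ i ∈ d, (i ∈ y ↔ i ∈ y₀)) ∧ D y r' := by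
    intro r hr
    have : Countable {d : Finset I // (d : Set I) ⊆ r.F} := by
      have h1 : {t : Set I | t.Finite ∧ t ⊆ r.F}.Countable :=
        countable_ofPred_finite_subset r.F_ctbl
      have : Countable {t : Set I | t.Finite ∧ t ⊆ r.F} := h1.to_subtype
      let g : {d : Finset I // (d : Set I) ⊆ r.F} → {t : Set I | t.Finite ∧ t ⊆ r.F} :=
        fun d => ⟨(d.1 : Set I), d.1.finite_toSet, d.2⟩
      refine Function.Injective.countable (f := g) fun a b hab => ?_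
      exact Subtype.ext (Finset.coe_injective (congrArg Subtype.val hab))
    obtain ⟨q, hqr, hq⟩ := sc_cond.all' (κ := {d : Finset I // (d : Set I) ⊆ r.F})
      (D := fun d q => ∃ y ∈ q.Y, (∀ i ∈ d.1, (i ∈ y ↔ i ∈ y₀)) ∧ D y q) (by
        rintro d q q' hqq ⟨y, h1, h2, h3⟩
        exact ⟨y, Cond.Y_mono hqq h1, h2, hD _ _ _ hqq h3⟩) r (by
        intro d q hqr
        exact H q (hqr.trans hr) d.1)
    exact ⟨q, hqr, fun d hd => hq ⟨d, hd⟩⟩
  choose! nx hn1 hn2 using step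
  let s : ℕ → Cond I := fun n => Nat.rec p (fun _ q => nx q) n
  have hs0 : ∀ n, s n ≤ p := by
    intro n
    induction n with
    | zero => exact le_rfl
    | succ n ih => exact (hn1 _ ih).trans ih
  have hs : ∀ n, s (n + 1) ≤ s n := fun n => hn1 _ (hs0 n)
  obtain ⟨q, hq⟩ := sc_cond s hs
  refine ⟨q, hq 0, {y | (∃ n, y ∈ (s n).Y) ∧ D y q}, ?_, ?_, ?_⟩
  · refine (countable_iUnion fun n => (s n).Y_ctbl).mono ?_
    rintro y ⟨⟨n, hn⟩, -⟩
    exact mem_iUnion.2 ⟨n, hn⟩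
  · rintro y ⟨⟨n, hn⟩, h⟩
    exact ⟨Cond.Y_mono (hq n) hn, h⟩
  · intro d
    obtain ⟨n, hn⟩ := exists_F_of_finite hs (W := {i | i ∈ d ∧ i ∈ ⋃ n, (s n).F})
      (d.finite_toSet.subset fun i hi => hi.1) (fun i hi => hi.2)
    obtain ⟨y, hy, h1, h2⟩ := hn2 _ (hs0 n) (d.filter (· ∈ ⋃ n, (s n).F)) (by
      intro i hi
      exact hn (Finset.mem_filter.1 hi))
    refine ⟨y, ⟨⟨n + 1, hy⟩, hD _ _ _ (hq (n + 1)) h2⟩, fun i hi => ?_⟩
    by_cases hiU : i ∈ ⋃ n, (s n).F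
    · exact h1 i (Finset.mem_filter.2 ⟨hi, hiU⟩)
    · constructor
      · intro h
        exact absurd (mem_iUnion.2 ⟨n + 1, (s (n + 1)).sub y hy h⟩) hiU
      · intro h
        exact absurd (mem_iUnion.2 ⟨0, p.sub y₀ hy₀ h⟩) hiU

end Pool.Agent.MP7e7dde
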