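import Pool.Agent.MP_7e7dde_gt.Cond

/-!
Lower bounds of decreasing sequences of conditions.
-/

namespace Pool.Agent.MP7e7dde

open Set

variable {I : Type}

theorem Cond.F_mono {p q : Cond I} (h : q ≤ p) : p.F ⊆ q.F := Cond.Le.F_sub h

theorem Cond.Y_mono {p q : Cond I} (h : q ≤ p) : p.Y ⊆ q.Y := Cond.Le.Y_sub h

theorem countable_finite_nat : {s : Set ℕ | s.Finite}.Countable := by
  have := Set.countable_ofPred_finite_subset (s := (univ : Set ℕ)) (Set.to_countable _)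
  simpa using this

section

variable {p : ℕ → Cond I} (hp : ∀ n, p (n + 1) ≤ p n)

include hp

theorem le_of_le {n k : ℕ} (h : n ≤ k) : p k ≤ p n := by
  induction k, h using Nat.le_induction with
  | base => exact le_rfl
  | succ k _ ih => exact (hp k).trans ih

theorem F_mono' {n k : ℕ} (h : n ≤ k) : (p n).F ⊆ (p k).F := Cond.F_mono (le_of_le hp h)

theorem Y_mono' {n k : ℕ} (h : n ≤ k) : (p n).Y ⊆ (p k).Y := Cond.Y_mono (le_of_le hp h)

theorem exists_F_of_finite {W : Set I} (hW : W.Finite) (h : W ⊆ ⋃ n, (p n).F) :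
    ∃ K, W ⊆ (p K).F := by
  induction W, hW using Set.Finite.induction_on with
  | empty => exact ⟨0, empty_subset _⟩
  | insert _ _ ih =>
    rename_i a s _ _
    obtain ⟨K, hK⟩ := ih ((subset_insert _ _).trans h)
    obtain ⟨K', hK'⟩ := mem_iUnion.1 (h (mem_insert _ _))
    refine ⟨max K K', insert_subset (F_mono' hp (le_max_right _ _) hK') ?_⟩
    exact hK.trans (F_mono' hp (le_max_left _ _))

/-- All tasks can be handled infinitely often. -/
theorem exists_new : ∃ New : ℕ → Set (Set I), (∀ k, (New k).Finite ∧ New k ⊆ (p k).Y) ∧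
    ∀ (n m : ℕ) (L : Set (Set I × Set ℕ)) (Φ : Set (I × ℕ)), 0 < m → IsTL (p n).Y m L →
      IsPC ((⋃ n, (p n).F) \ (p n).F) m Φ → ∀ K, ∃ k ≥ K, n ≤ k ∧ ∃ c : I → ℕ,
        (∀ z ∈ (p k).F \ (p n).F, c z < m) ∧ (∀ u ∈ Φ, u.1 ∈ (p k).F ∧ c u.1 = u.2) ∧
          ∀ u ∈ L, u.1 ∪ {z ∈ (p k).F \ (p n).F | c z ∈ u.2} ∈ New k := by
  classical
  let V : Set (ℕ × ℕ × Set (Set I × Set ℕ) × Set (I × ℕ)) :=
    (univ : Set ℕ) ×ˢ (univ : Set ℕ) ×ˢ
      {L | L.Finite ∧ L ⊆ (⋃ n, (p n).Y) ×ˢ {s : Set ℕ | s.Finite}} ×ˢ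
      {Φ | Φ.Finite ∧ Φ ⊆ (⋃ n, (p n).F) ×ˢ (univ : Set ℕ)}
  have hV : V.Countable := by
    refine (to_countable _).prod ((to_countable _).prod (Countable.prod ?_ ?_))
    · exact countable_ofPred_finite_subset
        ((countable_iUnion fun n => (p n).Y_ctbl).prod countable_finite_nat)
    · exact countable_ofPred_finite_subset
        ((countable_iUnion fun n => (p n).F_ctbl).prod (to_countable _))
  have hne : V.Nonempty := ⟨(0, 0, ∅, ∅), by simp [V]⟩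
  obtain ⟨f, hf⟩ := hV.exists_eq_range hne
  let G : ℕ → ℕ × ℕ × Set (Set I × Set ℕ) × Set (I × ℕ) → Prop := fun k τ =>
    τ.1 ≤ k ∧ 0 < τ.2.1 ∧ IsTL (p τ.1).Y τ.2.1 τ.2.2.1 ∧
      IsPC ((p k).F \ (p τ.1).F) τ.2.1 τ.2.2.2
  have hG : ∀ k τ, G k τ → ∃ c : I → ℕ, (∀ z ∈ (p k).F \ (p τ.1).F, c z < τ.2.1) ∧
      (∀ u ∈ τ.2.2.2, c u.1 = u.2) ∧
        ∀ u ∈ τ.2.2.1, u.1 ∪ {z ∈ (p k).F \ (p τ.1).F | c z ∈ u.2} ∈ (p k).Y := by
    rintro k τ ⟨h1, h2, h3, h4⟩
    exact (le_of_le hp h1).ext _ _ _ h2 h3 h4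
  choose! c hc1 hc2 hc3 using hG
  let New : ℕ → Set (Set I) := fun k =>
    if G k (f k.unpair.1) then
      (fun u : Set I × Set ℕ => u.1 ∪ {z ∈ (p k).F \ (p (f k.unpair.1).1).F |
        c k (f k.unpair.1) z ∈ u.2}) '' (f k.unpair.1).2.2.1
    else ∅
  refine ⟨New, fun k => ?_, ?_⟩
  · by_cases h : G k (f k.unpair.1)
    · simp only [New, if_pos h]
      refine ⟨h.2.2.1.1.image _, ?_⟩
      rintro _ ⟨u, hu, rfl⟩
      exact hc3 k _ h u hu
    · simp only [New, if_neg h]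
      exact ⟨finite_empty, empty_subset _⟩
  · intro n m L Φ hm hL hΦ K
    have hLf : ((fun u : Set I × Set ℕ => (u.1, u.2 ∩ {j | j < m})) '' L).Finite :=
      hL.1.image _
    have hτ : (n, m, (fun u : Set I × Set ℕ => (u.1, u.2 ∩ {j | j < m})) '' L, Φ) ∈ V := by
      refine ⟨mem_univ _, mem_univ _, ⟨hLf, ?_⟩, hΦ.1, ?_⟩
      · rintro _ ⟨u, hu, rfl⟩
        exact ⟨mem_iUnion.2 ⟨n, (hL.2 u hu).1⟩, (finite_lt_nat m).subset inter_subset_right⟩
      · intro u hu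
        exact ⟨(hΦ.2.1 u hu).1.1, mem_univ _⟩
    rw [hf] at hτ
    obtain ⟨i, hi⟩ := hτ
    obtain ⟨K', hK'⟩ := exists_F_of_finite hp (W := Prod.fst '' Φ) (hΦ.1.image _) (by
      rintro _ ⟨u, hu, rfl⟩
      exact (hΦ.2.1 u hu).1.1)
    let k := Nat.pair i (K + n + K')
    have hk : K + n + K' ≤ k := Nat.right_le_pair _ _
    have hfk : f k.unpair.1 = (n, m, (fun u : Set I × Set ℕ => (u.1, u.2 ∩ {j | j < m})) '' L, Φ) := by
      simp only [k, Nat.unpair_pair, hi]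
    have hGk : G k (f k.unpair.1) := by
      rw [hfk]
      refine ⟨by omega, hm, ⟨hLf, ?_⟩, hΦ.1, ?_, hΦ.2.2⟩
      · rintro _ ⟨u, hu, rfl⟩
        obtain ⟨h1, j, hj, hj'⟩ := hL.2 u hu
        exact ⟨h1, j, hj, fun h => hj' h.1⟩
      · intro u hu
        exact ⟨⟨F_mono' hp (by omega) (hK' (mem_image_of_mem _ hu)), (hΦ.2.1 u hu).1.2⟩,
          (hΦ.2.1 u hu).2⟩
    have h1 := hc1 k _ hGk
    have h2 := hc2 k _ hGk
    have h3 : New k = (fun u : Set I × Set ℕ => u.1 ∪ {z ∈ (p k).F \ (p (f k.unpair.1).1).F |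
        c k (f k.unpair.1) z ∈ u.2}) '' (f k.unpair.1).2.2.1 := if_pos hGk
    rw [hfk] at h1 h2 h3
    refine ⟨k, by omega, by omega, c k _, h1, fun u hu => ⟨?_, h2 u hu⟩, fun u hu => ?_⟩
    · exact F_mono' hp (by omega) (hK' (mem_image_of_mem _ hu))
    · rw [h3]
      refine ⟨_, mem_image_of_mem _ hu, ?_⟩
      ext z
      simp only [mem_union, mem_ofPred_eq, mem_inter_iff]
      constructor
      · rintro (h | ⟨h, h', -⟩)
        · exact Or.inl h
        · exact Or.inr ⟨h, h'⟩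
      · rintro (h | ⟨h, h'⟩)
        · exact Or.inl h
        · exact Or.inr ⟨h, h', h1 z h⟩

/-- One step. -/
theorem exists_step (l : ℕ) (A New : Set (Set I)) (hA : A.Finite) (hA' : A ⊆ (p l).Y)
    (hN : New.Finite) (hN' : New ⊆ (p (l + 1)).Y) (D : Set I) (hD : D.Finite)
    (hD' : D ⊆ (p (l + 1)).F \ (p l).F) (hne : ∃ z, z ∈ (p (l + 1)).F ∧ z ∉ (p l).F)
    (j : ℕ) (hj : j ≤ l) :
    ∃ (c : I → ℕ) (A' : Set (Set I)), A'.Finite ∧ A' ⊆ (p (l + 1)).Y ∧ New ⊆ A' ∧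
      (∀ z ∈ (p (l + 1)).F \ (p l).F, c z ≤ l) ∧ (∀ z ∈ D, c z = j) ∧
      (∃ z ∈ (p (l + 1)).F \ (p l).F, c z = j) ∧
      ∀ y ∈ A, ∀ s : Set ℕ, (∃ i ≤ l, i ∉ s) →
        y ∪ {z ∈ (p (l + 1)).F \ (p l).F | c z ∈ s} ∈ A' := by
  classical
  obtain ⟨z₀, hz₀, hz₀'⟩ := hne
  let S : Set (Set ℕ) := {s | s ⊆ {i | i < l + 1} ∧ ∃ i ≤ l, i ∉ s}
  have hS : S.Finite := (finite_lt_nat (l + 1)).finite_subsets.subset fun s hs => hs.1
  obtain ⟨c, hc1, hc2, hc3⟩ := (hp l).ext (l + 1) (A ×ˢ S) (insert z₀ D ×ˢ {j})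
    (Nat.succ_pos l) ⟨hA.prod hS, by
      rintro ⟨y, s⟩ ⟨hy, hs⟩
      obtain ⟨i, hi, hi'⟩ := hs.2
      exact ⟨hA' hy, i, Nat.lt_succ_of_le hi, hi'⟩⟩
    ⟨(hD.insert z₀).prod (finite_singleton _), by
      rintro ⟨z, i⟩ ⟨hz, hi⟩
      have hi : i = j := hi
      subst hi
      refine ⟨?_, Nat.lt_succ_of_le hj⟩
      rcases hz with rfl | hz
      · exact ⟨hz₀, hz₀'⟩
      · exact hD' hz, by
      rintro ⟨z, i⟩ ⟨hz, hi⟩ ⟨z', i'⟩ ⟨hz', hi'⟩ -
      exact (show i = j from hi).trans (show i' = j from hi').symm⟩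
  refine ⟨c, (fun u : Set I × Set ℕ => u.1 ∪ {z ∈ (p (l + 1)).F \ (p l).F | c z ∈ u.2}) ''
    (A ×ˢ S) ∪ New, ((hA.prod hS).image _).union hN, ?_, subset_union_right, ?_, ?_, ?_, ?_⟩
  · rintro _ (⟨u, hu, rfl⟩ | h)
    · exact hc3 u hu
    · exact hN' h
  · intro z hz
    exact Nat.lt_succ_iff.1 (hc1 z hz)
  · intro z hz
    exact hc2 (z, j) ⟨mem_insert_of_mem _ hz, rfl⟩
  · exact ⟨z₀, ⟨hz₀, hz₀'⟩, hc2 (z₀, j) ⟨mem_insert _ _, rfl⟩⟩
  · rintro y hy s ⟨i, hi, his⟩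
    left
    refine ⟨(y, s ∩ {i | i < l + 1}), ⟨hy, inter_subset_right, i, hi, fun h => his h.1⟩, ?_⟩
    ext z
    simp only [mem_union, mem_ofPred_eq, mem_inter_iff]
    constructor
    · rintro (h | ⟨h, h', -⟩)
      · exact Or.inl h
      · exact Or.inr ⟨h, h'⟩
    · rintro (h | ⟨h, h'⟩)
      · exact Or.inl h
      · exact Or.inr ⟨h, h', hc1 z h⟩

/-- A run: finite active sets and a colouring. -/
structure Run (p : ℕ → Cond I) (D : ℕ → Set I → Set I) (A : ℕ → Set (Set I)) (C : I → ℕ) :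
    Prop where
  fin : ∀ l, (A l).Finite
  sub : ∀ l, A l ⊆ (p l).Y
  new : ∀ (n m : ℕ) (L : Set (Set I × Set ℕ)) (Φ : Set (I × ℕ)), 0 < m → IsTL (p n).Y m L →
    IsPC ((⋃ n, (p n).F) \ (p n).F) m Φ → ∀ K, ∃ k ≥ K, n ≤ k ∧ ∃ c : I → ℕ,
      (∀ z ∈ (p k).F \ (p n).F, c z < m) ∧ (∀ u ∈ Φ, u.1 ∈ (p k).F ∧ c u.1 = u.2) ∧
        ∀ u ∈ L, u.1 ∪ {z ∈ (p k).F \ (p n).F | c z ∈ u.2} ∈ A k
  col_le : ∀ l, ∀ z ∈ (p (l + 1)).F \ (p l).F, C z ≤ l
  good : ∀ l, ∀ y ∈ A l, ∀ z ∈ D l y, C z = l.unpair.1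
  inf : ∀ l, ∃ z ∈ (p (l + 1)).F \ (p l).F, C z = l.unpair.1
  ext : ∀ l, ∀ y ∈ A l, ∀ s : Set ℕ, (∃ i ≤ l, i ∉ s) →
    y ∪ {z ∈ (p (l + 1)).F \ (p l).F | C z ∈ s} ∈ A (l + 1)

theorem exists_run (hne : ∀ n, ∃ z, z ∈ (p (n + 1)).F ∧ z ∉ (p n).F) (D : ℕ → Set I → Set I)
    (hD : ∀ n, ∀ y ∈ (p n).Y, (D n y).Finite ∧ D n y ⊆ (p (n + 1)).F \ (p n).F) :
    ∃ A C, Run p D A C := by
  classical
  obtain ⟨New, hN, hnew⟩ := exists_new hp
  have step : ∀ (l : ℕ) (A : Set (Set I)), (A.Finite ∧ A ⊆ (p l).Y) →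
      ∃ (c : I → ℕ) (A' : Set (Set I)), A'.Finite ∧ A' ⊆ (p (l + 1)).Y ∧ New (l + 1) ⊆ A' ∧
      (∀ z ∈ (p (l + 1)).F \ (p l).F, c z ≤ l) ∧ (∀ y ∈ A, ∀ z ∈ D l y, c z = l.unpair.1) ∧
      (∃ z ∈ (p (l + 1)).F \ (p l).F, c z = l.unpair.1) ∧
      ∀ y ∈ A, ∀ s : Set ℕ, (∃ i ≤ l, i ∉ s) →
        y ∪ {z ∈ (p (l + 1)).F \ (p l).F | c z ∈ s} ∈ A' := by
    rintro l A ⟨hA, hA'⟩
    obtain ⟨c, A', h1, h2, h3, h4, h5, h6, h7⟩ := exists_step hp l A (New (l + 1)) hA hA'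
      (hN _).1 (hN _).2 (⋃ y ∈ A, D l y) (hA.biUnion fun y hy => (hD l y (hA' hy)).1)
      (iUnion₂_subset fun y hy => (hD l y (hA' hy)).2) (hne l) l.unpair.1
      (Nat.unpair_left_le l)
    exact ⟨c, A', h1, h2, h3, h4, fun y hy z hz => h5 z (mem_iUnion₂.2 ⟨y, hy, hz⟩), h6, h7⟩
  choose! c A' h1 h2 h3 h4 h5 h6 h7 using step
  let A : ℕ → Set (Set I) := fun l => Nat.rec (New 0) (fun l B => A' l B) l
  have hA : ∀ l, (A l).Finite ∧ A l ⊆ (p l).Y := by
    intro l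
    induction l with
    | zero => exact hN 0
    | succ l ih => exact ⟨h1 l _ ih, h2 l _ ih⟩
  have hAN : ∀ l, New l ⊆ A l := by
    intro l
    cases l with
    | zero => exact Subset.rfl
    | succ l => exact h3 l _ (hA l)
  let C : I → ℕ := fun z => if h : ∃ l, z ∈ (p (l + 1)).F \ (p l).F then
    c h.choose (A h.choose) z else 0
  have hC : ∀ l, ∀ z ∈ (p (l + 1)).F \ (p l).F, C z = c l (A l) z := by
    intro l z hz
    have h : ∃ l, z ∈ (p (l + 1)).F \ (p l).F := ⟨l, hz⟩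
    have hl : h.choose = l := by
      have h' := h.choose_spec
      rcases lt_trichotomy h.choose l with h8 | h8 | h8
      · exact absurd (F_mono' hp (Nat.succ_le_of_lt h8) h'.1) hz.2
      · exact h8
      · exact absurd (F_mono' hp (Nat.succ_le_of_lt h8) hz.1) h'.2
    simp only [C, dif_pos h, hl]
  have hset : ∀ l (s : Set ℕ), {z ∈ (p (l + 1)).F \ (p l).F | C z ∈ s} =
      {z ∈ (p (l + 1)).F \ (p l).F | c l (A l) z ∈ s} := by
    intro l s
    ext z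
    simp only [mem_ofPred_eq]
    constructor
    · rintro ⟨h, h'⟩
      exact ⟨h, by rwa [← hC l z h]⟩
    · rintro ⟨h, h'⟩
      exact ⟨h, by rwa [hC l z h]⟩
  refine ⟨A, C, fun l => (hA l).1, fun l => (hA l).2, ?_, ?_, ?_, ?_, ?_⟩
  · intro n m L Φ hm hL hΦ K
    obtain ⟨k, hk, hnk, c', hc1, hc2, hc3⟩ := hnew n m L Φ hm hL hΦ K
    exact ⟨k, hk, hnk, c', hc1, hc2, fun u hu => hAN k (hc3 u hu)⟩
  · intro l z hz
    rw [hC l z hz]
    exact h4 l _ (hA l) z hz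
  · intro l y hy z hz
    rw [hC l z ((hD l y ((hA l).2 hy)).2 hz)]
    exact h5 l _ (hA l) y hy z hz
  · intro l
    obtain ⟨z, hz, hz'⟩ := h6 l _ (hA l)
    exact ⟨z, hz, by rwa [hC l z hz]⟩
  · intro l y hy s hs
    rw [hset]
    exact h7 l _ (hA l) y hy s hs

omit hp in
/-- The new sets of the limit condition. -/
def newSet (p : ℕ → Cond I) (C : I → ℕ) (e : ℕ → I) (k : ℕ) (y : Set I) (s : Set ℕ) : Set I :=
  {z | z ∈ y ∨ (z ∈ ⋃ n, (p n).F) ∧ z ∉ (p k).F ∧ C z ∈ s ∨ (∃ t ∈ s, z = e (t + 1)) ∨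
    z = e 0 ∧ sᶜ.Finite}

omit hp in
/-- The sets of the limit condition. -/
def limY (p : ℕ → Cond I) (A : ℕ → Set (Set I)) (C : I → ℕ) (e : ℕ → I) : Set (Set I) :=
  (⋃ n, (p n).Y) ∪ {y' | ∃ k y s, y ∈ A k ∧ (∃ i ≤ k, i ∉ s) ∧ (s.Finite ∨ sᶜ.Finite) ∧
    y' = newSet p C e k y s}

section lim

variable {D : ℕ → Set I → Set I} {A : ℕ → Set (Set I)} {C : I → ℕ} (R : Run p D A C)
  {e : ℕ → I} (he : Function.Injective e) (he' : ∀ i, e i ∉ ⋃ n, (p n).F)

include R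

theorem Run.ext' {k l : ℕ} (hkl : k ≤ l) {y : Set I} (hy : y ∈ A k) {s : Set ℕ}
    (hs : ∃ i ≤ k, i ∉ s) : y ∪ {z ∈ (p l).F \ (p k).F | C z ∈ s} ∈ A l := by
  induction l, hkl using Nat.le_induction with
  | base => simpa using hy
  | succ l hkl ih =>
    obtain ⟨i, hi, hi'⟩ := hs
    have := R.ext l _ ih s ⟨i, hi.trans hkl, hi'⟩
    convert this using 1
    ext z
    simp only [mem_union, mem_ofPred_eq, mem_sdiff]
    constructor
    · rintro (h | ⟨⟨h, h'⟩, h''⟩)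
      · exact Or.inl (Or.inl h)
      · by_cases hz : z ∈ (p l).F
        · exact Or.inl (Or.inr ⟨⟨hz, h'⟩, h''⟩)
        · exact Or.inr ⟨⟨h, hz⟩, h''⟩
    · rintro ((h | ⟨⟨h, h'⟩, h''⟩) | ⟨⟨h, h'⟩, h''⟩)
      · exact Or.inl h
      · exact Or.inr ⟨⟨F_mono' hp (Nat.le_succ l) h, h'⟩, h''⟩
      · exact Or.inr ⟨⟨h, fun hz => h' (F_mono' hp hkl hz)⟩, h''⟩

include he'

theorem newSet_inter {k l : ℕ} (hkl : k ≤ l) {y : Set I} (hy : y ∈ A k) {s : Set ℕ} :
    newSet p C e k y s ∩ (p l).F = y ∪ {z ∈ (p l).F \ (p k).F | C z ∈ s} := by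
  ext z
  simp only [newSet, mem_union, mem_ofPred_eq, mem_sdiff, mem_inter_iff]
  have hmem : z ∈ (p l).F → z ∈ ⋃ n, (p n).F := fun h => mem_iUnion.2 ⟨l, h⟩
  constructor
  · rintro ⟨h | ⟨-, h, h'⟩ | ⟨t, -, rfl⟩ | ⟨rfl, -⟩, hz⟩
    · exact Or.inl h
    · exact Or.inr ⟨⟨hz, h⟩, h'⟩
    · exact absurd (hmem hz) (he' _)
    · exact absurd (hmem hz) (he' _)
  · rintro (h | ⟨⟨h, h'⟩, h''⟩)
    · exact ⟨Or.inl h, F_mono' hp hkl ((p k).sub y (R.sub k hy) h)⟩
    · exact ⟨Or.inr (Or.inl ⟨hmem h, h', h''⟩), h⟩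

theorem limY_tr (n : ℕ) {y : Set I} (hy : y ∈ limY p A C e) : y ∩ (p n).F ∈ (p n).Y := by
  rcases hy with hy | ⟨k, y, s, hy, hs, -, rfl⟩
  · obtain ⟨j, hj⟩ := mem_iUnion.1 hy
    rcases le_total j n with h | h
    · have hj' := Y_mono' hp h hj
      rwa [inter_eq_left.2 ((p n).sub y hj')]
    · exact (le_of_le hp h).tr y hj
  · rcases le_total k n with h | h
    · rw [newSet_inter hp R he' h hy]
      exact R.sub n (R.ext' hp h hy hs)
    · have h1 : newSet p C e k y s ∩ (p n).F = y ∩ (p n).F := by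
        have h2 := newSet_inter hp R he' (le_refl k) hy (s := s)
        have h3 : (newSet p C e k y s ∩ (p k).F) ∩ (p n).F = newSet p C e k y s ∩ (p n).F := by
          rw [inter_assoc, inter_eq_right.2 (F_mono' hp h)]
        rw [← h3, h2]
        simp
      rw [h1]
      exact (le_of_le hp h).tr y (R.sub k hy)

include he

theorem limY_typ {y : Set I} (hy : y ∈ limY p A C e) : ∃ (K : ℕ) (s : Set ℕ),
    (∀ z ∈ ⋃ n, (p n).F, z ∉ (p K).F → (z ∈ y ↔ C z ∈ s)) ∧ (∀ t, e (t + 1) ∈ y ↔ t ∈ s) ∧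
      (e 0 ∈ y ↔ sᶜ.Finite) ∧ ∀ t, K ≤ t → (t ∈ s ↔ sᶜ.Finite) := by
  have hinf : ¬ ((∅ : Set ℕ)ᶜ.Finite) := by
    rw [compl_empty]
    exact infinite_univ
  rcases hy with hy | ⟨k, y, s, hy, hs, hs', rfl⟩
  · obtain ⟨j, hj⟩ := mem_iUnion.1 hy
    have hsub : ∀ z, z ∈ y → z ∈ (p j).F := fun z hz => (p j).sub y hj hz
    refine ⟨j, ∅, ?_, ?_, ?_, ?_⟩
    · intro z _ hz
      simp only [mem_empty_iff_false, iff_false]
      exact fun h => hz (hsub z h)
    · intro t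
      simp only [mem_empty_iff_false, iff_false]
      exact fun h => he' _ (mem_iUnion.2 ⟨j, hsub _ h⟩)
    · exact ⟨fun h => absurd (mem_iUnion.2 ⟨j, hsub _ h⟩) (he' 0), fun h => absurd h hinf⟩
    · intro t _
      exact ⟨fun h => h.elim, fun h => absurd h hinf⟩
  · have hyF : ∀ z ∈ y, z ∈ (p k).F := fun z hz => (p k).sub y (R.sub k hy) hz
    have hyU : ∀ z ∈ y, z ∈ ⋃ n, (p n).F := fun z hz => mem_iUnion.2 ⟨k, hyF z hz⟩
    obtain ⟨T, hT⟩ : ∃ T : ℕ, ∀ t, T ≤ t → (t ∈ s ↔ sᶜ.Finite) := by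
      rcases hs' with h | h
      · have hns : ¬ sᶜ.Finite := fun h' => infinite_univ (by
          have := h.union h'
          rwa [union_compl_self] at this)
        obtain ⟨b, hb⟩ := h.bddAbove
        refine ⟨b + 1, fun t ht => ⟨fun h' => ?_, fun h' => absurd h' hns⟩⟩
        have := hb h'
        omega
      · obtain ⟨b, hb⟩ := h.bddAbove
        refine ⟨b + 1, fun t ht => ⟨fun _ => h, fun _ => ?_⟩⟩
        by_contra h'
        have := hb h'
        omega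
    refine ⟨max k T, s, ?_, ?_, ?_, ?_⟩
    · intro z hzU hz
      have hzk : z ∉ (p k).F := fun h => hz (F_mono' hp (le_max_left _ _) h)
      constructor
      · rintro (h | ⟨-, -, h⟩ | ⟨t, -, rfl⟩ | ⟨rfl, -⟩)
        · exact absurd (hyF z h) hzk
        · exact h
        · exact absurd hzU (he' _)
        · exact absurd hzU (he' _)
      · intro h
        exact Or.inr (Or.inl ⟨hzU, hzk, h⟩)
    · intro t
      constructor
      · rintro (h | ⟨h, -, -⟩ | ⟨t', ht', h⟩ | ⟨h, -⟩)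
        · exact absurd (hyU _ h) (he' _)
        · exact absurd h (he' _)
        · have := he h
          have : t = t' := by omega
          rwa [this]
        · have := he h
          omega
      · intro h
        exact Or.inr (Or.inr (Or.inl ⟨t, h, rfl⟩))
    · constructor
      · rintro (h | ⟨h, -, -⟩ | ⟨t', ht', h⟩ | ⟨-, h⟩)
        · exact absurd (hyU _ h) (he' _)
        · exact absurd h (he' _)
        · have := he h
          omega
        · exact h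
      · intro h
        exact Or.inr (Or.inr (Or.inr ⟨rfl, h⟩))
    · intro t ht
      exact hT t ((le_max_right _ _).trans ht)

theorem lim_acc {W : Set I} (hW : W ⊆ (⋃ n, (p n).F) ∪ range e) (hinf : W.Infinite) :
    ∃ z ∈ (⋃ n, (p n).F) ∪ range e, ∀ B : Set (Set I), B.Finite → B ⊆ limY p A C e →
      {a ∈ W | ∀ y ∈ B, a ∈ y ↔ z ∈ y}.Infinite := by
  classical
  by_cases h1 : ∃ n, (W ∩ (p n).F).Infinite
  · obtain ⟨n, hn⟩ := h1
    obtain ⟨z, hz, h⟩ := (p n).acc _ inter_subset_right hn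
    refine ⟨z, Or.inl (mem_iUnion.2 ⟨n, hz⟩), fun B hB hBY => ?_⟩
    refine (h ((fun y => y ∩ (p n).F) '' B) (hB.image _) ?_).mono ?_
    · rintro _ ⟨y, hy, rfl⟩
      exact limY_tr hp R he' n (hBY hy)
    · rintro a ⟨⟨ha, ha'⟩, h2⟩
      refine ⟨ha, fun y hy => ?_⟩
      have := h2 _ (mem_image_of_mem _ hy)
      simpa [ha', hz] using this
  have h1 : ∀ n, (W ∩ (p n).F).Finite := fun n => by
    by_contra h
    exact h1 ⟨n, h⟩
  have typ : ∀ y, y ∈ limY p A C e → ∃ (K : ℕ) (s : Set ℕ),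
    (∀ z ∈ ⋃ n, (p n).F, z ∉ (p K).F → (z ∈ y ↔ C z ∈ s)) ∧ (∀ t, e (t + 1) ∈ y ↔ t ∈ s) ∧
      (e 0 ∈ y ↔ sᶜ.Finite) ∧ ∀ t, K ≤ t → (t ∈ s ↔ sᶜ.Finite) :=
    fun y hy => limY_typ hp R he he' hy
  choose! K s hs1 hs2 hs3 hs4 using typ
  have hbd : ∀ B : Set (Set I), B.Finite → ∃ M, ∀ y ∈ B, K y ≤ M := by
    intro B hB
    obtain ⟨M, hM⟩ := (hB.image K).bddAbove
    exact ⟨M, fun y hy => hM (mem_image_of_mem _ hy)⟩
  by_cases h2 : ∃ t, (W ∩ {z | z ∈ (⋃ n, (p n).F) ∧ C z = t}).Infinite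
  · obtain ⟨t, ht⟩ := h2
    refine ⟨e (t + 1), Or.inr (mem_range_self _), fun B hB hBY => ?_⟩
    obtain ⟨M, hM⟩ := hbd B hB
    refine (ht.sdiff (h1 M)).mono ?_
    rintro a ⟨⟨ha, haU, hat⟩, haM⟩
    refine ⟨ha, fun y hy => ?_⟩
    rw [hs1 y (hBY hy) a haU (fun h => haM ⟨ha, F_mono' hp (hM y hy) h⟩), hs2 y (hBY hy), hat]
  · have h2 : ∀ t, (W ∩ {z | z ∈ (⋃ n, (p n).F) ∧ C z = t}).Finite := fun t => by
      by_contra h
      exact h2 ⟨t, h⟩
    refine ⟨e 0, Or.inr (mem_range_self _), fun B hB hBY => ?_⟩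
    obtain ⟨M, hM⟩ := hbd B hB
    have hfin : ((W ∩ (p M).F) ∪ (⋃ t ∈ {t | t < M}, W ∩ {z | z ∈ (⋃ n, (p n).F) ∧ C z = t}) ∪
        (fun t => e (t + 1)) '' {t | t < M}).Finite :=
      ((h1 M).union ((finite_lt_nat M).biUnion fun t _ => h2 t)).union
        ((finite_lt_nat M).image _)
    refine (hinf.sdiff hfin).mono ?_
    rintro a ⟨ha, hna⟩
    simp only [mem_union, mem_iUnion, not_or, not_exists] at hna
    obtain ⟨⟨hn1, hn2⟩, hn3⟩ := hna
    refine ⟨ha, fun y hy => ?_⟩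
    rcases hW ha with haU | ⟨i, rfl⟩
    · rw [hs1 y (hBY hy) a haU (fun h => hn1 ⟨ha, F_mono' hp (hM y hy) h⟩),
        hs3 y (hBY hy), hs4 y (hBY hy)]
      by_contra h
      have hlt : C a < M := lt_of_lt_of_le (not_le.1 h) (hM y hy)
      exact hn2 (C a) hlt ⟨ha, mem_iUnion.1 haU, rfl⟩
    · cases i with
      | zero => exact Iff.rfl
      | succ t =>
        rw [hs2 y (hBY hy), hs3 y (hBY hy), hs4 y (hBY hy)]
        by_contra h
        have hlt : t < M := lt_of_lt_of_le (not_le.1 h) (hM y hy)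
        exact hn3 ⟨t, hlt, rfl⟩

end lim

/-- A decreasing sequence with strictly increasing sets of points has a lower bound such that the
trace of each of its sets avoids the given finite sets infinitely often. -/
theorem exists_lower [Uncountable I] (hne : ∀ n, ∃ z, z ∈ (p (n + 1)).F ∧ z ∉ (p n).F)
    (D : ℕ → Set I → Set I)
    (hD : ∀ n, ∀ y ∈ (p n).Y, (D n y).Finite ∧ D n y ⊆ (p (n + 1)).F \ (p n).F) :
    ∃ q, (∀ n, q ≤ p n) ∧ ∀ y ∈ q.Y, ∀ k, ∃ n ≥ k, ∀ z ∈ D n (y ∩ (p n).F), z ∉ y := by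
  classical
  obtain ⟨A, C, R⟩ := exists_run hp hne D hD
  obtain ⟨e, he, he'⟩ : ∃ e : ℕ → I, Function.Injective e ∧ ∀ i, e i ∉ ⋃ n, (p n).F := by
    have hU : (⋃ n, (p n).F).Countable := countable_iUnion fun n => (p n).F_ctbl
    have hinf : ((⋃ n, (p n).F)ᶜ).Infinite := by
      intro h
      have h2 : (univ : Set I).Countable := by
        rw [← union_compl_self (⋃ n, (p n).F)]
        exact hU.union h.countable
      exact not_countable_univ_iff.2 ‹_› h2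
    let e := hinf.natEmbedding
    exact ⟨fun i => (e i : I), fun i j h => e.injective (Subtype.ext h), fun i => (e i).2⟩
  have hA0 : ∀ K, ∃ k ≥ K, (A k).Nonempty := by
    intro K
    obtain ⟨k, hk, -, c, -, -, h⟩ := R.new 0 1 {(∅, ∅)} ∅ Nat.one_pos
      ⟨finite_singleton _, by rintro _ rfl; exact ⟨(p 0).emp, 0, Nat.one_pos, id⟩⟩
      ⟨finite_empty, by simp, by simp⟩ K
    exact ⟨k, hk, _, h _ rfl⟩
  have hAc : {y' | ∃ k y s, y ∈ A k ∧ (∃ i ≤ k, i ∉ s) ∧ (s.Finite ∨ sᶜ.Finite) ∧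
      y' = newSet p C e k y s}.Countable := by
    have h1 : {s : Set ℕ | s.Finite ∨ sᶜ.Finite}.Countable := by
      refine Countable.union countable_finite_nat ?_
      have := countable_finite_nat.image (fun s : Set ℕ => sᶜ)
      refine this.mono ?_
      intro s hs
      exact ⟨sᶜ, hs, compl_compl s⟩
    have h2 : (⋃ k, A k).Countable := countable_iUnion fun k => (R.fin k).countable
    refine (((to_countable (univ : Set ℕ)).prod (h2.prod h1)).image
      (fun u => newSet p C e u.1 u.2.1 u.2.2)).mono ?_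
    rintro _ ⟨k, y, s, hy, -, hs, rfl⟩
    exact ⟨(k, y, s), ⟨mem_univ _, mem_iUnion.2 ⟨k, hy⟩, hs⟩, rfl⟩
  let q : Cond I :=
    { F := (⋃ n, (p n).F) ∪ range e
      Y := limY p A C e
      F_ctbl := (countable_iUnion fun n => (p n).F_ctbl).union (countable_range e)
      Y_ctbl := (countable_iUnion fun n => (p n).Y_ctbl).union hAc
      emp := Or.inl (mem_iUnion.2 ⟨0, (p 0).emp⟩)
      sub := by
        rintro y (hy | ⟨k, y, s, hy, -, -, rfl⟩)
        · obtain ⟨n, hn⟩ := mem_iUnion.1 hy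
          exact ((p n).sub y hn).trans ((subset_iUnion (fun n => (p n).F) n).trans
            subset_union_left)
        · rintro z (h | ⟨h, -⟩ | ⟨t, -, rfl⟩ | ⟨rfl, -⟩)
          · exact Or.inl (mem_iUnion.2 ⟨k, (p k).sub y (R.sub k hy) h⟩)
          · exact Or.inl h
          · exact Or.inr (mem_range_self _)
          · exact Or.inr (mem_range_self _)
      cov := by
        rintro z (hz | ⟨i, rfl⟩)
        · obtain ⟨n, hn⟩ := mem_iUnion.1 hz
          obtain ⟨y, hy, hzy⟩ := (p n).cov z hn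
          exact ⟨y, Or.inl (mem_iUnion.2 ⟨n, hy⟩), hzy⟩
        · cases i with
          | zero =>
            obtain ⟨k, hk, y, hy⟩ := hA0 0
            refine ⟨newSet p C e k y {0}ᶜ, Or.inr ⟨k, y, _, hy, ⟨0, Nat.zero_le _, by simp⟩,
              Or.inr (by rw [compl_compl]; exact finite_singleton _), rfl⟩, ?_⟩
            exact Or.inr (Or.inr (Or.inr ⟨rfl, by rw [compl_compl]; exact finite_singleton _⟩))
          | succ t =>
            obtain ⟨k, hk, y, hy⟩ := hA0 (t + 1)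
            refine ⟨newSet p C e k y {t}, Or.inr ⟨k, y, _, hy, ⟨t + 1, hk, by simp⟩,
              Or.inl (finite_singleton _), rfl⟩, ?_⟩
            exact Or.inr (Or.inr (Or.inl ⟨t, rfl, rfl⟩))
      acc := fun W hW hinf => lim_acc hp R he he' hW hinf }
  have hdom : ∀ n, (p n).F ⊆ ⋃ n, (p n).F := fun n => subset_iUnion (fun n => (p n).F) n
  refine ⟨q, fun n => ⟨?_, ?_, ?_, ?_⟩, ?_⟩
  · exact (hdom n).trans subset_union_left
  · exact fun y hy => Or.inl (mem_iUnion.2 ⟨n, hy⟩)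
  · exact fun y hy => limY_tr hp R he' n hy
  · intro m L Φ hm hL hΦ
    -- the colours of the new points
    obtain ⟨T, hT⟩ : ∃ T, ∀ t, (∃ u ∈ Φ, u.1 = e (t + 1)) → t < T := by
      have hfin : {t | ∃ u ∈ Φ, u.1 = e (t + 1)}.Finite := by
        refine Finite.of_finite_image (f := fun t => e (t + 1)) ?_ ?_
        · refine (hΦ.1.image Prod.fst).subset ?_
          rintro _ ⟨t, ⟨u, hu, h⟩, rfl⟩
          exact ⟨u, hu, h⟩
        · intro a _ b _ h
          have := he h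
          omega
      obtain ⟨b, hb⟩ := hfin.bddAbove
      exact ⟨b + 1, fun t ht => Nat.lt_succ_of_le (hb ht)⟩
    obtain ⟨cinf, hcinf, hcinf'⟩ : ∃ c < m, ∀ u ∈ Φ, u.1 = e 0 → u.2 = c := by
      by_cases h : ∃ u ∈ Φ, u.1 = e 0
      · obtain ⟨u, hu, hue⟩ := h
        exact ⟨u.2, (hΦ.2.1 u hu).2, fun v hv hve => hΦ.2.2 v hv u hu (hve.trans hue.symm)⟩
      · push Not at h
        exact ⟨0, hm, fun u hu hue => absurd hue (h u hu)⟩
    obtain ⟨ψ, hψm, hψ1, hψ2, hψ3⟩ : ∃ ψ : ℕ → ℕ, (∀ t, ψ t < m) ∧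
        (∀ t, ∀ u ∈ Φ, u.1 = e (t + 1) → u.2 = ψ t) ∧ (∀ t, T + m ≤ t → ψ t = cinf) ∧
        ∀ j < m, ψ (T + j) = j := by
      let ψ : ℕ → ℕ := fun t => if h : ∃ u ∈ Φ, u.1 = e (t + 1) then h.choose.2 else
        if T ≤ t ∧ t < T + m then t - T else cinf
      refine ⟨ψ, fun t => ?_, ?_, ?_, ?_⟩
      · by_cases h : ∃ u ∈ Φ, u.1 = e (t + 1)
        · simp only [ψ, dif_pos h]
          exact (hΦ.2.1 _ h.choose_spec.1).2
        · simp only [ψ, dif_neg h]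
          split_ifs with h'
          · omega
          · exact hcinf
      · intro t u hu hue
        have h : ∃ u ∈ Φ, u.1 = e (t + 1) := ⟨u, hu, hue⟩
        simp only [ψ, dif_pos h]
        exact hΦ.2.2 u hu _ h.choose_spec.1 (hue.trans h.choose_spec.2.symm)
      · intro t ht
        have h : ¬ ∃ u ∈ Φ, u.1 = e (t + 1) := fun h => by
          have := hT t h
          omega
        simp only [ψ, dif_neg h]
        rw [if_neg (by omega)]
      · intro j hj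
        have h : ¬ ∃ u ∈ Φ, u.1 = e (T + j + 1) := fun h => by
          have := hT _ h
          omega
        simp only [ψ, dif_neg h]
        rw [if_pos (by omega)]
        omega
    obtain ⟨k, hk, hnk, c, hc1, hc2, hc3⟩ := R.new n m L {u ∈ Φ | u.1 ∈ ⋃ n, (p n).F} hm hL
      ⟨hΦ.1.subset (sep_subset _ _), fun u hu => ⟨⟨hu.2, (hΦ.2.1 u hu.1).1.2⟩,
        (hΦ.2.1 u hu.1).2⟩, fun u hu v hv => hΦ.2.2 u hu.1 v hv.1⟩ (T + m)
    have hidx : ∀ z : I, z ∈ range e → ∃ i, z = e i := fun z ⟨i, h⟩ => ⟨i, h.symm⟩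
    let col : I → ℕ := fun z => if z ∈ (p k).F then c z else
      if z ∈ ⋃ n, (p n).F then ψ (C z) else
      if h : ∃ t, z = e (t + 1) then ψ h.choose else cinf
    have col1 : ∀ z ∈ (p k).F, col z = c z := fun z hz => if_pos hz
    have col2 : ∀ z ∈ ⋃ n, (p n).F, z ∉ (p k).F → col z = ψ (C z) := fun z hz hz' => by
      simp only [col, if_neg hz', if_pos hz]
    have col3 : ∀ t, col (e (t + 1)) = ψ t := fun t => by
      have h1 : e (t + 1) ∉ (p k).F := fun h => he' _ (hdom k h)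
      have h : ∃ t', e (t + 1) = e (t' + 1) := ⟨t, rfl⟩
      have h2 : h.choose = t := by
        have := he h.choose_spec
        omega
      simp only [col, if_neg h1, if_neg (he' (t + 1)), dif_pos h, h2]
    have col0 : col (e 0) = cinf := by
      have h1 : e 0 ∉ (p k).F := fun h => he' _ (hdom k h)
      have h : ¬ ∃ t', e 0 = e (t' + 1) := fun ⟨t, ht⟩ => by
        have := he ht
        omega
      simp only [col, if_neg h1, if_neg (he' 0), dif_neg h]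
    refine ⟨col, ?_, ?_, ?_⟩
    · rintro z ⟨hz, hz'⟩
      rcases hz with hz | ⟨i, rfl⟩
      · by_cases hzk : z ∈ (p k).F
        · rw [col1 z hzk]
          exact hc1 z ⟨hzk, hz'⟩
        · rw [col2 z hz hzk]
          exact hψm _
      · cases i with
        | zero => rw [col0]; exact hcinf
        | succ t => rw [col3]; exact hψm _
    · intro u hu
      rcases (hΦ.2.1 u hu).1.1 with hz | ⟨i, hi⟩
      · have h1 := hc2 u ⟨hu, hz⟩
        rw [col1 _ h1.1]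
        exact h1.2
      · cases i with
        | zero => rw [← hi, col0]; exact (hcinf' u hu hi.symm).symm
        | succ t => rw [← hi, col3]; exact (hψ1 t u hu hi.symm).symm
    · intro u hu
      right
      obtain ⟨hu1, j, hj, hj'⟩ := hL.2 u hu
      refine ⟨k, _, ψ ⁻¹' u.2, hc3 u hu, ⟨T + j, by omega, ?_⟩, ?_, ?_⟩
      · rw [mem_preimage, hψ3 j hj]
        exact hj'
      · by_cases h : cinf ∈ u.2
        · right
          refine (finite_lt_nat (T + m)).subset fun t ht => ?_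
          by_contra h'
          exact ht (by rw [mem_preimage, hψ2 t (not_lt.1 h')]; exact h)
        · left
          refine (finite_lt_nat (T + m)).subset fun t ht => ?_
          by_contra h'
          rw [mem_preimage, hψ2 t (not_lt.1 h')] at ht
          exact h ht
      · have hcof : (ψ ⁻¹' u.2)ᶜ.Finite ↔ cinf ∈ u.2 := by
          constructor
          · intro h
            by_contra h'
            refine infinite_univ (α := ℕ) ?_
            refine (h.union (finite_lt_nat (T + m))).subset fun t _ => ?_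
            by_cases ht : t < T + m
            · exact Or.inr ht
            · left
              rw [mem_compl_iff, mem_preimage, hψ2 t (not_lt.1 ht)]
              exact h'
          · intro h
            refine (finite_lt_nat (T + m)).subset fun t ht => ?_
            by_contra h'
            exact ht (by rw [mem_preimage, hψ2 t (not_lt.1 h')]; exact h)
        ext z
        change z ∈ u.1 ∪ {z ∈ ((⋃ n, (p n).F) ∪ range e) \ (p n).F | col z ∈ u.2} ↔
          (z ∈ u.1 ∪ {z ∈ (p k).F \ (p n).F | c z ∈ u.2} ∨ (z ∈ ⋃ n, (p n).F) ∧ z ∉ (p k).F ∧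
            C z ∈ ψ ⁻¹' u.2 ∨ (∃ t ∈ ψ ⁻¹' u.2, z = e (t + 1)) ∨ z = e 0 ∧ (ψ ⁻¹' u.2)ᶜ.Finite)
        rw [hcof]
        constructor
        · rintro (h | ⟨⟨h | ⟨i, rfl⟩, h'⟩, h''⟩)
          · exact Or.inl (Or.inl h)
          · by_cases hzk : z ∈ (p k).F
            · rw [col1 z hzk] at h''
              exact Or.inl (Or.inr ⟨⟨hzk, h'⟩, h''⟩)
            · rw [col2 z h hzk] at h''
              exact Or.inr (Or.inl ⟨h, hzk, h''⟩)
          · cases i with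
            | zero =>
              rw [col0] at h''
              exact Or.inr (Or.inr (Or.inr ⟨rfl, h''⟩))
            | succ t =>
              rw [col3] at h''
              exact Or.inr (Or.inr (Or.inl ⟨t, h'', rfl⟩))
        · rintro ((h | ⟨⟨h, h'⟩, h''⟩) | ⟨h, h', h''⟩ | ⟨t, h, rfl⟩ | ⟨rfl, h⟩)
          · exact Or.inl h
          · refine Or.inr ⟨⟨Or.inl (hdom k h), h'⟩, ?_⟩
            rwa [col1 z h]
          · refine Or.inr ⟨⟨Or.inl h, fun hz => h' (F_mono' hp hnk hz)⟩, ?_⟩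
            rwa [col2 z h h']
          · refine Or.inr ⟨⟨Or.inr (mem_range_self _), fun hz => he' _ (hdom n hz)⟩, ?_⟩
            rwa [col3]
          · refine Or.inr ⟨⟨Or.inr (mem_range_self _), fun hz => he' _ (hdom n hz)⟩, ?_⟩
            rwa [col0]
  · rintro y (hy | ⟨k', y, s, hy, ⟨i, hi, his⟩, -, rfl⟩) k
    · obtain ⟨j, hj⟩ := mem_iUnion.1 hy
      refine ⟨max j k, le_max_right _ _, ?_⟩
      have hj' := Y_mono' hp (le_max_left j k) hj
      rw [inter_eq_left.2 ((p (max j k)).sub y hj')]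
      intro z hz hzy
      exact ((hD _ y hj').2 hz).2 ((p (max j k)).sub y hj' hzy)
    · refine ⟨Nat.pair i (max k k'), (le_max_left k k').trans (Nat.right_le_pair _ _), ?_⟩
      have hkl : k' ≤ Nat.pair i (max k k') := (le_max_right k k').trans (Nat.right_le_pair _ _)
      rw [newSet_inter hp R he' hkl hy]
      have hact := R.ext' hp hkl hy (s := s) ⟨i, hi, his⟩
      intro z hz hzN
      have h1 := R.good _ _ hact z hz
      rw [Nat.unpair_pair] at h1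
      have h2 := (hD _ _ (R.sub _ hact)).2 hz
      have h3 : z ∉ (p k').F := fun h => h2.2 (F_mono' hp hkl h)
      rcases hzN with h | ⟨-, -, h⟩ | ⟨t, -, rfl⟩ | ⟨rfl, -⟩
      · exact h3 ((p k').sub y (R.sub k' hy) h)
      · rw [h1] at h
        exact his h
      · exact he' _ (hdom _ h2.1)
      · exact he' _ (hdom _ h2.1)

end

end Pool.Agent.MP7e7dde
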