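import Pool.Agent.MP_7e7dde_gt.Key

/-! The generic space is Lindelöf and has countable tightness. -/

set_option linter.unusedVariables false
set_option linter.unusedSectionVars false
set_option linter.unreachableTactic false
set_option linter.unusedTactic false

namespace Pool.Agent.MP7e7dde

open BVM BName SetModel MP63050e

variable {B : Type} [CompleteBooleanAlgebra B] {I : Type} {em : Cond I → B}

theorem exists_of_V (hem : DenseEmb em) {q : Cond I} {y : Set I} {h : Ult B}
    (hq : h.V (em q)) (hy : h.V (yv em y)) : ∃ r, r ≤ q ∧ y ∈ r.Y := by
  obtain ⟨q', hq', hq''⟩ := hem.exists_of_inf (h.ne_bot ((h.inf' _ _).2 ⟨hq, hy⟩))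
  obtain ⟨r, hr, hyr⟩ := exists_of_yv hem (p := q') (y := y) fun h hh => h.mono hq'' hh
  exact ⟨r, hr.trans hq', hyr⟩

/-- The basic open set with code `k` is contained in an element of `A`. -/
def InSome (c : Set I → B) (A : BName B) (k : KK I) (h : Ult B) : Prop :=
  ∃ U, E h U (Mdl.mk h A) ∧ ∀ x, E h x (Mdl.mk h (chk c)) →
    Has (E h) (Mdl.mk h (IN B I)) [Mdl.mk h (nm k), x] → E h x U

theorem isLindelof [Uncountable I] (hem : DenseEmb em) (h : Ult B) :
    IsLindelof (E h) (Mdl.mk h (omN B)) (Mdl.mk h (chk (yv em))) (Mdl.mk h (TN (yv em))) := by
  intro A hA hcov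
  obtain ⟨A, rfl⟩ := A.exists_rep
  refine imp_of_fo hem (Q := fun h => Sub (E h) (Mdl.mk h A) (Mdl.mk h (TN (yv em))) ∧
      ∀ x, E h x (Mdl.mk h (chk (yv em))) → ∃ U, E h U (Mdl.mk h A) ∧ E h x U)
    (R := fun h => ∃ W, Sub (E h) W (Mdl.mk h A) ∧ IsCtbl (E h) (Mdl.mk h (omN B)) W ∧
      ∀ x, E h x (Mdl.mk h (chk (yv em))) → ∃ U, E h U W ∧ E h x U) ?_ ?_ ?_ h ⟨hA, hcov⟩
  · refine BPred.clop (P := fun h (_ : PUnit.{1}) => Sub (E h) (Mdl.mk h A)
      (Mdl.mk h (TN (yv em))) ∧ ∀ x, E h x (Mdl.mk h (chk (yv em))) →
        ∃ U, E h U (Mdl.mk h A) ∧ E h x U) ?_ PUnit.unit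
    repeat' first
      | exact BMap.id
      | apply BMap.fst
      | apply BMap.snd
      | exact BTerm.const _
      | apply bterm_opair
      | apply BTerm.of
      | apply BPred.mem
      | apply BPred.eq
      | apply bp_has2
      | apply bp_has3
      | apply bp_isTuple3
      | apply bp_eq_pr
      | apply bp_isPair
      | apply bp_isUPair
      | apply bp_isFun
      | apply bp_injects
      | apply bp_sub
      | apply BPred.not
      | apply BPred.and
      | apply BPred.or
      | apply BPred.iff
      | apply BPred.imp
      | refine BPred.ex ?_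
      | refine BPred.all ?_
      | exact BPred.const _
  · refine BPred.clop (P := fun h (_ : PUnit.{1}) => ∃ W, Sub (E h) W (Mdl.mk h A) ∧
      IsCtbl (E h) (Mdl.mk h (omN B)) W ∧
      ∀ x, E h x (Mdl.mk h (chk (yv em))) → ∃ U, E h U W ∧ E h x U) ?_ PUnit.unit
    repeat' first
      | exact BMap.id
      | apply BMap.fst
      | apply BMap.snd
      | exact BTerm.const _
      | apply bterm_opair
      | apply BTerm.of
      | apply BPred.mem
      | apply BPred.eq
      | apply bp_has2
      | apply bp_has3
      | apply bp_isTuple3
      | apply bp_eq_pr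
      | apply bp_isPair
      | apply bp_isUPair
      | apply bp_isFun
      | apply bp_injects
      | apply bp_sub
      | apply bp_isCtbl
      | apply BPred.not
      | apply BPred.and
      | apply BPred.or
      | apply BPred.iff
      | apply BPred.imp
      | refine BPred.ex ?_
      | refine BPred.all ?_
      | exact BPred.const _
  · clear hA hcov h
    intro p hp
    have hdec : ∀ j : ℕ, ∀ r, r ≤ p → ∀ y ∈ r.Y, ∃ r', r' ≤ r ∧ ∃ k, inK k y ∧
        Fo em r' (InSome (yv em) A k) := by
      intro _ r hr y hy
      obtain ⟨r', hr', k, hk⟩ := decide_mem hem (ι := KK I) nm (fun _ => ⊤)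
        (Q := fun h k => Has (E h) (Mdl.mk h (IN B I)) [k, Mdl.mk h (nm y)] ∧
          ∃ U, E h U (Mdl.mk h A) ∧ ∀ x, E h x (Mdl.mk h (chk (yv em))) →
            Has (E h) (Mdl.mk h (IN B I)) [k, x] → E h x U) (by
          repeat' first
            | exact BMap.id
            | apply BMap.fst
            | apply BMap.snd
            | exact BTerm.const _
            | apply bterm_opair
            | apply BTerm.of
            | apply BPred.mem
            | apply BPred.eq
            | apply bp_has2
            | apply bp_has3
            | apply bp_isTuple3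
            | apply bp_eq_pr
            | apply bp_isPair
            | apply bp_isUPair
            | apply bp_isFun
            | apply bp_injects
            | apply BPred.not
            | apply BPred.and
            | apply BPred.or
            | apply BPred.iff
            | apply BPred.imp
            | refine BPred.ex ?_
            | refine BPred.all ?_
            | exact BPred.const _
          ) (p := r) (by
          intro h hh
          obtain ⟨h1, h2⟩ := hp h (h.mono (hem.mono _ _ hr) hh)
          obtain ⟨U, hU, hyU⟩ := h2 (Mdl.mk h (nm y)) (E_chk.2 (yv_of hy h hh))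
          obtain ⟨h3, h4⟩ := (E_TN _ _ _).1 (h1 U hU)
          obtain ⟨k, hk, hk', hk''⟩ := h4 _ hyU
          exact ⟨k, hk, hk', U, hU, hk''⟩)
      refine ⟨r', hr', k, ?_, fun h hh => (hk h hh).2.2⟩
      exact Fo.const hem (p := r') (fun h hh => (has_IN k y).1 (hk h hh).2.1)
    obtain ⟨q, hqp, S, hS, hkey⟩ := key p (fun _ k q => Fo em q (InSome (yv em) A k))
      (fun _ k q r hrq hq => hq.mono hem hrq) hdec
    let S' : Set (KK I) := {k ∈ S | Fo em q (InSome (yv em) A k)}
    have hS' : S'.Countable := hS.mono (Set.sep_subset _ _)
    have hne : S'.Nonempty := by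
      obtain ⟨k, hk, -, -, hk'⟩ := hkey 0 q le_rfl ∅ q.emp
      exact ⟨k, hk, hk'⟩
    obtain ⟨f, hf⟩ := hS'.exists_eq_range hne
    have hfS : ∀ n, Fo em q (InSome (yv em) A (f n)) := by
      intro n
      have : f n ∈ S' := by rw [hf]; exact Set.mem_range_self n
      exact this.2
    have hwit : ∀ n, ∃ U : BName B, ∀ h : Ult B, h.V (em q) → E h (Mdl.mk h U) (Mdl.mk h A) ∧
        ∀ x, E h x (Mdl.mk h (chk (yv em))) →
          Has (E h) (Mdl.mk h (IN B I)) [Mdl.mk h (nm (f n)), x] → E h x (Mdl.mk h U) := by
      intro n
      refine exists_wit (P := fun h U => E h U (Mdl.mk h A) ∧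
        ∀ x, E h x (Mdl.mk h (chk (yv em))) →
          Has (E h) (Mdl.mk h (IN B I)) [Mdl.mk h (nm (f n)), x] → E h x U) ?_
        (Q := fun h => h.V (em q)) (fun h hh => hfS n h hh)
      repeat' first
        | exact BMap.id
        | apply BMap.fst
        | apply BMap.snd
        | exact BTerm.const _
        | apply bterm_opair
        | apply BTerm.of
        | apply BPred.mem
        | apply BPred.eq
        | apply bp_has2
        | apply bp_has3
        | apply bp_isTuple3
        | apply bp_eq_pr
        | apply bp_isPair
        | apply bp_isUPair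
        | apply bp_isFun
        | apply bp_injects
        | apply BPred.not
        | apply BPred.and
        | apply BPred.or
        | apply BPred.iff
        | apply BPred.imp
        | refine BPred.ex ?_
        | refine BPred.all ?_
        | exact BPred.const _
    choose U hU using hwit
    refine ⟨q, hqp, fun h hh => ⟨Mdl.mk h (BName.mk ℕ U (fun _ => ⊤)), ?_, isCtbl_seq U
      (fun z hz => hz), ?_⟩⟩
    · refine forall_mem (P := fun h z => E h z (Mdl.mk h A)) _ _ ?_ (clop_V (em q)) ?_ h hh
      · repeat' first
          | exact BMap.id
          | apply BMap.fst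
          | apply BMap.snd
          | exact BTerm.const _
          | apply bterm_opair
          | apply BTerm.of
          | apply BPred.mem
          | apply BPred.eq
          | apply bp_has2
          | apply bp_has3
          | apply bp_isTuple3
          | apply bp_eq_pr
          | apply bp_isPair
          | apply bp_isUPair
          | apply bp_isFun
          | apply bp_injects
          | apply BPred.not
          | apply BPred.and
          | apply BPred.or
          | apply BPred.iff
          | apply BPred.imp
          | refine BPred.ex ?_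
          | refine BPred.all ?_
          | exact BPred.const _
      · intro h hh n _
        exact (hU n h hh).1
    · refine forall_chk _ (P := fun h x => ∃ V, E h V (Mdl.mk h (BName.mk ℕ U (fun _ => ⊤))) ∧
        E h x V) ?_ (clop_V (em q)) ?_ h hh
      · repeat' first
          | exact BMap.id
          | apply BMap.fst
          | apply BMap.snd
          | exact BTerm.const _
          | apply bterm_opair
          | apply BTerm.of
          | apply BPred.mem
          | apply BPred.eq
          | apply bp_has2
          | apply bp_has3
          | apply bp_isTuple3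
          | apply bp_eq_pr
          | apply bp_isPair
          | apply bp_isUPair
          | apply bp_isFun
          | apply bp_injects
          | apply BPred.not
          | apply BPred.and
          | apply BPred.or
          | apply BPred.iff
          | apply BPred.imp
          | refine BPred.ex ?_
          | refine BPred.all ?_
          | exact BPred.const _
      · intro h hh y hy
        obtain ⟨r, hr, hyr⟩ := exists_of_V hem hh hy
        obtain ⟨k, hk, hk1, -, hk2⟩ := hkey 0 r hr y hyr
        obtain ⟨n, hn⟩ : ∃ n, f n = k := by
          have : k ∈ S' := ⟨hk, hk2⟩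
          rwa [hf] at this
        refine ⟨Mdl.mk h (U n), E_of_coe (e := U) (i := n) h.top', (hU n h hh).2 _
          (E_chk.2 hy) ?_⟩
        rw [has_IN, hn]
        exact hk1

/-- Basic open sets exist in the model. -/
theorem exists_basic (c : Set I → B) (k : KK I) (h : Ult B) : ∃ U, E h U (Mdl.mk h (TN c)) ∧
    ∀ x, E h x U ↔ E h x (Mdl.mk h (chk c)) ∧
      Has (E h) (Mdl.mk h (IN B I)) [Mdl.mk h (nm k), x] := by
  obtain ⟨U, hU⟩ := separation_name (H := fun h : Ult B => h) (D := fun h z =>
    Has (E h) (Mdl.mk h (IN B I)) [Mdl.mk h (nm k), z]) (by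
      repeat' first
        | exact BMap.id
        | apply BMap.fst
        | apply BMap.snd
        | exact BTerm.const _
        | apply bterm_opair
        | apply BTerm.of
        | apply BPred.mem
        | apply BPred.eq
        | apply bp_has2
        | apply bp_has3
        | apply bp_isTuple3
        | apply bp_eq_pr
        | apply bp_isPair
        | apply bp_isUPair
        | apply bp_isFun
        | apply bp_injects
        | apply BPred.not
        | apply BPred.and
        | apply BPred.or
        | apply BPred.iff
        | apply BPred.imp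
        | refine BPred.ex ?_
        | refine BPred.all ?_
        | exact BPred.const _
      ) (chk c)
  refine ⟨Mdl.mk h U, ?_, hU h⟩
  rw [E_TN]
  refine ⟨fun x hx => ((hU h x).1 hx).1, fun x hx => ?_⟩
  exact ⟨Mdl.mk h (nm k), E_KN k, ((hU h x).1 hx).2, fun x' hx' hk => (hU h x').2 ⟨hx', hk⟩⟩

theorem isTight [Uncountable I] (hem : DenseEmb em) (h : Ult B) :
    IsTight (E h) (Mdl.mk h (omN B)) (Mdl.mk h (chk (yv em))) (Mdl.mk h (TN (yv em))) := by
  classical
  intro A x hA hx hcl
  obtain ⟨A, rfl⟩ := A.exists_rep
  obtain ⟨x, rfl⟩ := x.exists_rep
  refine imp_of_fo hem (Q := fun h => Sub (E h) (Mdl.mk h A) (Mdl.mk h (chk (yv em))) ∧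
      E h (Mdl.mk h x) (Mdl.mk h (chk (yv em))) ∧
      InCl (E h) (Mdl.mk h (TN (yv em))) (Mdl.mk h A) (Mdl.mk h x))
    (R := fun h => ∃ W, Sub (E h) W (Mdl.mk h A) ∧ IsCtbl (E h) (Mdl.mk h (omN B)) W ∧
      InCl (E h) (Mdl.mk h (TN (yv em))) W (Mdl.mk h x)) ?_ ?_ ?_ h ⟨hA, hx, hcl⟩
  · refine BPred.clop (P := fun h (_ : PUnit.{1}) => Sub (E h) (Mdl.mk h A)
      (Mdl.mk h (chk (yv em))) ∧ E h (Mdl.mk h x) (Mdl.mk h (chk (yv em))) ∧
      InCl (E h) (Mdl.mk h (TN (yv em))) (Mdl.mk h A) (Mdl.mk h x)) ?_ PUnit.unit
    repeat' first
      | exact BMap.id
      | apply BMap.fst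
      | apply BMap.snd
      | exact BTerm.const _
      | apply bterm_opair
      | apply BTerm.of
      | apply BPred.mem
      | apply BPred.eq
      | apply bp_has2
      | apply bp_has3
      | apply bp_isTuple3
      | apply bp_eq_pr
      | apply bp_isPair
      | apply bp_isUPair
      | apply bp_isFun
      | apply bp_injects
      | apply bp_sub
      | apply bp_inCl
      | apply BPred.not
      | apply BPred.and
      | apply BPred.or
      | apply BPred.iff
      | apply BPred.imp
      | refine BPred.ex ?_
      | refine BPred.all ?_
      | exact BPred.const _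
  · refine BPred.clop (P := fun h (_ : PUnit.{1}) => ∃ W, Sub (E h) W (Mdl.mk h A) ∧
      IsCtbl (E h) (Mdl.mk h (omN B)) W ∧
      InCl (E h) (Mdl.mk h (TN (yv em))) W (Mdl.mk h x)) ?_ PUnit.unit
    repeat' first
      | exact BMap.id
      | apply BMap.fst
      | apply BMap.snd
      | exact BTerm.const _
      | apply bterm_opair
      | apply BTerm.of
      | apply BPred.mem
      | apply BPred.eq
      | apply bp_has2
      | apply bp_has3
      | apply bp_isTuple3
      | apply bp_eq_pr
      | apply bp_isPair
      | apply bp_isUPair
      | apply bp_isFun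
      | apply bp_injects
      | apply bp_sub
      | apply bp_isCtbl
      | apply bp_inCl
      | apply BPred.not
      | apply BPred.and
      | apply BPred.or
      | apply BPred.iff
      | apply BPred.imp
      | refine BPred.ex ?_
      | refine BPred.all ?_
      | exact BPred.const _
  · clear hA hx hcl h
    intro p hp
    obtain ⟨p', hp', y₀, hy₀⟩ := decide_mem hem (ι := Set I) nm (yv em)
      (Q := fun h z => z = Mdl.mk h x) (by
        repeat' first
          | exact BMap.id
          | apply BMap.fst
          | apply BMap.snd
          | exact BTerm.const _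
          | apply bterm_opair
          | apply BTerm.of
          | apply BPred.mem
          | apply BPred.eq
          | apply bp_has2
          | apply bp_has3
          | apply bp_isTuple3
          | apply bp_eq_pr
          | apply bp_isPair
          | apply bp_isUPair
          | apply bp_isFun
          | apply bp_injects
          | apply BPred.not
          | apply BPred.and
          | apply BPred.or
          | apply BPred.iff
          | apply BPred.imp
          | refine BPred.ex ?_
          | refine BPred.all ?_
          | exact BPred.const _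
        ) (p := p) (fun h hh => ⟨Mdl.mk h x, (hp h hh).2.1, rfl⟩)
    obtain ⟨p'', hp'', hy₀Y⟩ := exists_of_yv hem (p := p') (y := y₀) fun h hh => (hy₀ h hh).1
    have hle : p'' ≤ p := hp''.trans hp'
    have hxeq : ∀ q, q ≤ p'' → Fo em q (fun h => Mdl.mk h (nm y₀) = Mdl.mk h x) :=
      fun q hq h hh => (hy₀ h (h.mono (hem.mono _ _ (hq.trans hp'')) hh)).2
    obtain ⟨q, hqp, S, hS, hS1, hS2⟩ := tight_key p'' hy₀Y
      (fun y q => Fo em q (fun h => E h (Mdl.mk h (nm y)) (Mdl.mk h A)))
      (fun y q r hrq hq => hq.mono hem hrq) (by
      intro r hr d
      obtain ⟨r', hr', y, hy⟩ := decide_mem hem (ι := Set I) nm (yv em)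
        (Q := fun h z => Has (E h) (Mdl.mk h (IN B I)) [Mdl.mk h (nm ((d, d.filter (· ∈ y₀)) :
          KK I)), z] ∧ E h z (Mdl.mk h A)) (by
          repeat' first
            | exact BMap.id
            | apply BMap.fst
            | apply BMap.snd
            | exact BTerm.const _
            | apply bterm_opair
            | apply BTerm.of
            | apply BPred.mem
            | apply BPred.eq
            | apply bp_has2
            | apply bp_has3
            | apply bp_isTuple3
            | apply bp_eq_pr
            | apply bp_isPair
            | apply bp_isUPair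
            | apply bp_isFun
            | apply bp_injects
            | apply BPred.not
            | apply BPred.and
            | apply BPred.or
            | apply BPred.iff
            | apply BPred.imp
            | refine BPred.ex ?_
            | refine BPred.all ?_
            | exact BPred.const _
          ) (p := r) (by
          intro h hh
          obtain ⟨h1, h2, h3⟩ := hp h (h.mono (hem.mono _ _ (hr.trans hle)) hh)
          obtain ⟨U, hU, hU'⟩ := exists_basic (yv em) ((d, d.filter (· ∈ y₀)) : KK I) h
          have hxU : E h (Mdl.mk h x) U := by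
            rw [hU', ← hxeq r hr h hh, has_IN, inK_iff]
            rw [← hxeq r hr h hh] at h2
            exact ⟨h2, fun i _ => Iff.rfl⟩
          obtain ⟨a, ha, haU⟩ := h3 U hU hxU
          exact ⟨a, h1 a ha, ((hU' a).1 haU).2, ha⟩)
      obtain ⟨r'', hr'', hyY⟩ := exists_of_yv hem (p := r') (y := y) fun h hh => (hy h hh).1
      refine ⟨r'', hr''.trans hr', y, hyY, ?_, fun h hh =>
        (hy h (h.mono (hem.mono _ _ hr'') hh)).2.2⟩
      have := Fo.const hem (p := r') (fun h hh => (has_IN _ y).1 (hy h hh).2.1)
      rwa [inK_iff] at this)
    have hne : S.Nonempty := by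
      obtain ⟨y, hy, -⟩ := hS2 ∅
      exact ⟨y, hy⟩
    obtain ⟨f, hf⟩ := hS.exists_eq_range hne
    have hfS : ∀ n, f n ∈ S := fun n => by rw [hf]; exact Set.mem_range_self n
    refine ⟨q, hqp.trans hle, fun h hh => ⟨Mdl.mk h (BName.mk ℕ (fun n => nm (f n))
      (fun _ => ⊤)), ?_, isCtbl_seq _ (fun z hz => hz), ?_⟩⟩
    · refine forall_mem (P := fun h z => E h z (Mdl.mk h A)) _ _ ?_ (clop_V (em q)) ?_ h hh
      · repeat' first
          | exact BMap.id
          | apply BMap.fst
          | apply BMap.snd
          | exact BTerm.const _
          | apply bterm_opair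
          | apply BTerm.of
          | apply BPred.mem
          | apply BPred.eq
          | apply bp_has2
          | apply bp_has3
          | apply bp_isTuple3
          | apply bp_eq_pr
          | apply bp_isPair
          | apply bp_isUPair
          | apply bp_isFun
          | apply bp_injects
          | apply BPred.not
          | apply BPred.and
          | apply BPred.or
          | apply BPred.iff
          | apply BPred.imp
          | refine BPred.ex ?_
          | refine BPred.all ?_
          | exact BPred.const _
      · intro h hh n _
        exact (hS1 _ (hfS n)).2 h hh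
    · intro U hU hxU
      obtain ⟨h1, h2⟩ := (E_TN _ _ _).1 hU
      obtain ⟨k, hk, hkx, hkU⟩ := h2 _ hxU
      have hkey := forall_chk (fun _ : KK I => (⊤ : B)) (P := fun h k =>
        Has (E h) (Mdl.mk h (IN B I)) [k, Mdl.mk h x] → ∃ a, E h a (Mdl.mk h (BName.mk ℕ
          (fun n => nm (f n)) (fun _ => ⊤))) ∧ Has (E h) (Mdl.mk h (IN B I)) [k, a] ∧
          E h a (Mdl.mk h (chk (yv em)))) (by
          repeat' first
            | exact BMap.id
            | apply BMap.fst
            | apply BMap.snd
            | exact BTerm.const _
            | apply bterm_opair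
            | apply BTerm.of
            | apply BPred.mem
            | apply BPred.eq
            | apply bp_has2
            | apply bp_has3
            | apply bp_isTuple3
            | apply bp_eq_pr
            | apply bp_isPair
            | apply bp_isUPair
            | apply bp_isFun
            | apply bp_injects
            | apply BPred.not
            | apply BPred.and
            | apply BPred.or
            | apply BPred.iff
            | apply BPred.imp
            | refine BPred.ex ?_
            | refine BPred.all ?_
            | exact BPred.const _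
          ) (clop_V (em q)) (by
          intro h hh k _ hkx
          rw [← hxeq q hqp h hh, has_IN] at hkx
          obtain ⟨y, hy, hyd⟩ := hS2 k.1
          obtain ⟨n, rfl⟩ : ∃ n, f n = y := by rwa [hf] at hy
          refine ⟨Mdl.mk h (nm (f n)), E_of_coe (e := fun n => nm (f n)) (i := n) h.top', ?_,
            E_chk.2 (yv_of (hS1 _ (hfS n)).1 h hh)⟩
          rw [has_IN]
          exact fun i hi => (hyd i hi).trans (hkx i hi)) h hh k hk hkx
      obtain ⟨a, ha, hka, haX⟩ := hkey
      exact ⟨a, ha, hkU a haX hka⟩

end Pool.Agent.MP7e7dde
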