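import Pool.Agent.MP_7e7dde_gt.Dec
import Pool.Agent.MP_7e7dde_gt.Limit

/-! The names of the real line and of the generic space. -/

set_option linter.unusedVariables false
set_option linter.unusedSectionVars false
set_option linter.unreachableTactic false
set_option linter.unusedTactic false

namespace Pool.Agent.MP7e7dde

open BVM BName SetModel MP63050e

/-! ### Basic open sets of `2^I` -/

/-- Codes of basic open sets of the space of the subsets of `I`. -/
abbrev KK (I : Type) : Type := Finset I × Finset I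

/-- The subset `y` of `I` belongs to the basic open set with code `k`. -/
def inK {I : Type} (k : KK I) (y : Set I) : Prop := ∀ i ∈ k.1, (i ∈ y ↔ i ∈ k.2)

theorem inK_self {I : Type} (y : Set I) : ∃ k, inK k y := ⟨(∅, ∅), by simp [inK]⟩

theorem inK_iff {I : Type} {D : Finset I} {y y' : Set I} [DecidablePred (· ∈ y)] :
    inK (D, D.filter (· ∈ y)) y' ↔ ∀ i ∈ D, (i ∈ y' ↔ i ∈ y) := by
  refine forall₂_congr fun i hi => ?_
  simp [hi]

theorem inK_inter {I : Type} {k k' : KK I} {y : Set I} (h : inK k y) (h' : inK k' y) :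
    ∃ k'', inK k'' y ∧ ∀ y', inK k'' y' → inK k y' ∧ inK k' y' := by
  classical
  refine ⟨(k.1 ∪ k'.1, (k.1 ∪ k'.1).filter (· ∈ y)), inK_iff.2 fun i _ => Iff.rfl,
    fun y' hy' => ?_⟩
  rw [inK_iff] at hy'
  constructor
  · intro i hi
    rw [hy' i (Finset.mem_union_left _ hi)]
    exact h i hi
  · intro i hi
    rw [hy' i (Finset.mem_union_right _ hi)]
    exact h' i hi

theorem inK_compl {I : Type} {k : KK I} {y : Set I} (h : ¬ inK k y) :
    ∃ k', inK k' y ∧ ∀ y', inK k' y' → ¬ inK k y' := by
  classical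
  refine ⟨(k.1, k.1.filter (· ∈ y)), inK_iff.2 fun i _ => Iff.rfl, fun y' hy' hk => h ?_⟩
  rw [inK_iff] at hy'
  intro i hi
  rw [← hy' i hi]
  exact hk i hi

theorem inK_sep {I : Type} {y y' : Set I} (h : y ≠ y') : ∃ k, inK k y ∧ ¬ inK k y' := by
  classical
  by_contra hcon
  push Not at hcon
  apply h
  ext i
  have := hcon ({i}, ({i} : Finset I).filter (· ∈ y)) (inK_iff.2 fun i _ => Iff.rfl)
  rw [inK_iff] at this
  exact (this i (Finset.mem_singleton_self i)).symm

variable {B : Type} [CompleteBooleanAlgebra B]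

/-! ### The real line -/

/-- The name of the set of the reals. -/
noncomputable def RN (B : Type) [CompleteBooleanAlgebra B] : BName B := chk (fun _ : ℝ => ⊤)

/-- The name of the order of the reals. -/
noncomputable def LN (B : Type) [CompleteBooleanAlgebra B] : BName B :=
  rel (fun a b : ℝ => tv B (a < b))

theorem E_RN {h : Ult B} (a : ℝ) : E h (Mdl.mk h (nm a)) (Mdl.mk h (RN B)) := E_chk.2 h.top'

theorem has_LN {h : Ult B} (a b : ℝ) :
    Has (E h) (Mdl.mk h (LN B)) [Mdl.mk h (nm a), Mdl.mk h (nm b)] ↔ a < b := by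
  rw [LN, has_rel, V_tv]

/-! ### Subspaces of `2^I` -/

/-- The name of the set of the codes of the basic open sets. -/
noncomputable def KN (B I : Type) [CompleteBooleanAlgebra B] : BName B :=
  chk (fun _ : KK I => (⊤ : B))

/-- The name of the relation between codes and subsets of `I`. -/
noncomputable def IN (B I : Type) [CompleteBooleanAlgebra B] : BName B :=
  rel (fun (k : KK I) (y : Set I) => tv B (inK k y))

variable {I : Type}

theorem E_KN {h : Ult B} (k : KK I) : E h (Mdl.mk h (nm k)) (Mdl.mk h (KN B I)) := E_chk.2 h.top'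

theorem has_IN {h : Ult B} (k : KK I) (y : Set I) :
    Has (E h) (Mdl.mk h (IN B I)) [Mdl.mk h (nm k), Mdl.mk h (nm y)] ↔ inK k y := by
  rw [IN, has_rel, V_tv]

/-- `z` is an open subset of the subspace of `2^I` with name `chk c`. -/
def OpenP (c : Set I → B) (h : Ult B) (z : Mdl h) : Prop :=
  Sub (E h) z (Mdl.mk h (chk c)) ∧ ∀ x, E h x z → ∃ k, E h k (Mdl.mk h (KN B I)) ∧
    Has (E h) (Mdl.mk h (IN B I)) [k, x] ∧ ∀ x', E h x' (Mdl.mk h (chk c)) →
      Has (E h) (Mdl.mk h (IN B I)) [k, x'] → E h x' z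

theorem bp_openP {Γ : Type*} [BSet B Γ] {f1 : Γ → BName B} (c : Set I → B) (h1 : BTerm f1) :
    BPred (fun h : Ult B => h) (fun h γ => OpenP c h (Mdl.mk h (f1 γ))) := by
  unfold OpenP
  repeat' first
    | exact BMap.id
    | apply BMap.fst
    | apply BMap.snd
    | apply BTerm.cmp h1
    | exact BTerm.const _
    | apply bterm_opair
    | apply BTerm.of
    | apply BPred.mem
    | apply BPred.eq
    | apply bp_has2
    | apply bp_has3
    | apply bp_isTuple3
    | apply bp_eq_pr
    | apply bp_isPair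
    | apply bp_isUPair
    | apply bp_isFun
    | apply bp_injects
    | apply bp_sub
    | apply BPred.not
    | apply BPred.and
    | apply BPred.or
    | apply BPred.iff
    | apply BPred.imp
    | refine BPred.ex ?_
    | refine BPred.all ?_
    | exact BPred.const _

theorem exists_TN (c : Set I → B) : ∃ T : BName B, ∀ (h : Ult B) z,
    E h z (Mdl.mk h T) ↔ OpenP c h z := by
  obtain ⟨T, hT⟩ := separation_name (H := fun h : Ult B => h) (D := fun h z => OpenP c h z)
    (bp_openP c BTerm.id) (spow (chk c))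
  refine ⟨T, fun h z => ?_⟩
  rw [hT]
  exact ⟨fun H => H.2, fun H => ⟨subset_mem_spow h _ z H.1, H⟩⟩

/-- The name of the topology of the subspace of `2^I` with name `chk c`. -/
noncomputable def TN (c : Set I → B) : BName B := (exists_TN c).choose

theorem E_TN (c : Set I → B) (h : Ult B) (z : Mdl h) :
    E h z (Mdl.mk h (TN c)) ↔ OpenP c h z := (exists_TN c).choose_spec h z

/-- Induction over the elements of `chk c`. -/
theorem forall_chk {α : Type} (c : α → B) {P : (h : Ult B) → Mdl h → Prop}
    (hP : BPred (fun h : Ult B => h) (fun h (x : BName B) => P h (Mdl.mk h x)))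
    {Q : Ult B → Prop} (hQ : Clop Q)
    (H : ∀ h : Ult B, Q h → ∀ a, h.V (c a) → P h (Mdl.mk h (nm a))) :
    ∀ h : Ult B, Q h → ∀ z, E h z (Mdl.mk h (chk c)) → P h z := forall_mem nm c hP hQ H

/-! ### The generic subset of `2^I` -/

/-- The truth value of: the set `y` belongs to the generic family of subsets of `I`. -/
noncomputable def yv (em : Cond I → B) (y : Set I) : B := ⨆ p : {p : Cond I // y ∈ p.Y}, em p.1

variable {em : Cond I → B}

theorem yv_of {p : Cond I} {y : Set I} (hy : y ∈ p.Y) : Fo em p (fun h => h.V (yv em y)) :=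
  fun h hh => h.iSup_of (fun p : {p : Cond I // y ∈ p.Y} => em p.1) ⟨p, hy⟩ hh

theorem exists_of_yv (hem : DenseEmb em) {p : Cond I} {y : Set I}
    (h : Fo em p (fun h => h.V (yv em y))) : ∃ q, q ≤ p ∧ y ∈ q.Y := by
  obtain ⟨q, hqp, r, hr⟩ := decide_iSup hem h
  obtain ⟨s, hs1, hs2⟩ := hem.compat q r.1 (by
    intro h0
    obtain ⟨k, hk⟩ := Ult.exists_of_ne_bot (hem.ne_bot q)
    have := (k.inf' _ _).2 ⟨hk, hr k hk⟩
    rw [h0] at this
    exact k.bot this)
  exact ⟨s, hs1.trans hqp, Cond.Y_mono hs2 r.2⟩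

end Pool.Agent.MP7e7dde
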