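import Pool.Agent.MP_7e7dde_gt.Lind

/-! The generic space is `ω`-stable. -/

set_option linter.unusedVariables false
set_option linter.unusedSectionVars false
set_option linter.unreachableTactic false
set_option linter.unusedTactic false

namespace Pool.Agent.MP7e7dde

open BVM BName SetModel MP63050e

variable {B : Type} [CompleteBooleanAlgebra B] {I : Type} {em : Cond I → B}

/-- The closure of `V'` is contained in `V`. -/
def Reg {M : Type*} (E : M → M → Prop) (Z W V V' : M) : Prop :=
  ∀ u, E u Z → ∃ O, E O W ∧ E u O ∧ ((∀ t, E t O → E t V) ∨ ∀ t, E t O → ¬ E t V')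

theorem isFun_uniq {h : Ult B} {f x y a b b' : Mdl h} (hf : IsFun (E h) f x y)
    (h1 : Has (E h) f [a, b]) (h2 : Has (E h) f [a, b']) : b = b' := by
  obtain ⟨c, hc, hc'⟩ := hf.2 a (isFun_has hf h1).1
  rw [hc' b h1, hc' b' h2]

/-- Points of a Tychonoff space are separated by elements of a base. -/
theorem reg_sep {h : Ult B} {w R L Z W N : Mdl h} (hR : IsReal (E h) w R L)
    (hZ : IsTych (E h) R L Z W) (hNW : ∀ V, E h V N → E h V W)
    (hN : ∀ U x, E h U W → E h x U → ∃ V, E h V N ∧ E h x V ∧ Sub (E h) V U)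
    {z z' : Mdl h} (hz : E h z Z) (hz' : E h z' Z) (hne : z ≠ z') :
    ∃ V V', E h V N ∧ E h V' N ∧ E h z V' ∧ ¬ E h z' V ∧ Reg (E h) Z W V V' := by
  obtain ⟨-, irr, tr, tot, ends, -, D, hD, -, dens⟩ := hR
  obtain ⟨U, hU, hzU, hz'U⟩ := hZ.2.1 z z' hz hz' hne
  obtain ⟨V, hV, hzV, hVU⟩ := hN U z hU hzU
  have hz'V : ¬ E h z' V := fun h => hz'U (hVU _ h)
  obtain ⟨f, r, hf, hr, hfz, hfr⟩ := hZ.2.2 V z (hNW V hV) hzV
  obtain ⟨s, hs, -⟩ := hf.1.2 z hz
  have hsR : E h s R := (isFun_has hf.1 hs).2
  have hsr : s ≠ r := by rintro rfl; exact hfz hs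
  have up : ∀ x v a, Has (E h) f [x, v] → E h a R → Has (E h) L [a, v] → ∃ O, E h O W ∧ E h x O ∧
      ∀ x' r', E h x' O → Has (E h) f [x', r'] → Has (E h) L [a, r'] := by
    intro x v a hxv ha hav
    obtain ⟨b, hb, hvb⟩ := (ends v (isFun_has hf.1 hxv).2).1
    obtain ⟨O, hO, hxO, H⟩ := hf.2 x v a b hxv ha hb hav hvb
    exact ⟨O, hO, hxO, fun x' r' h1 h2 => (H x' r' h1 h2).1⟩
  have down : ∀ x v b, Has (E h) f [x, v] → E h b R → Has (E h) L [v, b] → ∃ O, E h O W ∧
      E h x O ∧ ∀ x' r', E h x' O → Has (E h) f [x', r'] → Has (E h) L [r', b] := by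
    intro x v b hxv hb hvb
    obtain ⟨a, ha, hav⟩ := (ends v (isFun_has hf.1 hxv).2).2
    obtain ⟨O, hO, hxO, H⟩ := hf.2 x v a b hxv ha hb hav hvb
    exact ⟨O, hO, hxO, fun x' r' h1 h2 => (H x' r' h1 h2).2⟩
  rcases tot s r hsR hr hsr with hlt | hgt
  · obtain ⟨t, htD, hst, htr⟩ := dens s r hsR hr hlt
    have ht := hD t htD
    obtain ⟨O1, hO1, hzO1, H1⟩ := down z s t hs ht hst
    obtain ⟨V', hV', hzV', hV'O⟩ := hN O1 z hO1 hzO1
    refine ⟨V, V', hV, hV', hzV', hz'V, fun u hu => ?_⟩
    obtain ⟨v, hv, -⟩ := hf.1.2 u hu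
    have hvR := (isFun_has hf.1 hv).2
    by_cases hvr : Has (E h) L [v, r]
    · obtain ⟨O, hO, huO, H⟩ := down u v r hv hr hvr
      refine ⟨O, hO, huO, Or.inl fun x hx => ?_⟩
      by_contra hxV
      exact irr r (H x r hx (hfr x (hZ.1.1 O hO x hx) hxV))
    · have htv : Has (E h) L [t, v] := by
        by_cases h : v = r
        · rw [h]; exact htr
        · rcases tot v r hvR hr h with h' | h'
          · exact absurd h' hvr
          · exact tr t r v ht hr hvR htr h'
      obtain ⟨O, hO, huO, H⟩ := up u v t hv ht htv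
      refine ⟨O, hO, huO, Or.inr fun x hx hxV' => ?_⟩
      obtain ⟨v', hv', -⟩ := hf.1.2 x (hZ.1.1 O hO x hx)
      exact irr t (tr t v' t ht (isFun_has hf.1 hv').2 ht (H x v' hx hv')
        (H1 x v' (hV'O x hxV') hv'))
  · obtain ⟨t, htD, hrt, hts⟩ := dens r s hr hsR hgt
    have ht := hD t htD
    obtain ⟨O1, hO1, hzO1, H1⟩ := up z s t hs ht hts
    obtain ⟨V', hV', hzV', hV'O⟩ := hN O1 z hO1 hzO1
    refine ⟨V, V', hV, hV', hzV', hz'V, fun u hu => ?_⟩
    obtain ⟨v, hv, -⟩ := hf.1.2 u hu
    have hvR := (isFun_has hf.1 hv).2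
    by_cases hvr : Has (E h) L [r, v]
    · obtain ⟨O, hO, huO, H⟩ := up u v r hv hr hvr
      refine ⟨O, hO, huO, Or.inl fun x hx => ?_⟩
      by_contra hxV
      exact irr r (H x r hx (hfr x (hZ.1.1 O hO x hx) hxV))
    · have htv : Has (E h) L [v, t] := by
        by_cases h : v = r
        · rw [h]; exact hrt
        · rcases tot v r hvR hr h with h' | h'
          · exact tr v r t hvR hr ht h' hrt
          · exact absurd h' hvr
      obtain ⟨O, hO, huO, H⟩ := down u v t hv ht htv
      refine ⟨O, hO, huO, Or.inr fun x hx hxV' => ?_⟩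
      obtain ⟨v', hv', -⟩ := hf.1.2 x (hZ.1.1 O hO x hx)
      exact irr t (tr t v' t ht (isFun_has hf.1 hv').2 ht
        (H1 x v' (hV'O x hxV') hv') (H x v' hx hv'))

/-- Names of the elements of a countable base. -/
theorem exists_base {Z W : BName B} {p : Cond I}
    (H : Fo em p (fun h => IsTop (E h) (Mdl.mk h Z) (Mdl.mk h W) ∧
      IsSecCtbl (E h) (Mdl.mk h (omN B)) (Mdl.mk h W))) :
    ∃ b : ℕ → BName B, ∀ h : Ult B, h.V (em p) →
      (∀ V, E h V (Mdl.mk h (BName.mk ℕ b (fun _ => ⊤))) → E h V (Mdl.mk h W)) ∧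
      ∀ U x, E h U (Mdl.mk h W) → E h x U →
        ∃ V, E h V (Mdl.mk h (BName.mk ℕ b (fun _ => ⊤))) ∧ E h x V ∧ Sub (E h) V U := by
  obtain ⟨Bs, hBs⟩ := exists_wit (P := fun h Bs => Sub (E h) Bs (Mdl.mk h W) ∧
    IsCtbl (E h) (Mdl.mk h (omN B)) Bs ∧ ∀ U x, E h U (Mdl.mk h W) → E h x U →
      ∃ V, E h V Bs ∧ E h x V ∧ Sub (E h) V U) (by
    repeat' first
      | exact BMap.id
      | apply BMap.fst
      | apply BMap.snd
      | exact BTerm.const _
      | apply bterm_opair
      | apply BTerm.of
      | apply BPred.mem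
      | apply BPred.eq
      | apply bp_has2
      | apply bp_has3
      | apply bp_isTuple3
      | apply bp_eq_pr
      | apply bp_isPair
      | apply bp_isUPair
      | apply bp_isFun
      | apply bp_injects
      | apply bp_sub
      | apply bp_isCtbl
      | apply BPred.not
      | apply BPred.and
      | apply BPred.or
      | apply BPred.iff
      | apply BPred.imp
      | refine BPred.ex ?_
      | refine BPred.all ?_
      | exact BPred.const _
    ) (Q := fun h => h.V (em p)) (fun h hh => (H h hh).2)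
  obtain ⟨f, hf⟩ := exists_wit (P := fun h f => IsFun (E h) f (Mdl.mk h Bs) (Mdl.mk h (omN B)) ∧
    ∀ a a' b, E h a (Mdl.mk h Bs) → E h a' (Mdl.mk h Bs) → Has (E h) f [a, b] →
      Has (E h) f [a', b] → a = a') (by
    repeat' first
      | exact BMap.id
      | apply BMap.fst
      | apply BMap.snd
      | exact BTerm.const _
      | apply bterm_opair
      | apply BTerm.of
      | apply BPred.mem
      | apply BPred.eq
      | apply bp_has2
      | apply bp_has3
      | apply bp_isTuple3
      | apply bp_eq_pr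
      | apply bp_isPair
      | apply bp_isUPair
      | apply bp_isFun
      | apply bp_injects
      | apply BPred.not
      | apply BPred.and
      | apply BPred.or
      | apply BPred.iff
      | apply BPred.imp
      | refine BPred.ex ?_
      | refine BPred.all ?_
      | exact BPred.const _
    ) (Q := fun h => h.V (em p)) (fun h hh => (hBs h hh).2.1)
  have hb : ∀ n : ℕ, ∃ b : BName B, ∀ h : Ult B, h.V (em p) → E h (Mdl.mk h b) (Mdl.mk h W) ∧
      ∀ U, E h U (Mdl.mk h Bs) → Has (E h) (Mdl.mk h f) [U, Mdl.mk h (vN n)] →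
        U = Mdl.mk h b := by
    intro n
    refine exists_wit (P := fun h b => E h b (Mdl.mk h W) ∧
      ∀ U, E h U (Mdl.mk h Bs) → Has (E h) (Mdl.mk h f) [U, Mdl.mk h (vN n)] →
        U = b) ?_ (Q := fun h => h.V (em p)) (fun h hh => ?_)
    · repeat' first
        | exact BMap.id
        | apply BMap.fst
        | apply BMap.snd
        | exact BTerm.const _
        | apply bterm_opair
        | apply BTerm.of
        | apply BPred.mem
        | apply BPred.eq
        | apply bp_has2
        | apply bp_has3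
        | apply bp_isTuple3
        | apply bp_eq_pr
        | apply bp_isPair
        | apply bp_isUPair
        | apply bp_isFun
        | apply bp_injects
        | apply BPred.not
        | apply BPred.and
        | apply BPred.or
        | apply BPred.iff
        | apply BPred.imp
        | refine BPred.ex ?_
        | refine BPred.all ?_
        | exact BPred.const _
    · by_cases hU : ∃ U, E h U (Mdl.mk h Bs) ∧ Has (E h) (Mdl.mk h f) [U, Mdl.mk h (vN n)]
      · obtain ⟨U, hU, hUf⟩ := hU
        exact ⟨U, (hBs h hh).1 U hU, fun U' hU' hU'f => (hf h hh).2 U' U _ hU' hU hU'f hUf⟩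
      · exact ⟨Mdl.mk h Z, (H h hh).1.2.1, fun U hU1 hU2 => absurd ⟨U, hU1, hU2⟩ hU⟩
  choose b hb using hb
  refine ⟨b, fun h hh => ⟨?_, ?_⟩⟩
  · refine forall_mem (P := fun h V => E h V (Mdl.mk h W)) _ _ ?_ (clop_V (em p)) ?_ h hh
    · repeat' first
        | exact BMap.id
        | apply BMap.fst
        | apply BMap.snd
        | exact BTerm.const _
        | apply bterm_opair
        | apply BTerm.of
        | apply BPred.mem
        | apply BPred.eq
        | apply bp_has2
        | apply bp_has3
        | apply bp_isTuple3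
        | apply bp_eq_pr
        | apply bp_isPair
        | apply bp_isUPair
        | apply bp_isFun
        | apply bp_injects
        | apply BPred.not
        | apply BPred.and
        | apply BPred.or
        | apply BPred.iff
        | apply BPred.imp
        | refine BPred.ex ?_
        | refine BPred.all ?_
        | exact BPred.const _
    · intro h hh n _
      exact (hb n h hh).1
  · intro U x hU hx
    obtain ⟨V, hV, hxV, hVU⟩ := (hBs h hh).2.2 U x hU hx
    refine ⟨V, ?_, hxV, hVU⟩
    obtain ⟨n, hn, -⟩ := (hf h hh).1.2 V hV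
    have hnw := (isFun_has (hf h hh).1 hn).2
    refine forall_mem (P := fun h n => ∀ V, E h V (Mdl.mk h Bs) → Has (E h) (Mdl.mk h f) [V, n] →
      E h V (Mdl.mk h (BName.mk ℕ b (fun _ => ⊤)))) _ _ ?_ (clop_V (em p)) ?_ h hh n hnw V hV hn
    · repeat' first
        | exact BMap.id
        | apply BMap.fst
        | apply BMap.snd
        | exact BTerm.const _
        | apply bterm_opair
        | apply BTerm.of
        | apply BPred.mem
        | apply BPred.eq
        | apply bp_has2
        | apply bp_has3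
        | apply bp_isTuple3
        | apply bp_eq_pr
        | apply bp_isPair
        | apply bp_isUPair
        | apply bp_isFun
        | apply bp_injects
        | apply BPred.not
        | apply BPred.and
        | apply BPred.or
        | apply BPred.iff
        | apply BPred.imp
        | refine BPred.ex ?_
        | refine BPred.all ?_
        | exact BPred.const _
    · intro h hh n _ V hV hn
      rw [(hb n h hh).2 V hV hn]
      exact E_of_coe (e := b) (i := n) h.top'

/-- The statement decided by the basic open sets. -/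
def StP (em : Cond I → B) (Z W g i b b' : BName B) (h : Ult B) (k : Mdl h) : Prop :=
  Reg (E h) (Mdl.mk h Z) (Mdl.mk h W) (Mdl.mk h b) (Mdl.mk h b') →
    (∀ x, E h x (Mdl.mk h (chk (yv em))) → Has (E h) (Mdl.mk h (IN B I)) [k, x] → ∀ u v,
      Has (E h) (Mdl.mk h g) [x, u] → Has (E h) (Mdl.mk h i) [u, v] → E h v (Mdl.mk h b)) ∨
    ∀ x, E h x (Mdl.mk h (chk (yv em))) → Has (E h) (Mdl.mk h (IN B I)) [k, x] → ∀ u v,
      Has (E h) (Mdl.mk h g) [x, u] → Has (E h) (Mdl.mk h i) [u, v] → ¬ E h v (Mdl.mk h b')

theorem stable_key [Uncountable I] (hem : DenseEmb em)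
    (hR : ∀ h : Ult B, IsReal (E h) (Mdl.mk h (omN B)) (Mdl.mk h (RN B)) (Mdl.mk h (LN B)))
    {Y S g Z W i : BName B} {p : Cond I} (H : Fo em p (fun h =>
      IsTych (E h) (Mdl.mk h (RN B)) (Mdl.mk h (LN B)) (Mdl.mk h Z) (Mdl.mk h W) ∧
      IsSecCtbl (E h) (Mdl.mk h (omN B)) (Mdl.mk h W) ∧
      IsCont (E h) (Mdl.mk h (chk (yv em))) (Mdl.mk h (TN (yv em))) (Mdl.mk h Y) (Mdl.mk h S)
        (Mdl.mk h g) ∧
      IsCont (E h) (Mdl.mk h Y) (Mdl.mk h S) (Mdl.mk h Z) (Mdl.mk h W) (Mdl.mk h i) ∧
      IsInj (E h) (Mdl.mk h i))) :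
    ∃ q, q ≤ p ∧ ∀ h : Ult B, h.V (em q) → ∀ y, h.V (yv em y) → y ∩ q.F ∈ q.Y ∧
      ∀ u u', Has (E h) (Mdl.mk h g) [Mdl.mk h (nm y), u] →
        Has (E h) (Mdl.mk h g) [Mdl.mk h (nm (y ∩ q.F)), u'] → u = u' := by
  obtain ⟨b, hb⟩ := exists_base (em := em) (p := p) (H.imp fun h hh => ⟨hh.1.1, hh.2.1⟩)
  obtain ⟨q, hqp, K, hK, hkey⟩ := key p (fun j k q => Fo em q (fun h =>
      StP em Z W g i (b (Nat.unpair j).1) (b (Nat.unpair j).2) h (Mdl.mk h (nm k))))
    (fun j k q r hrq hq => hq.mono hem hrq) (by
    intro j r hr y hy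
    obtain ⟨r', hr', k, hk⟩ := decide_mem hem (ι := KK I) nm (fun _ => ⊤)
      (Q := fun h k => Has (E h) (Mdl.mk h (IN B I)) [k, Mdl.mk h (nm y)] ∧
        StP em Z W g i (b (Nat.unpair j).1) (b (Nat.unpair j).2) h k) (by
        unfold StP Reg
        repeat' first
          | exact BMap.id
          | apply BMap.fst
          | apply BMap.snd
          | exact BTerm.const _
          | apply bterm_opair
          | apply BTerm.of
          | apply BPred.mem
          | apply BPred.eq
          | apply bp_has2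
          | apply bp_has3
          | apply bp_isTuple3
          | apply bp_eq_pr
          | apply bp_isPair
          | apply bp_isUPair
          | apply bp_isFun
          | apply bp_injects
          | apply BPred.not
          | apply BPred.and
          | apply BPred.or
          | apply BPred.iff
          | apply BPred.imp
          | refine BPred.ex ?_
          | refine BPred.all ?_
          | exact BPred.const _
        ) (p := r) (by
        intro h hh
        have hhp := h.mono (hem.mono _ _ hr) hh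
        obtain ⟨hZ, -, hg, hi, -⟩ := H h hhp
        by_cases hreg : Reg (E h) (Mdl.mk h Z) (Mdl.mk h W) (Mdl.mk h (b (Nat.unpair j).1))
            (Mdl.mk h (b (Nat.unpair j).2))
        · have hyX : E h (Mdl.mk h (nm y)) (Mdl.mk h (chk (yv em))) := E_chk.2 (yv_of hy h hh)
          obtain ⟨u, hu, -⟩ := hg.1.2 _ hyX
          obtain ⟨v, hv, -⟩ := hi.1.2 _ (isFun_has hg.1 hu).2
          obtain ⟨O, hO, hvO, hO'⟩ := hreg v (isFun_has hi.1 hv).2
          obtain ⟨O1, hO1, hO1'⟩ := hi.2 O hO
          obtain ⟨O2, hO2, hO2'⟩ := hg.2 O1 hO1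
          have hyO2 : E h (Mdl.mk h (nm y)) O2 :=
            (hO2' _).2 ⟨u, (hO1' u).2 ⟨v, hvO, hv⟩, hu⟩
          obtain ⟨h3, h4⟩ := (E_TN _ _ _).1 hO2
          obtain ⟨k, hk, hk', hk''⟩ := h4 _ hyO2
          have hval : ∀ x, E h x (Mdl.mk h (chk (yv em))) →
              Has (E h) (Mdl.mk h (IN B I)) [k, x] → ∀ u v,
              Has (E h) (Mdl.mk h g) [x, u] → Has (E h) (Mdl.mk h i) [u, v] → E h v O := by
            intro x hx hkx u v hxu huv
            obtain ⟨u', hu', hxu'⟩ := (hO2' x).1 (hk'' x hx hkx)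
            obtain ⟨v', hv', huv'⟩ := (hO1' u').1 hu'
            obtain rfl := isFun_uniq hg.1 hxu hxu'
            obtain rfl := isFun_uniq hi.1 huv huv'
            exact hv'
          refine ⟨k, hk, hk', fun _ => ?_⟩
          rcases hO' with h5 | h5
          · exact Or.inl fun x hx hkx u v hxu huv => h5 v (hval x hx hkx u v hxu huv)
          · exact Or.inr fun x hx hkx u v hxu huv => h5 v (hval x hx hkx u v hxu huv)
        · obtain ⟨k, hk⟩ := inK_self y
          exact ⟨Mdl.mk h (nm k), E_KN k, (has_IN k y).2 hk, fun hr => absurd hr hreg⟩)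
    refine ⟨r', hr', k, ?_, fun h hh => (hk h hh).2.2⟩
    exact Fo.const hem (p := r') (fun h hh => (has_IN k y).1 (hk h hh).2.1))
  refine ⟨q, hqp, fun h hh y hy => ?_⟩
  obtain ⟨r, hr, hyr⟩ := exists_of_V hem hh hy
  have hyq : y ∩ q.F ∈ q.Y := Cond.le_tr hr hyr
  refine ⟨hyq, ?_⟩
  have main : ∀ h : Ult B, (h.V (em q) ∧ h.V (yv em y)) →
      ∀ V, E h V (Mdl.mk h (BName.mk ℕ b (fun _ => ⊤))) →
      ∀ V', E h V' (Mdl.mk h (BName.mk ℕ b (fun _ => ⊤))) →
      Reg (E h) (Mdl.mk h Z) (Mdl.mk h W) V V' → ∀ u v u' v',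
      Has (E h) (Mdl.mk h g) [Mdl.mk h (nm y), u] → Has (E h) (Mdl.mk h i) [u, v] →
      Has (E h) (Mdl.mk h g) [Mdl.mk h (nm (y ∩ q.F)), u'] → Has (E h) (Mdl.mk h i) [u', v'] →
      E h v V' → E h v' V := by
    refine forall_mem (P := fun h V => ∀ V', E h V' (Mdl.mk h (BName.mk ℕ b (fun _ => ⊤))) →
      Reg (E h) (Mdl.mk h Z) (Mdl.mk h W) V V' → ∀ u v u' v',
      Has (E h) (Mdl.mk h g) [Mdl.mk h (nm y), u] → Has (E h) (Mdl.mk h i) [u, v] →
      Has (E h) (Mdl.mk h g) [Mdl.mk h (nm (y ∩ q.F)), u'] → Has (E h) (Mdl.mk h i) [u', v'] →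
      E h v V' → E h v' V) _ _ ?_ (Clop.and (clop_V (em q)) (clop_V (yv em y))) ?_
    · unfold Reg
      repeat' first
        | exact BMap.id
        | apply BMap.fst
        | apply BMap.snd
        | exact BTerm.const _
        | apply bterm_opair
        | apply BTerm.of
        | apply BPred.mem
        | apply BPred.eq
        | apply bp_has2
        | apply bp_has3
        | apply bp_isTuple3
        | apply bp_eq_pr
        | apply bp_isPair
        | apply bp_isUPair
        | apply bp_isFun
        | apply bp_injects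
        | apply BPred.not
        | apply BPred.and
        | apply BPred.or
        | apply BPred.iff
        | apply BPred.imp
        | refine BPred.ex ?_
        | refine BPred.all ?_
        | exact BPred.const _
    · intro h hh n _
      refine forall_mem (P := fun h V' =>
        Reg (E h) (Mdl.mk h Z) (Mdl.mk h W) (Mdl.mk h (b n)) V' → ∀ u v u' v',
        Has (E h) (Mdl.mk h g) [Mdl.mk h (nm y), u] → Has (E h) (Mdl.mk h i) [u, v] →
        Has (E h) (Mdl.mk h g) [Mdl.mk h (nm (y ∩ q.F)), u'] →
        Has (E h) (Mdl.mk h i) [u', v'] → E h v V' → E h v' (Mdl.mk h (b n))) _ _ ?_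
        (Clop.and (clop_V (em q)) (clop_V (yv em y))) ?_ h hh
      · unfold Reg
        repeat' first
          | exact BMap.id
          | apply BMap.fst
          | apply BMap.snd
          | exact BTerm.const _
          | apply bterm_opair
          | apply BTerm.of
          | apply BPred.mem
          | apply BPred.eq
          | apply bp_has2
          | apply bp_has3
          | apply bp_isTuple3
          | apply bp_eq_pr
          | apply bp_isPair
          | apply bp_isUPair
          | apply bp_isFun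
          | apply bp_injects
          | apply BPred.not
          | apply BPred.and
          | apply BPred.or
          | apply BPred.iff
          | apply BPred.imp
          | refine BPred.ex ?_
          | refine BPred.all ?_
          | exact BPred.const _
      · intro h hh m _ hreg u v u' v' h1 h2 h3 h4 h5
        obtain ⟨r, hr, hyr⟩ := exists_of_V hem hh.1 hh.2
        obtain ⟨k, -, hk1, hk2, hk3⟩ := hkey (Nat.pair n m) r hr y hyr
        have h6 := hk3 h hh.1
        rw [Nat.unpair_pair] at h6
        rcases h6 hreg with h7 | h7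
        · exact h7 _ (E_chk.2 (yv_of hyq h hh.1)) ((has_IN k _).2 hk2) u' v' h3 h4
        · exact absurd h5 (h7 _ (E_chk.2 hh.2) ((has_IN k _).2 hk1) u v h1 h2)
  intro u u' hu hu'
  have hhp := h.mono (hem.mono _ _ hqp) hh
  obtain ⟨hZ, -, hg, hi, hinj⟩ := H h hhp
  obtain ⟨v, hv, -⟩ := hi.1.2 _ (isFun_has hg.1 hu).2
  obtain ⟨v', hv', -⟩ := hi.1.2 _ (isFun_has hg.1 hu').2
  have hvv : v = v' := by
    by_contra hne
    obtain ⟨V, V', hV, hV', h1, h2, h3⟩ := reg_sep (hR h) hZ (hb h hhp).1 (hb h hhp).2
      (isFun_has hi.1 hv).2 (isFun_has hi.1 hv').2 hne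
    exact h2 (main h ⟨hh, hy⟩ V hV V' hV' h3 u v u' v' hu hv hu' hv' h1)
  subst hvv
  exact hinj _ _ _ hv hv'

theorem isStable [Uncountable I] (hem : DenseEmb em)
    (hR : ∀ h : Ult B, IsReal (E h) (Mdl.mk h (omN B)) (Mdl.mk h (RN B)) (Mdl.mk h (LN B)))
    (h : Ult B) :
    IsStable (E h) (Mdl.mk h (omN B)) (Mdl.mk h (RN B)) (Mdl.mk h (LN B))
      (Mdl.mk h (chk (yv em))) (Mdl.mk h (TN (yv em))) := by
  intro Y S g Z W i hY hg hgo hZ hZc hi hinj hio
  obtain ⟨Y, rfl⟩ := Y.exists_rep
  obtain ⟨S, rfl⟩ := S.exists_rep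
  obtain ⟨g, rfl⟩ := g.exists_rep
  obtain ⟨Z, rfl⟩ := Z.exists_rep
  obtain ⟨W, rfl⟩ := W.exists_rep
  obtain ⟨i, rfl⟩ := i.exists_rep
  refine imp_of_fo hem (Q := fun h => (IsTych (E h) (Mdl.mk h (RN B)) (Mdl.mk h (LN B))
        (Mdl.mk h Y) (Mdl.mk h S) ∧ IsOnto (E h) (Mdl.mk h Y) (Mdl.mk h g)) ∧
      IsTych (E h) (Mdl.mk h (RN B)) (Mdl.mk h (LN B)) (Mdl.mk h Z) (Mdl.mk h W) ∧
      IsSecCtbl (E h) (Mdl.mk h (omN B)) (Mdl.mk h W) ∧
      IsCont (E h) (Mdl.mk h (chk (yv em))) (Mdl.mk h (TN (yv em))) (Mdl.mk h Y) (Mdl.mk h S)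
        (Mdl.mk h g) ∧
      IsCont (E h) (Mdl.mk h Y) (Mdl.mk h S) (Mdl.mk h Z) (Mdl.mk h W) (Mdl.mk h i) ∧
      IsInj (E h) (Mdl.mk h i))
    (R := fun h => HasCtblNet (E h) (Mdl.mk h (omN B)) (Mdl.mk h Y) (Mdl.mk h S)) ?_ ?_ ?_ h
    ⟨⟨hY, hgo⟩, hZ, hZc, hg, hi, hinj⟩
  · refine BPred.clop (P := fun h (_ : PUnit.{1}) => (IsTych (E h) (Mdl.mk h (RN B))
        (Mdl.mk h (LN B)) (Mdl.mk h Y) (Mdl.mk h S) ∧ IsOnto (E h) (Mdl.mk h Y) (Mdl.mk h g)) ∧
      IsTych (E h) (Mdl.mk h (RN B)) (Mdl.mk h (LN B)) (Mdl.mk h Z) (Mdl.mk h W) ∧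
      IsSecCtbl (E h) (Mdl.mk h (omN B)) (Mdl.mk h W) ∧
      IsCont (E h) (Mdl.mk h (chk (yv em))) (Mdl.mk h (TN (yv em))) (Mdl.mk h Y) (Mdl.mk h S)
        (Mdl.mk h g) ∧
      IsCont (E h) (Mdl.mk h Y) (Mdl.mk h S) (Mdl.mk h Z) (Mdl.mk h W) (Mdl.mk h i) ∧
      IsInj (E h) (Mdl.mk h i)) ?_ PUnit.unit
    repeat' first
      | exact BMap.id
      | apply BMap.fst
      | apply BMap.snd
      | exact BTerm.const _
      | apply bterm_opair
      | apply BTerm.of
      | apply BPred.mem
      | apply BPred.eq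
      | apply bp_has2
      | apply bp_has3
      | apply bp_isTuple3
      | apply bp_eq_pr
      | apply bp_isPair
      | apply bp_isUPair
      | apply bp_isFun
      | apply bp_injects
      | apply bp_isTych
      | apply bp_isOnto
      | apply bp_isSecCtbl
      | apply bp_isCont
      | apply bp_isInj
      | apply BPred.not
      | apply BPred.and
      | apply BPred.or
      | apply BPred.iff
      | apply BPred.imp
      | refine BPred.ex ?_
      | refine BPred.all ?_
      | exact BPred.const _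
  · refine BPred.clop (P := fun h (_ : PUnit.{1}) => HasCtblNet (E h) (Mdl.mk h (omN B))
      (Mdl.mk h Y) (Mdl.mk h S)) ?_ PUnit.unit
    repeat' first
      | exact BMap.id
      | apply BMap.fst
      | apply BMap.snd
      | exact BTerm.const _
      | apply bterm_opair
      | apply BTerm.of
      | apply BPred.mem
      | apply BPred.eq
      | apply bp_has2
      | apply bp_has3
      | apply bp_isTuple3
      | apply bp_eq_pr
      | apply bp_isPair
      | apply bp_isUPair
      | apply bp_isFun
      | apply bp_injects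
      | apply bp_hasCtblNet
      | apply BPred.not
      | apply BPred.and
      | apply BPred.or
      | apply BPred.iff
      | apply BPred.imp
      | refine BPred.ex ?_
      | refine BPred.all ?_
      | exact BPred.const _
  · clear hY hg hgo hZ hZc hi hinj hio h
    intro p hp
    obtain ⟨q, hqp, hq⟩ := stable_key hem hR (Y := Y) (S := S) (g := g) (Z := Z) (W := W) (i := i)
      (p := p) (hp.imp fun h hh => hh.2)
    obtain ⟨f, hf⟩ := q.Y_ctbl.exists_eq_range ⟨∅, q.emp⟩
    have hfq : ∀ n, f n ∈ q.Y := fun n => by rw [hf]; exact Set.mem_range_self n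
    have hG : ∀ n, ∃ G : BName B, ∀ h : Ult B, ∀ z, E h z (Mdl.mk h G) ↔ E h z (Mdl.mk h Y) ∧
        Has (E h) (Mdl.mk h g) [Mdl.mk h (nm (f n)), z] := by
      intro n
      obtain ⟨G, hG⟩ := separation_name (H := fun h : Ult B => h) (D := fun h z =>
        Has (E h) (Mdl.mk h g) [Mdl.mk h (nm (f n)), z]) (by
          repeat' first
            | exact BMap.id
            | apply BMap.fst
            | apply BMap.snd
            | exact BTerm.const _
            | apply bterm_opair
            | apply BTerm.of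
            | apply BPred.mem
            | apply BPred.eq
            | apply bp_has2
            | apply bp_has3
            | apply bp_isTuple3
            | apply bp_eq_pr
            | apply bp_isPair
            | apply bp_isUPair
            | apply bp_isFun
            | apply bp_injects
            | apply BPred.not
            | apply BPred.and
            | apply BPred.or
            | apply BPred.iff
            | apply BPred.imp
            | refine BPred.ex ?_
            | refine BPred.all ?_
            | exact BPred.const _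
          ) Y
      exact ⟨G, fun h z => hG h z⟩
    choose G hG using hG
    refine ⟨q, hqp, fun h hh => ⟨Mdl.mk h (BName.mk ℕ G (fun _ => ⊤)), ?_, isCtbl_seq G
      (fun z hz => hz), ?_⟩⟩
    · refine forall_mem (P := fun h V => Sub (E h) V (Mdl.mk h Y)) _ _ ?_ (clop_V (em q)) ?_ h hh
      · repeat' first
          | exact BMap.id
          | apply BMap.fst
          | apply BMap.snd
          | exact BTerm.const _
          | apply bterm_opair
          | apply BTerm.of
          | apply BPred.mem
          | apply BPred.eq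
          | apply bp_has2
          | apply bp_has3
          | apply bp_isTuple3
          | apply bp_eq_pr
          | apply bp_isPair
          | apply bp_isUPair
          | apply bp_isFun
          | apply bp_injects
          | apply BPred.not
          | apply BPred.and
          | apply BPred.or
          | apply BPred.iff
          | apply BPred.imp
          | refine BPred.ex ?_
          | refine BPred.all ?_
          | exact BPred.const _
      · intro h hh n _ z hz
        exact ((hG n h z).1 hz).1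
    · intro U u hU hu
      obtain ⟨⟨hY, hgo⟩, hZ, hZc, hg, hi, hinj⟩ := hp h (h.mono (hem.mono _ _ hqp) hh)
      have huY : E h u (Mdl.mk h Y) := hY.1.1 U hU u hu
      obtain ⟨x, hx⟩ := hgo u huY
      have hxX := (isFun_has hg.1 hx).1
      have key2 : ∀ h : Ult B, h.V (em q) → ∀ x, E h x (Mdl.mk h (chk (yv em))) →
          ∀ u, Has (E h) (Mdl.mk h g) [x, u] → ∃ V, E h V (Mdl.mk h (BName.mk ℕ G
            (fun _ => ⊤))) ∧ E h u V ∧ ∀ u', E h u' V → u' = u := by
        refine forall_chk _ (P := fun h x => ∀ u, Has (E h) (Mdl.mk h g) [x, u] →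
          ∃ V, E h V (Mdl.mk h (BName.mk ℕ G
            (fun _ => ⊤))) ∧ E h u V ∧ ∀ u', E h u' V → u' = u) ?_ (clop_V (em q)) ?_
        · repeat' first
            | exact BMap.id
            | apply BMap.fst
            | apply BMap.snd
            | exact BTerm.const _
            | apply bterm_opair
            | apply BTerm.of
            | apply BPred.mem
            | apply BPred.eq
            | apply bp_has2
            | apply bp_has3
            | apply bp_isTuple3
            | apply bp_eq_pr
            | apply bp_isPair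
            | apply bp_isUPair
            | apply bp_isFun
            | apply bp_injects
            | apply BPred.not
            | apply BPred.and
            | apply BPred.or
            | apply BPred.iff
            | apply BPred.imp
            | refine BPred.ex ?_
            | refine BPred.all ?_
            | exact BPred.const _
        · intro h hh y hy u hu
          obtain ⟨⟨hY, hgo⟩, hZ, hZc, hg, hi, hinj⟩ := hp h (h.mono (hem.mono _ _ hqp) hh)
          obtain ⟨h1, h2⟩ := hq h hh y hy
          obtain ⟨n, hn⟩ : ∃ n, f n = y ∩ q.F := by rwa [hf] at h1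
          have hnX : E h (Mdl.mk h (nm (f n))) (Mdl.mk h (chk (yv em))) :=
            E_chk.2 (yv_of (hfq n) h hh)
          obtain ⟨u', hu', -⟩ := hg.1.2 _ hnX
          have hu'' := hu'
          rw [hn] at hu''
          obtain rfl := h2 u u' hu hu''
          refine ⟨Mdl.mk h (G n), E_of_coe (e := G) (i := n) h.top',
            (hG n h u).2 ⟨(isFun_has hg.1 hu).2, hu'⟩, fun u' hu1 => ?_⟩
          exact isFun_uniq hg.1 ((hG n h u').1 hu1).2 hu'
      obtain ⟨V, hV, huV, hV'⟩ := key2 h hh x hxX u hx
      exact ⟨V, hV, huV, fun u' hu' => by rw [hV' u' hu']; exact hu⟩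

end Pool.Agent.MP7e7dde
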