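import Pool.Agent.MP_63050e_lc.Statement

/-! The topological vocabulary of the statement, interpreted in a model `(M, E)` of ZFC. All
quantifiers range over the model. Throughout, `w` is the ordinal `ω` of the model and `(R, L)` is
the real line of the model, `L` being its order relation (a set of pairs). -/

namespace Pool.Agent.MP7e7dde

open MP63050e

universe u

variable {M : Type u} (E : M → M → Prop)

/-- `x ⊆ y`. -/
def Sub (x y : M) : Prop := ∀ z, E z x → E z y

/-- `x` is finite: it injects into an element of `w = ω`. -/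
def IsFin (w x : M) : Prop := ∃ n, E n w ∧ Injects E x n

/-- `x` is countable: it injects into `w = ω`. -/
def IsCtbl (w x : M) : Prop := Injects E x w

/-- `(R, L)` is (isomorphic to) the real line with its strict order: a nonempty strict linear
order, without end points, complete (each nonempty subset with an upper bound has a least upper
bound), and with a countable order dense subset. -/
def IsReal (w R L : M) : Prop :=
  (∃ a, E a R) ∧ (∀ a, ¬ Has E L [a, a]) ∧
  (∀ a b c, E a R → E b R → E c R → Has E L [a, b] → Has E L [b, c] → Has E L [a, c]) ∧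
  (∀ a b, E a R → E b R → a ≠ b → Has E L [a, b] ∨ Has E L [b, a]) ∧
  (∀ a, E a R → (∃ b, E b R ∧ Has E L [a, b]) ∧ ∃ b, E b R ∧ Has E L [b, a]) ∧
  (∀ A, Sub E A R → (∃ a, E a A) → (∃ b, E b R ∧ ∀ a, E a A → a = b ∨ Has E L [a, b]) →
    ∃ s, E s R ∧ (∀ a, E a A → a = s ∨ Has E L [a, s]) ∧
      ∀ b, E b R → (∀ a, E a A → a = b ∨ Has E L [a, b]) → s = b ∨ Has E L [s, b]) ∧
  ∃ D, Sub E D R ∧ IsCtbl E w D ∧ ∀ a b, E a R → E b R → Has E L [a, b] →
    ∃ d, E d D ∧ Has E L [a, d] ∧ Has E L [d, b]

/-- `T` is a topology on `X` (the set of the open sets). -/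
def IsTop (X T : M) : Prop :=
  (∀ U, E U T → Sub E U X) ∧ E X T ∧
  (∀ U V W, E U T → E V T → (∀ z, E z W ↔ E z U ∧ E z V) → E W T) ∧
  ∀ A U, Sub E A T → (∀ z, E z U ↔ ∃ V, E V A ∧ E z V) → E U T

/-- `f` is a continuous function from the space `(X, T)` to the real line. -/
def IsCR (R L X T f : M) : Prop :=
  IsFun E f X R ∧ ∀ x r a b, Has E f [x, r] → E a R → E b R → Has E L [a, r] → Has E L [r, b] →
    ∃ U, E U T ∧ E x U ∧ ∀ x' r', E x' U → Has E f [x', r'] → Has E L [a, r'] ∧ Has E L [r', b]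

/-- `(X, T)` is a Tychonoff space: a completely regular `T₁` space. -/
def IsTych (R L X T : M) : Prop :=
  IsTop E X T ∧ (∀ x y, E x X → E y X → x ≠ y → ∃ U, E U T ∧ E x U ∧ ¬ E y U) ∧
  ∀ U x, E U T → E x U → ∃ f r, IsCR E R L X T f ∧ E r R ∧ ¬ Has E f [x, r] ∧
    ∀ y, E y X → ¬ E y U → Has E f [y, r]

/-- `g` is a continuous map from the space `(X, T)` to the space `(Y, S)`. -/
def IsCont (X T Y S g : M) : Prop :=
  IsFun E g X Y ∧ ∀ V, E V S → ∃ U, E U T ∧ ∀ x, E x U ↔ ∃ y, E y V ∧ Has E g [x, y]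

/-- The function `g` is onto `Y`. -/
def IsOnto (Y g : M) : Prop := ∀ y, E y Y → ∃ x, Has E g [x, y]

/-- The function `g` is injective. -/
def IsInj (g : M) : Prop := ∀ x x' y, Has E g [x, y] → Has E g [x', y] → x = x'

/-- The topology `T` has a countable base. -/
def IsSecCtbl (w T : M) : Prop :=
  ∃ B, Sub E B T ∧ IsCtbl E w B ∧ ∀ U x, E U T → E x U → ∃ V, E V B ∧ E x V ∧ Sub E V U

/-- The space `(X, T)` has a countable network. -/
def HasCtblNet (w X T : M) : Prop :=
  ∃ N, (∀ V, E V N → Sub E V X) ∧ IsCtbl E w N ∧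
    ∀ U x, E U T → E x U → ∃ V, E V N ∧ E x V ∧ Sub E V U

/-- The space `(X, T)` is `ω`-stable: each continuous image `(Y, S)` of `(X, T)` which admits a
continuous bijection onto a second countable space `(Z, W)` has a countable network (all spaces
being Tychonoff). -/
def IsStable (w R L X T : M) : Prop :=
  ∀ Y S g Z W i, IsTych E R L Y S → IsCont E X T Y S g → IsOnto E Y g → IsTych E R L Z W →
    IsSecCtbl E w W → IsCont E Y S Z W i → IsInj E i → IsOnto E Z i → HasCtblNet E w Y S

/-- The space `(X, T)` is Lindelöf. -/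
def IsLindelof (w X T : M) : Prop :=
  ∀ A, Sub E A T → (∀ x, E x X → ∃ U, E U A ∧ E x U) →
    ∃ B, Sub E B A ∧ IsCtbl E w B ∧ ∀ x, E x X → ∃ U, E U B ∧ E x U

/-- `x` belongs to the closure of `A` for the topology `T`. -/
def InCl (T A x : M) : Prop := ∀ U, E U T → E x U → ∃ a, E a A ∧ E a U

/-- The space `(X, T)` has countable tightness. -/
def IsTight (w X T : M) : Prop :=
  ∀ A x, Sub E A X → E x X → InCl E T A x → ∃ B, Sub E B A ∧ IsCtbl E w B ∧ InCl E T B x

/-- The function `g` satisfies the constraint `t = (x, (a, b))`: `a < g(x) < b`. -/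
def SatC (R L g t : M) : Prop :=
  ∃ x a b r, IsTuple E t [x, a, b] ∧ E a R ∧ E b R ∧ Has E g [x, r] ∧ Has E L [a, r] ∧
    Has E L [r, b]

/-- `O` is open in the set `C` of real functions for the topology of pointwise convergence. -/
def IsPtOpen (w R L C O : M) : Prop :=
  Sub E O C ∧ ∀ g, E g O → ∃ P, IsFin E w P ∧ (∀ t, E t P → SatC E R L g t) ∧
    ∀ f, E f C → (∀ t, E t P → SatC E R L f t) → E f O

/-- `(C, W)` is the space `C_p(X)` of the continuous real functions on `(X, T)`, with the topology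
`W` of pointwise convergence. -/
def IsCp (w R L X T C W : M) : Prop :=
  (∀ f, E f C ↔ IsCR E R L X T f) ∧ ∀ O, E O W ↔ IsPtOpen E w R L C O

/-- `V` is the subspace topology on `S` induced by the topology `W`. -/
def IsSubTop (W S V : M) : Prop := ∀ O, E O V ↔ ∃ U, E U W ∧ ∀ z, E z O ↔ E z U ∧ E z S

/-- `A` is countably compact in the space `(S, V)`: each infinite subset `D` of `A` has an
accumulation point `s` in `S`. -/
def IsCCIn (w S V A : M) : Prop :=
  ∀ D, Sub E D A → ¬ IsFin E w D → ∃ s, E s S ∧ ∀ U, E U V → E s U → ∃ d, E d D ∧ E d U ∧ d ≠ s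

/-- The subset `K` of the space with topology `V` is compact: each cover of `K` by open sets has a
finite subcover. -/
def IsCpt (w V K : M) : Prop :=
  ∀ A, Sub E A V → (∀ x, E x K → ∃ U, E U A ∧ E x U) →
    ∃ B, Sub E B A ∧ IsFin E w B ∧ ∀ x, E x K → ∃ U, E U B ∧ E x U

/-- `(S, V)` is a g-space: the closure in `S` of each subset `A` of `S` which is countably compact
in `S` is compact. -/
def IsG (w S V : M) : Prop :=
  ∀ A, Sub E A S → IsCCIn E w S V A → ∀ K, (∀ x, E x K ↔ E x S ∧ InCl E V A x) → IsCpt E w V K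

/-- The space `(X, T)` is Grothendieck: each subspace of `C_p(X)` is a g-space. -/
def IsGroth (w R L X T : M) : Prop :=
  ∀ C W, IsCp E w R L X T C W → ∀ S V, Sub E S C → IsSubTop E W S V → IsG E w S V

end Pool.Agent.MP7e7dde
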