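import Pool.Agent.MP_7e7dde_gt.Bp
import Pool.Agent.MP_63050e_lc.D6

/-! Tools for forcing arguments in the Boolean valued models. -/

set_option linter.unusedVariables false
set_option linter.unusedSectionVars false
set_option linter.unreachableTactic false
set_option linter.unusedTactic false

namespace Pool.Agent.MP7e7dde

open BVM BName SetModel MP63050e

variable {B : Type} [CompleteBooleanAlgebra B]

/-! ### Truth values and discrete names -/

open Classical in
/-- The truth value of a proposition. -/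
noncomputable def tv (B : Type) [CompleteBooleanAlgebra B] (p : Prop) : B := if p then ⊤ else ⊥

theorem V_tv (h : Ult B) (p : Prop) : h.V (tv B p) ↔ p := by
  unfold tv
  by_cases hp : p
  · simp only [hp, if_true, iff_true]; exact h.top'
  · simp only [hp, if_false, iff_false]; exact h.bot

/-- A well-ordering of a type. -/
@[reducible]
noncomputable def woOrder (α : Type) : LinearOrder α := by
  classical exact linearOrderOfSTO WellOrderingRel

theorem woOrder_wf (α : Type) : @WellFoundedLT α (woOrder α).toLT :=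
  inferInstanceAs (IsWellFounded α WellOrderingRel)

/-- The standard names of the elements of a type: pairwise different von Neumann ordinals. -/
noncomputable def nm {α : Type} (a : α) : BName B := @vN B _ α (woOrder α) (woOrder_wf α) a

theorem nm_ne {α : Type} {a b : α} (hab : a ≠ b) : beq (nm a : BName B) (nm b) = ⊥ :=
  @beq_vN_ne B _ α (woOrder α) (woOrder_wf α) a b hab

theorem nm_inj {α : Type} {a b : α} {h : Ult B} : Mdl.mk h (nm a) = Mdl.mk h (nm b) ↔ a = b := by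
  constructor
  · intro H
    by_contra hab
    rw [Mdl.mk_eq, nm_ne hab] at H
    exact h.bot H
  · rintro rfl; rfl

/-- The name of a subset of (the check name of) a type. -/
noncomputable def chk {α : Type} (c : α → B) : BName B := BName.mk α nm c

theorem E_chk {α : Type} {c : α → B} {h : Ult B} {a : α} :
    E h (Mdl.mk h (nm a)) (Mdl.mk h (chk c)) ↔ h.V (c a) := by
  rw [E_mk, chk, bmem_inj (fun x y hxy => nm_ne hxy)]

/-- The name of a binary relation. -/
noncomputable def rel {α β : Type} (c : α → β → B) : BName B :=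
  BName.mk (α × β) (fun p => opair (nm p.1) (nm p.2)) (fun p => c p.1 p.2)

theorem has_rel {α β : Type} {c : α → β → B} {h : Ult B} {a : α} {b : β} :
    Has (E h) (Mdl.mk h (rel c)) [Mdl.mk h (nm a), Mdl.mk h (nm b)] ↔ h.V (c a b) := by
  rw [has_iff (by simp)]
  change h.V (bmem (opair (nm a) (nm b)) (rel c)) ↔ _
  have hinj : ∀ x y : α × β, x ≠ y → beq (opair (nm x.1) (nm x.2) : BName B)
      (opair (nm y.1) (nm y.2)) = ⊥ := by
    intro x y hxy
    rw [beq_opair]
    by_cases h1 : x.1 = y.1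
    · have h2 : x.2 ≠ y.2 := fun h2 => hxy (Prod.ext h1 h2)
      rw [nm_ne h2, inf_bot_eq]
    · rw [nm_ne h1, bot_inf_eq]
  have := bmem_inj hinj (fun p => c p.1 p.2) (a, b)
  simp only at this
  rw [rel, this]

/-! ### Quantifiers over names -/

/-- Induction principle for membership in a name. -/
theorem forall_mem {ι : Type} (e : ι → BName B) (c : ι → B) {P : (h : Ult B) → Mdl h → Prop}
    (hP : BPred (fun h : Ult B => h) (fun h (x : BName B) => P h (Mdl.mk h x)))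
    {Q : Ult B → Prop} (hQ : Clop Q)
    (H : ∀ h : Ult B, Q h → ∀ i, h.V (c i) → P h (Mdl.mk h (e i))) :
    ∀ h : Ult B, Q h → ∀ z, E h z (Mdl.mk h (BName.mk ι e c)) → P h z := by
  obtain ⟨φ, hφ, hφ'⟩ := hP
  obtain ⟨b, hb⟩ := hQ
  have h1 : ∀ i, b ⊓ c i ≤ φ (e i) := fun i => Ult.le_iff.2 fun h hh =>
    (hφ' h (e i)).1 (H h ((hb h).2 ((h.inf' _ _).1 hh).1) i ((h.inf' _ _).1 hh).2)
  intro h hQ z hz
  obtain ⟨z, rfl⟩ := z.exists_rep
  refine (hφ' h z).2 ?_
  rw [E_mk, bmem_mk] at hz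
  have h2 : b ⊓ (⨆ i, c i ⊓ beq z (e i)) ≤ φ z := by
    rw [inf_iSup_eq]
    refine iSup_le fun i => le_trans ?_ (hφ (e i) z)
    change _ ≤ beq (e i) z ⊓ φ (e i)
    rw [beq_symm (e i) z]
    refine le_inf (inf_le_right.trans inf_le_right) (le_trans ?_ (h1 i))
    exact le_inf inf_le_left (inf_le_right.trans inf_le_left)
  exact h.mono h2 ((h.inf' _ _).2 ⟨(hb h).1 hQ, hz⟩)

theorem clop_true : Clop (fun _ : Ult B => True) := ⟨⊤, fun h => ⟨fun _ => h.top', fun _ => trivial⟩⟩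

theorem clop_V (b : B) : Clop (fun h : Ult B => h.V b) := ⟨b, fun _ => Iff.rfl⟩

theorem bp_V {Γ : Type*} [BSet B Γ] (b : B) :
    BPred (fun h : Ult B => h) (fun h (_ : Γ) => h.V b) :=
  ⟨fun _ => b, fun _ _ => inf_le_right, fun _ _ => Iff.rfl⟩

theorem Clop.and {P Q : Ult B → Prop} (hP : Clop P) (hQ : Clop Q) : Clop (fun h => P h ∧ Q h) := by
  obtain ⟨a, ha⟩ := hP
  obtain ⟨b, hb⟩ := hQ
  exact ⟨a ⊓ b, fun h => (and_congr (ha h) (hb h)).trans (h.inf' a b).symm⟩

theorem Clop.not {P : Ult B → Prop} (hP : Clop P) : Clop (fun h => ¬ P h) := by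
  obtain ⟨a, ha⟩ := hP
  exact ⟨aᶜ, fun h => (not_congr (ha h)).trans (h.compl' a).symm⟩

/-- Membership in a name, without assumption. -/
theorem forall_mem' {ι : Type} (e : ι → BName B) (c : ι → B) {P : (h : Ult B) → Mdl h → Prop}
    (hP : BPred (fun h : Ult B => h) (fun h (x : BName B) => P h (Mdl.mk h x)))
    (H : ∀ h : Ult B, ∀ i, h.V (c i) → P h (Mdl.mk h (e i))) (h : Ult B) (z : Mdl h)
    (hz : E h z (Mdl.mk h (BName.mk ι e c))) : P h z :=
  forall_mem e c hP clop_true (fun h _ => H h) h trivial z hz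

/-- Elements of `rel c` are pairs. -/
theorem mem_rel {α β : Type} {c : α → β → B} {h : Ult B} {p : Mdl h}
    (hp : E h p (Mdl.mk h (rel c))) : ∃ x y, p = pr h x y ∧
      E h x (Mdl.mk h (chk (fun _ : α => (⊤ : B)))) ∧
      E h y (Mdl.mk h (chk (fun _ : β => (⊤ : B)))) := by
  refine forall_mem' (P := fun h p => ∃ x y, p = pr h x y ∧
      E h x (Mdl.mk h (chk (fun _ : α => (⊤ : B)))) ∧
      E h y (Mdl.mk h (chk (fun _ : β => (⊤ : B))))) (fun p : α × β => opair (nm p.1) (nm p.2))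
      _ ?_ ?_ h p hp
  · refine BPred.ex (BPred.ex (BPred.and ?_ (BPred.and ?_ ?_)))
    · exact BPred.eq BTerm.id.fst.fst (bterm_opair BTerm.snd.fst BTerm.snd)
    · exact BPred.mem BTerm.snd.fst (BTerm.const _)
    · exact BPred.mem BTerm.snd (BTerm.const _)
  · intro h i _
    exact ⟨_, _, rfl, E_chk.2 h.top', E_chk.2 h.top'⟩

theorem has_rel_mem {α β : Type} {c : α → β → B} {h : Ult B} {x y : Mdl h}
    (hxy : Has (E h) (Mdl.mk h (rel c)) [x, y]) :
      E h x (Mdl.mk h (chk (fun _ : α => (⊤ : B)))) ∧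
      E h y (Mdl.mk h (chk (fun _ : β => (⊤ : B)))) := by
  rw [has_iff (by simp)] at hxy
  obtain ⟨x', y', h1, h2, h3⟩ := mem_rel hxy
  obtain ⟨rfl, rfl⟩ := pr_inj.1 (show pr h x y = pr h x' y' from h1)
  exact ⟨h2, h3⟩

/-- The maximum principle. -/
theorem exists_wit {P : (h : Ult B) → Mdl h → Prop}
    (hP : BPred (fun h : Ult B => h) (fun h (x : BName B) => P h (Mdl.mk h x)))
    {Q : Ult B → Prop} (H : ∀ h : Ult B, Q h → ∃ z, P h z) :
    ∃ z : BName B, ∀ h : Ult B, Q h → P h (Mdl.mk h z) := by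
  obtain ⟨φ, hφ, hφ'⟩ := hP
  obtain ⟨z, hz⟩ := exists_max (B := B) (φ := φ) hφ
  refine ⟨z, fun h hQ => ?_⟩
  obtain ⟨x, hx⟩ := H h hQ
  obtain ⟨x, rfl⟩ := x.exists_rep
  refine (hφ' h z).2 ?_
  rw [hz]
  exact h.iSup_of φ x ((hφ' h x).1 hx)

/-! ### Forcing -/

section forcing

variable {P : Type} [Preorder P] {em : P → B}

/-- The condition `p` forces `Q`. -/
def Fo (em : P → B) (p : P) (Q : Ult B → Prop) : Prop := ∀ h : Ult B, h.V (em p) → Q h

theorem Fo.mono (hem : DenseEmb em) {p q : P} (hqp : q ≤ p) {Q : Ult B → Prop}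
    (h : Fo em p Q) : Fo em q Q := fun h' hq => h h' (h'.mono (hem.mono _ _ hqp) hq)

theorem Fo.imp {p : P} {Q R : Ult B → Prop} (h : Fo em p Q) (H : ∀ h, Q h → R h) : Fo em p R :=
  fun h' hp => H h' (h h' hp)

theorem Fo.and {p : P} {Q R : Ult B → Prop} (h : Fo em p Q) (h' : Fo em p R) :
    Fo em p (fun h => Q h ∧ R h) := fun k hk => ⟨h k hk, h' k hk⟩

theorem Fo.const (hem : DenseEmb em) {p : P} {φ : Prop} (h : Fo em p (fun _ => φ)) : φ := by
  obtain ⟨k, hk⟩ := Ult.exists_of_ne_bot (hem.ne_bot p)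
  exact h k hk

theorem Fo.false (hem : DenseEmb em) {p : P} (h : Fo em p (fun _ => False)) : False := h.const hem

/-- Density. -/
theorem fo_of_dense (hem : DenseEmb em) {Q : Ult B → Prop} (hQ : Clop Q) {p : P}
    (H : ∀ q, q ≤ p → ∃ r, r ≤ q ∧ Fo em r Q) : Fo em p Q := by
  obtain ⟨b, hb⟩ := hQ
  have h1 : em p ≤ b := by
    by_contra hne
    have h2 : em p ⊓ bᶜ ≠ ⊥ := by
      intro h0
      apply hne
      have := le_compl_iff_disjoint_right.2 (disjoint_iff.2 h0)
      rwa [compl_compl] at this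
    obtain ⟨q, hqp, hq⟩ := hem.exists_of_inf h2
    obtain ⟨r, hrq, hr⟩ := H q hqp
    obtain ⟨k, hk⟩ := Ult.exists_of_ne_bot (hem.ne_bot r)
    have h3 := k.mono ((hem.mono _ _ hrq).trans hq) hk
    rw [k.compl'] at h3
    exact h3 ((hb k).1 (hr k hk))
  exact fun h hp => (hb h).2 (h.mono h1 hp)

/-- To prove an implication in all models, it suffices to consider the conditions which force
the assumption. -/
theorem imp_of_fo (hem : DenseEmb em) {Q R : Ult B → Prop} (hQ : Clop Q) (hR : Clop R)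
    (H : ∀ p, Fo em p Q → ∃ q, q ≤ p ∧ Fo em q R) : ∀ h, Q h → R h := by
  obtain ⟨a, ha⟩ := hQ
  obtain ⟨b, hb⟩ := hR
  have h1 : a ≤ b := by
    refine hem.le_of fun p hp => ?_
    obtain ⟨q, hqp, hq⟩ := H p fun h hh => (ha h).2 (h.mono hp hh)
    exact ⟨q, hqp, Ult.le_iff.2 fun h hh => (hb h).1 (hq h hh)⟩
  exact fun h hQ => (hb h).2 (h.mono h1 ((ha h).1 hQ))

/-- Deciding a statement. -/
theorem decide_fo (hem : DenseEmb em) {Q : Ult B → Prop} (hQ : Clop Q) (p : P) :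
    ∃ q, q ≤ p ∧ (Fo em q Q ∨ Fo em q (fun h => ¬ Q h)) := by
  obtain ⟨b, hb⟩ := hQ
  by_cases h1 : em p ⊓ b = ⊥
  · refine ⟨p, le_rfl, Or.inr fun h hp hQ => ?_⟩
    have := (h.inf' _ _).2 ⟨hp, (hb h).1 hQ⟩
    rw [h1] at this
    exact h.bot this
  · obtain ⟨q, hqp, hq⟩ := hem.exists_of_inf h1
    exact ⟨q, hqp, Or.inl fun h hh => (hb h).2 (h.mono hq hh)⟩

/-- Deciding an element of a supremum. -/
theorem decide_iSup (hem : DenseEmb em) {ι : Sort*} {c : ι → B} {p : P}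
    (H : Fo em p (fun h => h.V (⨆ i, c i))) : ∃ q, q ≤ p ∧ ∃ i, Fo em q (fun h => h.V (c i)) := by
  obtain ⟨i, q, hqp, hq⟩ := hem.exists_iSup (Ult.le_iff.2 H)
  exact ⟨q, hqp, i, fun h hh => h.mono hq hh⟩

/-- Deciding an element of a name. -/
theorem decide_mem (hem : DenseEmb em) {ι : Type} (e : ι → BName B) (c : ι → B)
    {Q : (h : Ult B) → Mdl h → Prop}
    (hQ : BPred (fun h : Ult B => h) (fun h (x : BName B) => Q h (Mdl.mk h x))) {p : P}
    (H : Fo em p (fun h => ∃ z, E h z (Mdl.mk h (BName.mk ι e c)) ∧ Q h z)) :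
    ∃ q, q ≤ p ∧ ∃ i, Fo em q (fun h => h.V (c i) ∧ Q h (Mdl.mk h (e i))) := by
  obtain ⟨φ, hφ, hφ'⟩ := hQ
  have h1 : em p ≤ ⨆ i, c i ⊓ φ (e i) := by
    refine le_trans ?_ (bex_eq (φ := φ) hφ (BName.mk ι e c)).le
    rw [Ult.le_iff]
    intro h hp
    obtain ⟨z, hz, hQz⟩ := H h hp
    obtain ⟨z, rfl⟩ := z.exists_rep
    refine h.iSup_of (fun z => bmem z (BName.mk ι e c) ⊓ φ z) z ?_
    rw [h.inf']
    exact ⟨hz, (hφ' h z).1 hQz⟩
  obtain ⟨i, q, hqp, hq⟩ := hem.exists_iSup h1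
  refine ⟨q, hqp, i, fun h hh => ?_⟩
  have h2 := h.mono hq hh
  rw [h.inf'] at h2
  exact ⟨h2.1, (hφ' h (e i)).2 h2.2⟩

end forcing

end Pool.Agent.MP7e7dde
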